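import Mathlib.Topology.Sheaves.Presheaf
import Mathlib.Tactic.Monotonicity.Lemmas
import Mathlib.Algebra.Order.Ring.Star
import Mathlib.Tactic.Bound
import Mathlib.Data.Rat.Star
import Mathlib.RingTheory.PiTensorProduct
import Mathlib.RingTheory.WittVector.IsPoly
import Mathlib.Tactic.Polynomial.Basic
import Mathlib.Tactic.ReduceModChar

/-!
Weighted counts of words under an involution with pair constraints: product bounds, a container
recursion and two systems of potentials.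
-/

namespace Pool.Agent.MP_0bb195_co.Pack

open Finset

/-- The tilt of a letter `a` whose partner is `b`. -/
def tl (z : ℚ) (Q a b : ℕ) : ℚ :=
  if 3 ≤ Q then (if a = 1 then z⁻¹ else if a = 2 ∧ Q ≤ b + 1 then z else 1) else 1

/-- The weight of a pair of letters. -/
def pw (y z : ℚ) (Q a b : ℕ) : ℚ :=
  if Q ≤ a + b then y ^ (a + b) * (tl z Q a b * tl z Q b a) else 0

/-- The weight of a box of pairs. -/
def PP (y z : ℚ) (Q c U c' U' : ℕ) : ℚ := ∑ a ∈ Icc c U, ∑ b ∈ Icc c' U', pw y z Q a b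

/-- A system of potentials. -/
structure Pk (y z ρ : ℚ) (f : ℕ → ℕ → ℕ → ℚ) : Prop where
  y0 : 0 < y
  y1 : y ≤ 1
  z1 : 1 ≤ z
  z2 : z ≤ 2
  r0 : 1 / 3 ≤ ρ
  r1 : ρ ≤ 1
  f0 : ∀ Q U c, 0 ≤ f Q U c
  f1 : ∀ Q U c, f Q U c ≤ 4 / 3
  F : ∀ Q c U c' U', 2 ≤ Q → 1 ≤ c → 1 ≤ c' → U ≤ Q → U' ≤ Q →
    PP y z Q c U c' U' ≤ f Q U c * f Q U' c'
  C : ∀ Q U c Q' U' c', U ≤ Q → U' ≤ Q' → (U = Q → 3 ≤ Q) → (U' = Q' → 3 ≤ Q') →
    U ≤ c + c' → U' ≤ c + c' →
    f Q U c * f Q' U' c' ≤ (if U < Q then ρ else 1) * if U' < Q' then ρ else 1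

variable {y z : ℚ}

lemma tl_pos (hz : 1 ≤ z) (Q a b : ℕ) : 0 < tl z Q a b := by
  unfold tl; split_ifs <;> positivity

lemma tl_le (hz : 1 ≤ z) (Q a b : ℕ) : tl z Q a b ≤ z := by
  have : z⁻¹ ≤ 1 := inv_le_one_of_one_le₀ hz
  unfold tl; split_ifs <;> linarith

lemma pw_nonneg (hy : 0 < y) (hz : 1 ≤ z) (Q a b : ℕ) : 0 ≤ pw y z Q a b := by
  have h1 := tl_pos hz Q a b
  have h2 := tl_pos hz Q b a
  unfold pw; split_ifs <;> positivity

lemma PP_mono (hy : 0 < y) (hz : 1 ≤ z) {Q c U c' U' d W d' W' : ℕ} (h1 : d ≤ c) (h2 : U ≤ W)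
    (h3 : d' ≤ c') (h4 : U' ≤ W') : PP y z Q c U c' U' ≤ PP y z Q d W d' W' := by
  unfold PP
  refine le_trans (sum_le_sum fun a _ => sum_le_sum_of_subset_of_nonneg (Icc_subset_Icc h3 h4)
    fun b _ _ => pw_nonneg hy hz Q a b) ?_
  exact sum_le_sum_of_subset_of_nonneg (Icc_subset_Icc h1 h2)
    fun a _ _ => sum_nonneg fun b _ => pw_nonneg hy hz Q a b

lemma geo (U : ℕ) : ∑ a ∈ Icc 1 U, (4 / 5 : ℚ) ^ a = 4 - 4 * (4 / 5) ^ U := by
  induction U with
  | zero => simp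
  | succ U ih => rw [sum_Icc_succ_top (by omega), ih]; ring

lemma PP_crude (hy : 0 < y) (hy' : y ≤ 4 / 5) (hz : 1 ≤ z) {Q : ℕ} (hQ : 15 ≤ Q) :
    PP y z Q 1 Q 1 Q ≤ (y * (5 / 4)) ^ 15 * z ^ 2 * 16 := by
  have h1 : ∀ a b, pw y z Q a b ≤ (y * (5 / 4)) ^ 15 * z ^ 2 * ((4 / 5) ^ a * (4 / 5) ^ b) := by
    intro a b
    unfold pw
    split_ifs with h
    · have k1 : (y * (5 / 4)) ^ (a + b) ≤ (y * (5 / 4)) ^ 15 :=
        pow_le_pow_of_le_one (by positivity) (by linarith) (by omega)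
      have k2 : tl z Q a b * tl z Q b a ≤ z ^ 2 := by
        rw [sq]
        exact mul_le_mul (tl_le hz _ _ _) (tl_le hz _ _ _) (tl_pos hz _ _ _).le (by linarith)
      have k3 : y ^ (a + b) = (y * (5 / 4)) ^ (a + b) * ((4 / 5) ^ a * (4 / 5) ^ b) := by
        rw [← pow_add, ← mul_pow]; congr 1; ring
      rw [k3, mul_right_comm]
      exact mul_le_mul_of_nonneg_right (mul_le_mul k1 k2
        (mul_pos (tl_pos hz _ _ _) (tl_pos hz _ _ _)).le (by positivity)) (by positivity)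
    · positivity
  refine (sum_le_sum fun a _ => sum_le_sum fun b _ => h1 a b).trans ?_
  simp only [← mul_sum]
  rw [← sum_mul, geo]
  refine mul_le_mul_of_nonneg_left ?_ (by positivity)
  have k1 : (0 : ℚ) < (4 / 5) ^ Q := by positivity
  have k2 : (4 / 5 : ℚ) ^ Q ≤ 1 := pow_le_one₀ (by norm_num) (by norm_num)
  nlinarith

/-- The representative upper end of a box. -/
def rp (Q U : ℕ) : ℕ := if U = Q then Q else if U ≤ 2 then min 2 (Q - 1) else Q - 1

lemma F_of_tab {f : ℕ → ℕ → ℕ → ℚ} {f0 : ℚ} (hy : 0 < y) (hy' : y ≤ 4 / 5) (hz : 1 ≤ z)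
    (h0 : 0 ≤ f0) (hf : ∀ Q U c, f0 ≤ f Q U c)
    (hr : ∀ Q U c, 2 ≤ Q → U ≤ Q → f Q (rp Q U) (min c 3) = f Q U c)
    (t1 : ∀ Q ∈ Icc 2 8, ∀ U ∈ [Q, Q - 1, min 2 (Q - 1)], ∀ U' ∈ [Q, Q - 1, min 2 (Q - 1)],
      ∀ c ∈ [1, 2, 3], ∀ c' ∈ [1, 2, 3], PP y z Q c U c' U' ≤ f Q U c * f Q U' c')
    (t2 : ∀ Q ∈ Icc 9 14, PP y z Q 1 Q 1 Q ≤ f0 * f0)
    (t3 : (y * (5 / 4)) ^ 15 * z ^ 2 * 16 ≤ f0 * f0) :
    ∀ Q c U c' U', 2 ≤ Q → 1 ≤ c → 1 ≤ c' → U ≤ Q → U' ≤ Q →
      PP y z Q c U c' U' ≤ f Q U c * f Q U' c' := by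
  intro Q c U c' U' hQ hc hc' hU hU'
  by_cases h8 : Q ≤ 8
  · have m1 : ∀ U, rp Q U ∈ [Q, Q - 1, min 2 (Q - 1)] := fun U => by
      unfold rp; split_ifs <;> simp
    have m2 : ∀ c, 1 ≤ c → min c 3 ∈ [1, 2, 3] := fun c h => by
      simp only [List.mem_cons, List.not_mem_nil, or_false]; omega
    have m3 : ∀ U, U ≤ Q → U ≤ rp Q U := fun U h => by
      unfold rp; split_ifs <;> omega
    rw [← hr Q U c hQ hU, ← hr Q U' c' hQ hU']
    exact (PP_mono hy hz (min_le_left _ _) (m3 U hU) (min_le_left _ _) (m3 U' hU')).trans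
      (t1 Q (mem_Icc.2 ⟨hQ, h8⟩) _ (m1 U) _ (m1 U') _ (m2 c hc) _ (m2 c' hc'))
  · refine (PP_mono hy hz hc hU hc' hU').trans (le_trans ?_
      (mul_le_mul (hf Q U c) (hf Q U' c') h0 (h0.trans (hf Q U c))))
    by_cases h14 : Q ≤ 14
    · exact t2 Q (mem_Icc.2 ⟨by omega, h14⟩)
    · exact (PP_crude hy hy' hz (by omega)).trans t3

/-- The first potential. -/
def fa (Q U _c : ℕ) : ℚ := if U = Q then 1 else 21 / 50

/-- The second potential. -/
def fb (Q U c : ℕ) : ℚ :=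
  if U = Q then (if c ≤ 1 then 27 / 25 else if c = 2 then (if U = 3 then 87 / 100 else 24 / 25)
    else 81 / 100)
  else if c ≤ 1 then (if U ≤ 2 then 393 / 500 else 33 / 40) else 18 / 25

lemma pk_a : Pk (21 / 50) (6 / 5) (21 / 50) fa where
  y0 := by norm_num
  y1 := by norm_num
  z1 := by norm_num
  z2 := by norm_num
  r0 := by norm_num
  r1 := by norm_num
  f0 := fun Q U c => by unfold fa; split_ifs <;> norm_num
  f1 := fun Q U c => by unfold fa; split_ifs <;> norm_num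
  F := F_of_tab (f0 := 21 / 50) (by norm_num) (by norm_num) (by norm_num) (by norm_num)
    (fun Q U c => by unfold fa; split_ifs <;> norm_num)
    (fun Q U c h1 h2 => by unfold fa rp; split_ifs <;> first | rfl | omega)
    (by decide +kernel) (by decide +kernel) (by norm_num)
  C := fun Q U c Q' U' c' h1 h2 _ _ _ _ => by
    unfold fa; split_ifs <;> first | omega | norm_num

lemma pk_b : Pk (621 / 1000) (7 / 6) (393 / 500) fb where
  y0 := by norm_num
  y1 := by norm_num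
  z1 := by norm_num
  z2 := by norm_num
  r0 := by norm_num
  r1 := by norm_num
  f0 := fun Q U c => by unfold fb; split_ifs <;> norm_num
  f1 := fun Q U c => by unfold fb; split_ifs <;> norm_num
  F := F_of_tab (f0 := 18 / 25) (by norm_num) (by norm_num) (by norm_num) (by norm_num)
    (fun Q U c => by unfold fb; split_ifs <;> norm_num)
    (fun Q U c h1 h2 => by unfold fb rp; split_ifs <;> first | rfl | omega)
    (by decide +kernel) (by decide +kernel) (by norm_num)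
  C := fun Q U c Q' U' c' h1 h2 h3 h4 h5 h6 => by
    unfold fb; split_ifs <;> first | omega | norm_num

/-- A family coded injectively by coordinates in boxes has weight at most the product. -/
lemma box {α β : Type} (J : Finset ℕ) (T : ℕ → Finset β) (ψ : ℕ → β → ℚ) (V : Finset α)
    (code : α → ℕ → β) (hψ : ∀ i t, 0 ≤ ψ i t)
    (inj : ∀ w ∈ V, ∀ w' ∈ V, (∀ i ∈ J, code w i = code w' i) → w = w')
    (mem : ∀ w ∈ V, ∀ i ∈ J, code w i ∈ T i) :
    ∑ w ∈ V, ∏ i ∈ J, ψ i (code w i) ≤ ∏ i ∈ J, ∑ t ∈ T i, ψ i t := by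
  classical
  rw [prod_sum]
  let φ : α → (∀ i ∈ J, β) := fun w i _ => code w i
  have h1 : ∑ w ∈ V, ∏ i ∈ J, ψ i (code w i) =
      ∑ p ∈ V.image φ, ∏ x ∈ J.attach, ψ x.1 (p x.1 x.2) := by
    rw [sum_image fun w hw w' hw' e => inj w hw w' hw' fun i hi => congrFun (congrFun e i) hi]
    exact sum_congr rfl fun w _ => (prod_attach J fun i => ψ i (code w i)).symm
  rw [h1]
  refine sum_le_sum_of_subset_of_nonneg (fun p hp => ?_)
    fun p _ _ => prod_nonneg fun x _ => hψ _ _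
  obtain ⟨w, hw, rfl⟩ := mem_image.1 hp
  exact mem_pi.2 fun i hi => mem w hw i hi

lemma prod_pair {R : Finset ℕ} {σ : ℕ → ℕ} (h1 : ∀ i ∈ R, σ i ∈ R) (h2 : ∀ i ∈ R, σ (σ i) = i)
    (h3 : ∀ i ∈ R, σ i ≠ i) (φ : ℕ → ℚ) :
    ∏ i ∈ R, φ i = ∏ i ∈ R.filter fun i => i < σ i, φ i * φ (σ i) := by
  rw [prod_mul_distrib, ← prod_filter_mul_prod_filter_not R fun i => i < σ i]
  congr 1
  refine prod_nbij' σ σ (fun i hi => ?_) (fun i hi => ?_) (fun i hi => ?_) (fun i hi => ?_)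
    fun i hi => ?_
  · obtain ⟨k1, k2⟩ := mem_filter.1 hi
    have := h3 i k1
    exact mem_filter.2 ⟨h1 i k1, by rw [h2 i k1]; omega⟩
  · obtain ⟨k1, k2⟩ := mem_filter.1 hi
    exact mem_filter.2 ⟨h1 i k1, by rw [h2 i k1]; omega⟩
  · exact h2 i (mem_filter.1 hi).1
  · exact h2 i (mem_filter.1 hi).1
  · rw [h2 i (mem_filter.1 hi).1]

lemma prod_inv_le {I B : Finset ℕ} {τ : ℕ → ℕ} (h1 : ∀ i ∈ I, τ i ∈ I)
    (h2 : ∀ i ∈ I, τ (τ i) = i) {h : ℕ → ℚ} (h0 : ∀ i, 0 ≤ h i) (h4 : ∀ i, h i ≤ 4)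
    (hB : ∀ i ∈ I, i ∉ B → h i * h (τ i) ≤ 1) : ∏ i ∈ I, h i ≤ 4 ^ B.card := by
  have e1 : ∏ i ∈ I, h (τ i) = ∏ i ∈ I, h i :=
    prod_nbij' τ τ h1 h1 h2 h2 fun _ _ => rfl
  refine (pow_le_pow_iff_left₀ (prod_nonneg fun i _ => h0 i) (by positivity) two_ne_zero).1 ?_
  rw [sq]
  nth_rewrite 2 [← e1]
  rw [← prod_mul_distrib, ← prod_filter_mul_prod_filter_not I fun i => i ∈ B]
  have k1 : ∏ i ∈ I.filter fun i => i ∈ B, h i * h (τ i) ≤ (4 ^ B.card) ^ 2 := by
    have := prod_le_prod (s := I.filter fun i => i ∈ B) (f := fun i => h i * h (τ i))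
      (g := fun _ => (4 : ℚ) ^ 2) (fun i _ => mul_nonneg (h0 _) (h0 _))
      fun i _ => by rw [sq]; exact mul_le_mul (h4 _) (h4 _) (h0 _) (by norm_num)
    rw [prod_const, ← pow_mul] at this
    rw [← pow_mul]
    refine this.trans (pow_le_pow_right₀ (by norm_num) ?_)
    have := card_le_card (show (I.filter fun i => i ∈ B) ⊆ B from fun i hi => (mem_filter.1 hi).2)
    omega
  have k2 : ∏ i ∈ I.filter fun i => ¬ i ∈ B, h i * h (τ i) ≤ 1 :=
    prod_le_one (fun i _ => mul_nonneg (h0 _) (h0 _))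
      fun i hi => hB i (mem_filter.1 hi).1 (mem_filter.1 hi).2
  exact (mul_le_mul k1 k2 (prod_nonneg fun i _ => mul_nonneg (h0 _) (h0 _))
    (by positivity)).trans (mul_one _).le

/-- The container recursion. -/
lemma cont {α : Type} (I E : Finset ℕ) (V : Finset α) (w : α → ℕ → ℕ) (wt : α → ℚ)
    (τ thr : ℕ → ℕ → ℕ) {D N : ℕ} {B : ℚ} (hB : 0 ≤ B) (hD : (5001 : ℚ) ≤ (5001 / 5000) ^ D)
    (hwt : ∀ G, 0 ≤ wt G) (hN : ∀ G ∈ V, ∀ i ∈ I, w G i ≤ N)
    (hp : ∀ G ∈ V, ∀ e ∈ E, ∀ i ∈ I, thr e i ≤ w G i + w G (τ e i))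
    (hinj : ∀ v ∈ I, Set.InjOn (fun e => τ e v) E)
    (leaf : ∀ (c : ℕ → ℕ) (V' : Finset α), V' ⊆ V → (∀ i ∈ I, 1 ≤ c i) →
      (∀ G ∈ V', ∀ i ∈ I, c i ≤ w G i) →
      (∀ v ∈ I, (E.filter fun e => τ e v ∈ I ∧ c v + c (τ e v) < thr e v).card < D) →
      ∑ G ∈ V', wt G * (5001 / 5000) ^ (∑ i ∈ I, w G i) ≤ B) :
    ∀ (k : ℕ) (c : ℕ → ℕ) (V' : Finset α), V' ⊆ V → N * I.card + 1 ≤ ∑ i ∈ I, c i + k →
      (∀ i ∈ I, 1 ≤ c i) → (∀ G ∈ V', ∀ i ∈ I, c i ≤ w G i) →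
      (∑ G ∈ V', wt G) * (5001 / 5000) ^ (∑ i ∈ I, c i) ≤ B := by
  classical
  have hD1 : 1 ≤ D := Nat.pos_of_ne_zero fun e => by rw [e] at hD; norm_num at hD
  intro k
  induction k with
  | zero =>
    intro c V' hV hk _ hc
    have : V' = ∅ := by
      refine eq_empty_of_forall_notMem fun G hG => ?_
      have h1 : ∑ i ∈ I, c i ≤ ∑ _i ∈ I, N := sum_le_sum fun i hi =>
        (hc G hG i hi).trans (hN G (hV hG) i hi)
      rw [sum_const, smul_eq_mul, mul_comm] at h1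
      omega
    rw [this, sum_empty, zero_mul]
    exact hB
  | succ k ih =>
    intro c V' hV hk h1 hc
    by_cases hbad : ∃ v ∈ I, D ≤ (E.filter fun e => τ e v ∈ I ∧ c v + c (τ e v) < thr e v).card
    · obtain ⟨v, hv, hvD⟩ := hbad
      set S := (E.filter fun e => τ e v ∈ I ∧ c v + c (τ e v) < thr e v).image
        fun e => τ e v with hS
      have hSc : D ≤ S.card := by
        rw [hS, card_image_of_injOn ((hinj v hv).mono (coe_subset.2 (filter_subset _ _)))]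
        exact hvD
      have hSs : S ⊆ I := by
        intro j hj
        obtain ⟨e, he, rfl⟩ := mem_image.1 hj
        exact (mem_filter.1 he).2.1
      have hsum : ∀ T : Finset ℕ, T ⊆ I →
          ∑ i ∈ I, (c i + if i ∈ T then 1 else 0) = ∑ i ∈ I, c i + T.card := by
        intro T hT
        rw [sum_add_distrib, sum_ite_mem, inter_eq_right.2 hT, sum_const, smul_eq_mul, mul_one]
      have hv' : ({v} : Finset ℕ) ⊆ I := by simpa using hv
      have i1 := ih (fun i => c i + if i ∈ S then 1 else 0) (V'.filter fun G => w G v = c v)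
        ((filter_subset _ _).trans hV) (by rw [hsum S hSs]; omega)
        (fun i hi => (h1 i hi).trans (Nat.le_add_right _ _))
        (fun G hG i hi => by
          obtain ⟨hG, hGv⟩ := mem_filter.1 hG
          split_ifs with hi'
          · obtain ⟨e, he, rfl⟩ := mem_image.1 hi'
            obtain ⟨he, -, h2⟩ := mem_filter.1 he
            have := hp G (hV hG) e he v hv
            omega
          · exact hc G hG i hi)
      have i2 := ih (fun i => c i + if i ∈ ({v} : Finset ℕ) then 1 else 0)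
        (V'.filter fun G => ¬ w G v = c v) ((filter_subset _ _).trans hV)
        (by rw [hsum _ hv', card_singleton]; omega)
        (fun i hi => (h1 i hi).trans (Nat.le_add_right _ _))
        (fun G hG i hi => by
          obtain ⟨hG, hGv⟩ := mem_filter.1 hG
          have := hc G hG i hi
          split_ifs with hi'
          · rw [mem_singleton] at hi'
            rw [hi'] at this ⊢
            omega
          · exact this)
      rw [hsum S hSs, pow_add, ← mul_assoc] at i1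
      rw [hsum _ hv', card_singleton, pow_add, ← mul_assoc, pow_one] at i2
      rw [← sum_filter_add_sum_filter_not V' fun G => w G v = c v, add_mul]
      have k1 : (5001 : ℚ) ≤ (5001 / 5000) ^ S.card :=
        hD.trans (pow_le_pow_right₀ (by norm_num) hSc)
      have k2 : 0 ≤ (∑ G ∈ V'.filter fun G => w G v = c v, wt G) *
          (5001 / 5000 : ℚ) ^ (∑ i ∈ I, c i) :=
        mul_nonneg (sum_nonneg fun G _ => hwt G) (by positivity)
      nlinarith [mul_le_mul_of_nonneg_left k1 k2]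
    · refine le_trans ?_ (leaf c V' hV h1 hc fun v hv => not_le.1 fun h => hbad ⟨v, hv, h⟩)
      rw [sum_mul]
      exact sum_le_sum fun G hG => mul_le_mul_of_nonneg_left
        (pow_le_pow_right₀ (by norm_num) (sum_le_sum (hc G hG))) (hwt G)

/-- The number of small subsets. -/
lemma card_small (N s : ℕ) :
    (((range N).powerset.filter fun Y => Y.card ≤ s).card : ℚ) ≤
      (5001 / 5000) ^ N * 5000 ^ s := by
  have h1 : ∑ Y ∈ (range N).powerset, ((1 : ℚ) / 5000) ^ Y.card = (5001 / 5000) ^ N := by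
    have := sum_pow_mul_eq_add_pow ((1 : ℚ) / 5000) 1 (range N)
    simp only [one_pow, mul_one, card_range] at this
    rw [this]; norm_num
  rw [← h1, sum_mul, card_eq_sum_ones, Nat.cast_sum]
  refine le_trans (sum_le_sum fun Y hY => ?_) (sum_le_sum_of_subset_of_nonneg
    (filter_subset (fun Y : Finset ℕ => Y.card ≤ s) _) fun Y _ _ => by positivity)
  have k1 : ((1 : ℚ) / 5000) ^ s ≤ (1 / 5000) ^ Y.card :=
    pow_le_pow_of_le_one (by norm_num) (by norm_num) (mem_filter.1 hY).2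
  have k2 : ((1 : ℚ) / 5000) ^ s * 5000 ^ s = 1 := by rw [← mul_pow]; norm_num
  rw [Nat.cast_one]
  exact k2.symm.le.trans (mul_le_mul_of_nonneg_right k1 (by positivity))

end Pool.Agent.MP_0bb195_co.Pack
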