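import Mathlib.Algebra.Notation.Lemmas
import Mathlib.Tactic.IntervalCases
import Mathlib.Algebra.Order.Star.Real
import Mathlib.Tactic.Algebra.Basic

/-!
Weighted counts of words with letters in `[1, Q]` in which the top letter `Q` occurs in every
window of length `κ` and in which many reflections `i ↦ n - e - i` force pair sums at least `Q`.
A run-length potential bounds the weight of a box of words, and a container recursion reduces the
constrained count to boxes that are almost compatible with one reflection.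
-/

namespace Pool.Agent.MP_0bb195_co.Seg

open Finset

/-- Number of consecutive letters different from `Q` ending just before position `i`. -/
def st (Q : ℕ) (w : ℕ → ℕ) : ℕ → ℕ
  | 0 => 0
  | i + 1 => if w i = Q then 0 else st Q w i + 1

lemma st_congr (Q : ℕ) (w w' : ℕ → ℕ) : ∀ i, (∀ j < i, w j = w' j) → st Q w i = st Q w' i
  | 0, _ => rfl
  | i + 1, h => by
    simp only [st]
    rw [h i (Nat.lt_succ_self i), st_congr Q w w' i fun j hj => h j (by omega)]

lemma st_spec (Q : ℕ) (w : ℕ → ℕ) :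
    ∀ i, st Q w i ≤ i ∧ ∀ l, l < i → i ≤ l + st Q w i → w l ≠ Q
  | 0 => ⟨le_rfl, fun l hl => absurd hl (Nat.not_lt_zero l)⟩
  | i + 1 => by
    obtain ⟨h1, h2⟩ := st_spec Q w i
    simp only [st]
    split_ifs with h
    · exact ⟨Nat.zero_le _, fun l hl hl' => by omega⟩
    · refine ⟨by omega, fun l hl hl' => ?_⟩
      by_cases e : l = i
      · rw [e]; exact h
      · exact h2 l (by omega) (by omega)

/-- Growth factor of one position whose letters lie in `[c, Q]`. -/
noncomputable def aa (y μ : ℝ) (Q c : ℕ) : ℝ := y ^ Q + μ * (y ^ (min c (Q - 1)) - y ^ Q)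

/-- Data of a run-length potential. -/
structure Pot (κ : ℕ) (y μ : ℝ) (h : ℕ → ℝ) : Prop where
  y0 : 0 < y
  y1 : y < 1
  m1 : 1 ≤ μ
  m3 : μ ≤ 3
  h0 : h 0 = 1
  hnn : ∀ s, 0 ≤ h s
  hlow : ∀ s < κ, 1 ≤ 3 * h s
  step : ∀ s < κ, ∀ t B : ℝ, 0 ≤ t → t ≤ y * B →
    t + B * h (s + 1) ≤ (t + μ * (1 - y) * B) * h s
  big : μ ^ 2 * y ^ 7 ≤ (99 / 100) ^ 2
  small : ∀ Q c : ℕ, 3 ≤ Q → Q ≤ 6 → 1 ≤ c → c < Q →
    (y ^ Q + μ * (y ^ c - y ^ Q)) * (y ^ Q + μ * (y ^ (Q - c) - y ^ Q)) ≤ (99 / 100) ^ 2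

variable {κ : ℕ} {y μ : ℝ} {h : ℕ → ℝ}

lemma aa_nonneg (P : Pot κ y μ h) (Q c : ℕ) : 0 ≤ aa y μ Q c := by
  have h1 : y ^ Q ≤ y ^ (min c (Q - 1)) :=
    pow_le_pow_of_le_one P.y0.le P.y1.le (by omega)
  have h2 := pow_pos P.y0 Q
  have h3 := P.m1
  unfold aa
  nlinarith

lemma aa_le (P : Pot κ y μ h) (Q c : ℕ) : aa y μ Q c ≤ μ * y ^ (min c (Q - 1)) := by
  have h2 := pow_pos P.y0 Q
  have h3 := P.m1
  unfold aa
  nlinarith

lemma aa_le_three (P : Pot κ y μ h) (Q c : ℕ) : aa y μ Q c ≤ 3 := by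
  have h1 : y ^ (min c (Q - 1)) ≤ 1 := pow_le_one₀ P.y0.le P.y1.le
  have h2 := aa_le P Q c
  have h3 := P.m1
  have h4 := P.m3
  nlinarith

lemma aa_pair (P : Pot κ y μ h) {Q c c' : ℕ} (hQ : 3 ≤ Q) (hc : 1 ≤ c) (hc' : 1 ≤ c')
    (hs : Q ≤ c + c') : aa y μ Q c * aa y μ Q c' ≤ (99 / 100) ^ 2 := by
  have hm := P.m1
  by_cases h7 : 7 ≤ Q
  · have h1 := mul_le_mul (aa_le P Q c) (aa_le P Q c') (aa_nonneg P Q c')
      (mul_nonneg (by linarith) (pow_pos P.y0 _).le)
    have h2 : y ^ (min c (Q - 1) + min c' (Q - 1)) ≤ y ^ 7 :=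
      pow_le_pow_of_le_one P.y0.le P.y1.le (by omega)
    have h3 : μ * y ^ (min c (Q - 1)) * (μ * y ^ (min c' (Q - 1))) =
        μ ^ 2 * y ^ (min c (Q - 1) + min c' (Q - 1)) := by ring
    have h4 := mul_le_mul_of_nonneg_left h2 (sq_nonneg μ)
    have h5 := P.big
    linarith
  · have h1 := P.small Q (min c (Q - 1)) hQ (by omega) (by omega) (by omega)
    have h2 : y ^ (min c' (Q - 1)) ≤ y ^ (Q - min c (Q - 1)) :=
      pow_le_pow_of_le_one P.y0.le P.y1.le (by omega)
    have h3 : aa y μ Q c' ≤ y ^ Q + μ * (y ^ (Q - min c (Q - 1)) - y ^ Q) := by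
      unfold aa
      nlinarith
    exact (mul_le_mul_of_nonneg_left h3 (aa_nonneg P Q c)).trans h1

lemma geom (y : ℝ) (c : ℕ) : ∀ Q, c ≤ Q → (1 - y) * ∑ b ∈ Ico c Q, y ^ b = y ^ c - y ^ Q := by
  intro Q hQ
  induction Q, hQ using Nat.le_induction with
  | base => simp
  | succ Q hQ ih => rw [sum_Ico_succ_top hQ, mul_add, ih]; ring

lemma letter (P : Pot κ y μ h) {Q : ℕ} (hQ : 1 ≤ Q) (c s : ℕ) (hs : s < κ) :
    ∑ b ∈ Icc c Q, y ^ b * h (if b = Q then 0 else s + 1) ≤ aa y μ Q c * h s := by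
  set c' := min c (Q - 1) with hc'
  have hsub : Icc c Q ⊆ insert Q (Ico c' Q) := by
    intro b hb
    simp only [mem_Icc, mem_insert, mem_Ico] at hb ⊢
    omega
  have h1 := sum_le_sum_of_subset_of_nonneg hsub
    (f := fun b => y ^ b * h (if b = Q then 0 else s + 1))
    (fun b _ _ => mul_nonneg (pow_pos P.y0 b).le (P.hnn _))
  refine h1.trans ?_
  rw [sum_insert (by simp), if_pos rfl, P.h0, mul_one]
  have h2 : ∑ b ∈ Ico c' Q, y ^ b * h (if b = Q then 0 else s + 1) =
      (∑ b ∈ Ico c' Q, y ^ b) * h (s + 1) := by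
    rw [sum_mul]
    refine sum_congr rfl fun b hb => ?_
    rw [if_neg (by have := (mem_Ico.1 hb).2; omega)]
  have h3 : y ^ (Q - 1) ≤ ∑ b ∈ Ico c' Q, y ^ b :=
    single_le_sum (f := fun b => y ^ b) (fun b _ => (pow_pos P.y0 b).le)
      (mem_Ico.2 ⟨by omega, by omega⟩)
  have h4 : y ^ Q = y * y ^ (Q - 1) := by
    rw [← pow_succ']; congr 1; omega
  have h5 := P.step s hs (y ^ Q) (∑ b ∈ Ico c' Q, y ^ b) (pow_pos P.y0 Q).le
    (by rw [h4]; exact mul_le_mul_of_nonneg_left h3 P.y0.le)
  rw [h2]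
  refine h5.trans (le_of_eq ?_)
  rw [mul_assoc μ, geom y c' Q (by omega)]
  rfl

/-- The weight of a family of sparse words in a box. -/
lemma box (P : Pot κ y μ h) {Q : ℕ} (hQ : 1 ≤ Q) (c : ℕ → ℕ) :
    ∀ (n : ℕ) (W : Finset (ℕ → ℕ)),
      (∀ w ∈ W, (∀ i, n ≤ i → w i = 0) ∧ (∀ i < n, c i ≤ w i ∧ w i ≤ Q) ∧
        ∀ i ≤ n, st Q w i < κ) →
      ∑ w ∈ W, y ^ (∑ i ∈ range n, w i) * h (st Q w n) ≤ ∏ i ∈ range n, aa y μ Q (c i) := by
  classical
  intro n
  induction n with
  | zero =>
    intro W hW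
    have hc : W.card ≤ 1 := card_le_one.2 fun a ha b hb => by
      funext i
      rw [(hW a ha).1 i (Nat.zero_le i), (hW b hb).1 i (Nat.zero_le i)]
    simp only [range_zero, sum_empty, pow_zero, st, P.h0, mul_one, sum_const, nsmul_eq_mul,
      prod_empty]
    exact_mod_cast hc
  | succ n ih =>
    intro W hW
    let φ : (ℕ → ℕ) → (ℕ → ℕ) × ℕ := fun w => (Function.update w n 0, w n)
    let W' := W.image fun w => Function.update w n 0
    let Fn : (ℕ → ℕ) × ℕ → ℝ := fun p =>
      y ^ (∑ i ∈ range n, p.1 i) * (y ^ p.2 * h (if p.2 = Q then 0 else st Q p.1 n + 1))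
    have hup : ∀ w : ℕ → ℕ, ∀ j < n, Function.update w n 0 j = w j := fun w j hj =>
      Function.update_of_ne (by omega) _ _
    have hW' : ∀ w ∈ W', (∀ i, n ≤ i → w i = 0) ∧ (∀ i < n, c i ≤ w i ∧ w i ≤ Q) ∧
        ∀ i ≤ n, st Q w i < κ := by
      intro w' hw'
      obtain ⟨w, hw, rfl⟩ := mem_image.1 hw'
      obtain ⟨h1, h2, h3⟩ := hW w hw
      refine ⟨fun i hi => ?_, fun i hi => ?_, fun i hi => ?_⟩
      · by_cases e : i = n
        · rw [e, Function.update_self]
        · rw [Function.update_of_ne e]; exact h1 i (by omega)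
      · rw [hup w i hi]; exact h2 i (by omega)
      · rw [st_congr Q _ w i fun j hj => hup w j (by omega)]; exact h3 i (by omega)
    have hφ : Set.InjOn φ W := by
      intro a _ b _ e
      have e1 : Function.update a n 0 = Function.update b n 0 := congrArg Prod.fst e
      have e2 : a n = b n := congrArg Prod.snd e
      funext i
      by_cases hi : i = n
      · rw [hi, e2]
      · have := congrFun e1 i
        rwa [Function.update_of_ne hi, Function.update_of_ne hi] at this
    have e1 : ∑ w ∈ W, y ^ (∑ i ∈ range (n + 1), w i) * h (st Q w (n + 1)) =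
        ∑ p ∈ W.image φ, Fn p := by
      rw [sum_image hφ]
      refine sum_congr rfl fun w _ => ?_
      simp only [Fn, φ, st]
      rw [sum_range_succ, pow_add, mul_assoc,
        st_congr Q (Function.update w n 0) w n fun j hj => hup w j hj,
        sum_congr rfl fun j hj => hup w j (mem_range.1 hj)]
    have e2 : W.image φ ⊆ W' ×ˢ Icc (c n) Q := by
      intro p hp
      obtain ⟨w, hw, rfl⟩ := mem_image.1 hp
      exact mem_product.2 ⟨mem_image_of_mem _ hw,
        mem_Icc.2 ((hW w hw).2.1 n (Nat.lt_succ_self n))⟩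
    have e3 := sum_le_sum_of_subset_of_nonneg e2 (f := Fn) fun p _ _ =>
      mul_nonneg (pow_pos P.y0 _).le (mul_nonneg (pow_pos P.y0 _).le (P.hnn _))
    rw [e1, prod_range_succ]
    refine e3.trans ?_
    rw [sum_product]
    have e4 : ∀ w ∈ W', ∑ b ∈ Icc (c n) Q, Fn (w, b) ≤
        y ^ (∑ i ∈ range n, w i) * h (st Q w n) * aa y μ Q (c n) := by
      intro w hw
      simp only [Fn]
      rw [← mul_sum, mul_assoc, mul_comm (h _)]
      exact mul_le_mul_of_nonneg_left (letter P hQ (c n) _ ((hW' w hw).2.2 n le_rfl))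
        (pow_pos P.y0 _).le
    refine (sum_le_sum e4).trans ?_
    rw [← sum_mul]
    exact mul_le_mul_of_nonneg_right (ih W' hW') (aa_nonneg P Q _)

lemma prod_le_pow (P : Pot κ y μ h) (Q : ℕ) (c : ℕ → ℕ) (s : Finset ℕ) :
    ∏ i ∈ s, aa y μ Q (c i) ≤ 3 ^ s.card := by
  have := prod_le_prod (s := s) (f := fun i => aa y μ Q (c i)) (g := fun _ => (3 : ℝ))
    (fun i _ => aa_nonneg P Q _) (fun i _ => aa_le_three P Q _)
  rwa [prod_const] at this

/-- A box almost compatible with one reflection has a small product. -/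
lemma prod_refl (P : Pot κ y μ h) {Q : ℕ} (hQ : 3 ≤ Q) (c : ℕ → ℕ) (n e M r : ℕ)
    (hr : (99 / 100 : ℝ) ^ r * 3 ≤ 1) (he1 : 1 ≤ e) (heM : e ≤ M) (hen : e ≤ n)
    (hc : ∀ i < n, 1 ≤ c i)
    (hb : ((range n).filter fun v => v + e ≤ n ∧ c v + c (n - e - v) < Q).card * (r + 1) ≤ n) :
    ∏ i ∈ range n, aa y μ Q (c i) ≤ 4 ^ M := by
  classical
  set n' := n - e + 1 with hn'
  set B := (range n').filter fun v => c v + c (n' - 1 - v) < Q with hB
  set N := (range n').filter fun v => ¬ (c v + c (n' - 1 - v) < Q) with hN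
  have hBc : B.card * (r + 1) ≤ n := by
    refine le_trans (Nat.mul_le_mul_right _ (card_le_card fun v hv => ?_)) hb
    simp only [hB, mem_filter, mem_range] at hv ⊢
    have : n' - 1 - v = n - e - v := by omega
    rw [this] at hv
    exact ⟨by omega, by omega, hv.2⟩
  have hBN : B.card + N.card = n' := by
    rw [hB, hN, card_filter_add_card_filter_not, card_range]
  have h1 : (∏ i ∈ range n', aa y μ Q (c i)) ^ 2 ≤ (3 ^ B.card * (99 / 100) ^ N.card) ^ 2 := by
    rw [sq]
    nth_rewrite 2 [← prod_range_reflect]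
    rw [← prod_mul_distrib, ← prod_filter_mul_prod_filter_not (range n')
      fun v => c v + c (n' - 1 - v) < Q, mul_pow]
    refine mul_le_mul ?_ ?_ (prod_nonneg fun i _ =>
      mul_nonneg (aa_nonneg P Q _) (aa_nonneg P Q _)) (by positivity)
    · rw [prod_mul_distrib, sq]
      exact mul_le_mul (prod_le_pow P Q c B) (prod_le_pow P Q (fun v => c (n' - 1 - v)) B)
        (prod_nonneg fun i _ => aa_nonneg P Q _) (by positivity)
    · have := prod_le_prod (s := N) (f := fun i => aa y μ Q (c i) * aa y μ Q (c (n' - 1 - i)))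
        (g := fun _ => ((99 / 100 : ℝ)) ^ 2)
        (fun i _ => mul_nonneg (aa_nonneg P Q _) (aa_nonneg P Q _)) (fun i hi => by
          simp only [hN, mem_filter, mem_range] at hi
          exact aa_pair P hQ (hc _ (by omega)) (hc _ (by omega)) (by omega))
      rwa [prod_const, ← pow_mul, mul_comm 2, pow_mul] at this
  have h2 : ∏ i ∈ range n', aa y μ Q (c i) ≤ 3 ^ B.card * (99 / 100) ^ N.card :=
    (pow_le_pow_iff_left₀ (prod_nonneg fun i _ => aa_nonneg P Q _) (by positivity)
      two_ne_zero).1 h1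
  have h3 : (3 : ℝ) ^ B.card * (99 / 100) ^ N.card * (99 / 100) ^ M ≤ 1 := by
    have k1 : r * B.card ≤ N.card + M := by
      have : B.card * (r + 1) = r * B.card + B.card := by ring
      omega
    have k2 : ((99 : ℝ) / 100) ^ (N.card + M) ≤ (99 / 100) ^ (r * B.card) :=
      pow_le_pow_of_le_one (by norm_num) (by norm_num) k1
    have k3 : (((99 : ℝ) / 100) ^ r * 3) ^ B.card ≤ 1 := pow_le_one₀ (by positivity) hr
    rw [mul_pow, ← pow_mul] at k3
    rw [mul_assoc, ← pow_add]
    nlinarith [pow_pos (show (0 : ℝ) < 3 by norm_num) B.card]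
  have h4 : ∏ i ∈ Ico n' n, aa y μ Q (c i) ≤ 3 ^ M := by
    refine (prod_le_pow P Q c _).trans (pow_le_pow_right₀ (by norm_num) ?_)
    rw [Nat.card_Ico]; omega
  rw [← prod_range_mul_prod_Ico _ (show n' ≤ n by omega)]
  have h5 := mul_le_mul h2 h4 (prod_nonneg fun i _ => aa_nonneg P Q _) (by positivity)
  refine h5.trans ?_
  have h6 : (3 : ℝ) ^ M ≤ (99 / 100) ^ M * 4 ^ M := by
    rw [← mul_pow]
    exact pow_le_pow_left₀ (by norm_num) (by norm_num) M
  have h7 : (0 : ℝ) ≤ 3 ^ B.card * (99 / 100) ^ N.card := by positivity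
  have h8 : (0 : ℝ) ≤ 4 ^ M := by positivity
  nlinarith [mul_le_mul_of_nonneg_left h6 h7, mul_le_mul_of_nonneg_right h3 h8]

/-- Words allowed in a segment. -/
structure Ok (κ Q n : ℕ) (E : Finset ℕ) (w : ℕ → ℕ) : Prop where
  zero : ∀ i, n ≤ i → w i = 0
  le : ∀ i < n, 1 ≤ w i ∧ w i ≤ Q
  run : ∀ i ≤ n, st Q w i < κ
  pair : ∀ e ∈ E, ∀ i j, i + j + e = n → Q ≤ w i + w j

/-- The container recursion. -/
lemma seg_aux (P : Pot κ y μ h) {x : ℝ} (hx : 0 < x) (hxy : x * (501 / 500) = y)
    {Q n M D r : ℕ} (E : Finset ℕ) (hQ : 2 ≤ Q) (hQ' : 3 ≤ Q ∨ n ≤ M)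
    (hD : (501 : ℝ) ≤ (501 / 500) ^ D) (hD1 : 1 ≤ D) (hr : (99 / 100 : ℝ) ^ r * 3 ≤ 1)
    (hE : ∀ e ∈ E, 1 ≤ e ∧ e ≤ M) (hEc : (r + 1) * D ≤ E.card) :
    ∀ (k : ℕ) (c : ℕ → ℕ) (V : Finset (ℕ → ℕ)), Q * n + 1 ≤ ∑ i ∈ range n, c i + k →
      (∀ i < n, 1 ≤ c i) → (∀ w ∈ V, Ok κ Q n E w ∧ ∀ i < n, c i ≤ w i) →
      (∑ w ∈ V, x ^ (∑ i ∈ range n, w i)) * (501 / 500) ^ (∑ i ∈ range n, c i) ≤ 3 * 4 ^ M := by
  classical
  intro k
  induction k with
  | zero =>
    intro c V hk _ hV
    have : V = ∅ := by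
      refine eq_empty_of_forall_notMem fun w hw => ?_
      have h1 : ∑ i ∈ range n, c i ≤ ∑ _i ∈ range n, Q := sum_le_sum fun i hi =>
        ((hV w hw).2 i (mem_range.1 hi)).trans ((hV w hw).1.le i (mem_range.1 hi)).2
      rw [sum_const, card_range, smul_eq_mul, mul_comm] at h1
      omega
    rw [this, sum_empty, zero_mul]
    positivity
  | succ k ih =>
    intro c V hk hc hV
    by_cases hbad : ∃ v < n, D ≤ (E.filter fun e => v + e ≤ n ∧ c v + c (n - e - v) < Q).card
    · obtain ⟨v, hv, hvD⟩ := hbad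
      set N := (E.filter fun e => v + e ≤ n ∧ c v + c (n - e - v) < Q).image
        fun e => n - e - v with hN
      have hNc : D ≤ N.card := by
        rw [hN, card_image_of_injOn]
        · exact hvD
        · intro a ha b hb e
          have h1 := (mem_filter.1 ha).2.1
          have h2 := (mem_filter.1 hb).2.1
          simp only at e
          omega
      have hNs : N ⊆ range n := by
        intro j hj
        obtain ⟨e, he, rfl⟩ := mem_image.1 hj
        have h1 := (hE e (mem_filter.1 he).1).1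
        rw [mem_range]; omega
      have hsum : ∀ T : Finset ℕ, T ⊆ range n →
          ∑ i ∈ range n, (c i + if i ∈ T then 1 else 0) = ∑ i ∈ range n, c i + T.card := by
        intro T hT
        rw [sum_add_distrib, sum_ite_mem, inter_eq_right.2 hT, sum_const, smul_eq_mul, mul_one]
      have hv' : ({v} : Finset ℕ) ⊆ range n := by simpa using hv
      have i1 := ih (fun i => c i + if i ∈ N then 1 else 0) (V.filter fun w => w v = c v)
        (by rw [hsum N hNs]; omega) (fun i hi => (hc i hi).trans (Nat.le_add_right _ _))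
        (fun w hw => by
          obtain ⟨hw, hwv⟩ := mem_filter.1 hw
          refine ⟨(hV w hw).1, fun i hi => ?_⟩
          split_ifs with hi'
          · obtain ⟨e, he, rfl⟩ := mem_image.1 hi'
            obtain ⟨he, h1, h2⟩ := mem_filter.1 he
            have := (hV w hw).1.pair e he v (n - e - v) (by omega)
            omega
          · exact (hV w hw).2 i hi)
      have i2 := ih (fun i => c i + if i ∈ ({v} : Finset ℕ) then 1 else 0)
        (V.filter fun w => ¬ w v = c v)
        (by rw [hsum _ hv', card_singleton]; omega)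
        (fun i hi => (hc i hi).trans (Nat.le_add_right _ _))
        (fun w hw => by
          obtain ⟨hw, hwv⟩ := mem_filter.1 hw
          refine ⟨(hV w hw).1, fun i hi => ?_⟩
          split_ifs with hi'
          · rw [mem_singleton] at hi'
            have := (hV w hw).2 i hi
            rw [hi'] at this ⊢
            omega
          · exact (hV w hw).2 i hi)
      rw [hsum N hNs, pow_add, ← mul_assoc] at i1
      rw [hsum _ hv', card_singleton, pow_add, ← mul_assoc, pow_one] at i2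
      rw [← sum_filter_add_sum_filter_not V fun w => w v = c v, add_mul]
      have k1 : (501 : ℝ) ≤ (501 / 500) ^ N.card :=
        hD.trans (pow_le_pow_right₀ (by norm_num) hNc)
      have k2 : 0 ≤ (∑ w ∈ V.filter fun w => w v = c v, x ^ (∑ i ∈ range n, w i)) *
          (501 / 500 : ℝ) ^ (∑ i ∈ range n, c i) :=
        mul_nonneg (sum_nonneg fun w _ => (pow_pos hx _).le) (by positivity)
      nlinarith [mul_le_mul_of_nonneg_left k1 k2]
    · have hp : ∏ i ∈ range n, aa y μ Q (c i) ≤ 4 ^ M := by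
        have short : n ≤ M → ∏ i ∈ range n, aa y μ Q (c i) ≤ 4 ^ M := fun hn => by
          refine (prod_le_pow P Q c _).trans ?_
          rw [card_range]
          exact (pow_le_pow_left₀ (by norm_num) (by norm_num) n).trans
            (pow_le_pow_right₀ (by norm_num) hn)
        by_cases hn : n ≤ M
        · exact short hn
        have hQ3 : 3 ≤ Q := hQ'.resolve_right hn
        have hne : E.Nonempty := by
          rw [← card_pos]
          exact lt_of_lt_of_le (Nat.mul_pos (Nat.succ_pos r) hD1) hEc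
        have hs : ∑ e ∈ E, ((range n).filter fun v =>
            v + e ≤ n ∧ c v + c (n - e - v) < Q).card ≤ n * D := by
          have : ∑ e ∈ E, ((range n).filter fun v => v + e ≤ n ∧ c v + c (n - e - v) < Q).card =
              ∑ v ∈ range n, (E.filter fun e => v + e ≤ n ∧ c v + c (n - e - v) < Q).card := by
            simp only [card_filter]
            exact sum_comm
          rw [this]
          have h1 := sum_le_sum (s := range n) (g := fun _ => D) (f := fun v =>
            (E.filter fun e => v + e ≤ n ∧ c v + c (n - e - v) < Q).card) fun v hv => by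
              by_contra hlt
              exact hbad ⟨v, mem_range.1 hv, by omega⟩
          rwa [sum_const, card_range, smul_eq_mul] at h1
        obtain ⟨e, he, hle⟩ := exists_le_of_sum_le hne (f := fun e => ((range n).filter fun v =>
            v + e ≤ n ∧ c v + c (n - e - v) < Q).card * (r + 1)) (g := fun _ => n) (by
          rw [← sum_mul, sum_const, smul_eq_mul]
          calc _ ≤ n * D * (r + 1) := Nat.mul_le_mul_right _ hs
            _ = (r + 1) * D * n := by ring
            _ ≤ _ := Nat.mul_le_mul_right _ hEc)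
        exact prod_refl P hQ3 c n e M r hr (hE e he).1 (hE e he).2
          (by have := (hE e he).2; omega) hc hle
      have hb := box P (show 1 ≤ Q by omega) c n V fun w hw =>
        ⟨(hV w hw).1.zero, fun i hi => ⟨(hV w hw).2 i hi, ((hV w hw).1.le i hi).2⟩,
          (hV w hw).1.run⟩
      rw [sum_mul]
      have h1 : ∀ w ∈ V, x ^ (∑ i ∈ range n, w i) * (501 / 500 : ℝ) ^ (∑ i ∈ range n, c i) ≤
          3 * (y ^ (∑ i ∈ range n, w i) * h (st Q w n)) := by
        intro w hw
        have k1 : ∑ i ∈ range n, c i ≤ ∑ i ∈ range n, w i :=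
          sum_le_sum fun i hi => (hV w hw).2 i (mem_range.1 hi)
        have k2 : (501 / 500 : ℝ) ^ (∑ i ∈ range n, c i) ≤
            (501 / 500) ^ (∑ i ∈ range n, w i) := pow_le_pow_right₀ (by norm_num) k1
        have k3 := mul_le_mul_of_nonneg_left k2 (pow_pos hx (∑ i ∈ range n, w i)).le
        rw [← mul_pow, hxy] at k3
        have k4 := P.hlow _ ((hV w hw).1.run n le_rfl)
        have k5 := pow_pos P.y0 (∑ i ∈ range n, w i)
        nlinarith
      refine (sum_le_sum h1).trans ?_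
      rw [← mul_sum]
      linarith

/-- The weighted count of the words allowed in a segment. -/
lemma seg (P : Pot κ y μ h) {x : ℝ} (hx : 0 < x) (hxy : x * (501 / 500) = y)
    {Q n M D r : ℕ} (E : Finset ℕ) (hQ : 2 ≤ Q) (hQ' : 3 ≤ Q ∨ n ≤ M)
    (hD : (501 : ℝ) ≤ (501 / 500) ^ D) (hD1 : 1 ≤ D) (hr : (99 / 100 : ℝ) ^ r * 3 ≤ 1)
    (hE : ∀ e ∈ E, 1 ≤ e ∧ e ≤ M) (hEc : (r + 1) * D ≤ E.card)
    (V : Finset (ℕ → ℕ)) (hV : ∀ w ∈ V, Ok κ Q n E w) :
    ∑ w ∈ V, x ^ (∑ i ∈ range n, w i) ≤ 3 * 4 ^ M := by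
  have h1 := seg_aux P hx hxy E hQ hQ' hD hD1 hr hE hEc (Q * n + 1) (fun _ => 1) V (by omega)
    (fun _ _ => le_rfl) fun w hw => ⟨hV w hw, fun i hi => ((hV w hw).le i hi).1⟩
  have h2 : (1 : ℝ) ≤ (501 / 500) ^ (∑ _i ∈ range n, 1) := one_le_pow₀ (by norm_num)
  have h3 : 0 ≤ ∑ w ∈ V, x ^ (∑ i ∈ range n, w i) := sum_nonneg fun w _ => (pow_pos hx _).le
  nlinarith

lemma pot_two : Pot 2 (19 / 25) (12 / 5)
    fun s => if s = 0 then 1 else if s = 1 then 72 / 125 else 0 where
  y0 := by norm_num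
  y1 := by norm_num
  m1 := by norm_num
  m3 := by norm_num
  h0 := by simp
  hnn := fun s => by split_ifs <;> norm_num
  hlow := fun s hs => by interval_cases s <;> norm_num
  step := fun s hs t B h1 h2 => by interval_cases s <;> norm_num <;> linarith
  big := by norm_num
  small := fun Q c h1 h2 h3 h4 => by interval_cases Q <;> interval_cases c <;> norm_num

lemma pot_three : Pot 3 (69 / 100) (13 / 5)
    fun s => if s = 0 then 1 else if s = 1 then 403 / 500 else if s = 2 then 1 / 2 else 0 where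
  y0 := by norm_num
  y1 := by norm_num
  m1 := by norm_num
  m3 := by norm_num
  h0 := by simp
  hnn := fun s => by split_ifs <;> norm_num
  hlow := fun s hs => by interval_cases s <;> norm_num
  step := fun s hs t B h1 h2 => by interval_cases s <;> norm_num <;> linarith
  big := by norm_num
  small := fun Q c h1 h2 h3 h4 => by interval_cases Q <;> interval_cases c <;> norm_num

lemma pot_large (κ : ℕ) : Pot κ (82 / 125) (125 / 43) fun _ => 1 where
  y0 := by norm_num
  y1 := by norm_num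
  m1 := by norm_num
  m3 := by norm_num
  h0 := rfl
  hnn := fun _ => by norm_num
  hlow := fun _ _ => by norm_num
  step := fun s hs t B h1 h2 => by norm_num
  big := by norm_num
  small := fun Q c h1 h2 h3 h4 => by interval_cases Q <;> interval_cases c <;> norm_num

end Pool.Agent.MP_0bb195_co.Seg
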