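import Mathlib.Combinatorics.Enumerative.DoubleCounting
import Pool.Agent.MP_0bb195_co.Seg

/-!
Pure `κ`-sparse gapsets: definitions, an explicit injection defined away from the gapsets with
`F + 2κ > 3m`, and the family of gapsets with `F = 2m - 1` that the injection misses.
-/

namespace Pool.Agent.MP_0bb195_co

open Finset

/-- A gapset: a finite set of positive integers such that every way of writing an element as a
sum of two positive integers uses an element of the set. -/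
def IsGapset (G : Finset ℕ) : Prop :=
  0 ∉ G ∧ ∀ z ∈ G, ∀ x y : ℕ, 0 < x → 0 < y → z = x + y → x ∈ G ∨ y ∈ G

/-- `a < b` are consecutive elements of `G`. -/
def Consec (G : Finset ℕ) (a b : ℕ) : Prop :=
  a ∈ G ∧ b ∈ G ∧ a < b ∧ ∀ c ∈ G, ¬ (a < c ∧ c < b)

/-- The largest difference of consecutive elements of `G` is exactly `κ`. -/
def MaxDiff (κ : ℕ) (G : Finset ℕ) : Prop :=
  (∀ a b, Consec G a b → b - a ≤ κ) ∧ ∃ a b, Consec G a b ∧ b - a = κ

/-- The pure `κ`-sparse gapsets of genus `g`, with the conventions for `∅` and `{1}`. -/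
def pureSparse (κ g : ℕ) : Set (Finset ℕ) :=
  {G | IsGapset G ∧ G.card = g ∧ (MaxDiff κ G ∨ (G = ∅ ∧ κ = 0) ∨ (G = {1} ∧ κ = 1))}

namespace Gap

/-- `m` is the least positive integer outside `G`. -/
def IsMult (G : Finset ℕ) (m : ℕ) : Prop := 0 < m ∧ m ∉ G ∧ ∀ x, 0 < x → x < m → x ∈ G

/-- `F` is the largest element of `G`. -/
def IsTop (G : Finset ℕ) (F : ℕ) : Prop := F ∈ G ∧ ∀ x ∈ G, x ≤ F

/-- Gapsets of genus `g` whose largest difference is `κ`. -/
def Mem (κ g : ℕ) (G : Finset ℕ) : Prop := IsGapset G ∧ G.card = g ∧ MaxDiff κ G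

variable {G H : Finset ℕ} {m F κ g : ℕ}

lemma mult_unique {a b : ℕ} (ha : IsMult G a) (hb : IsMult G b) : a = b := by
  by_contra hne
  rcases Nat.lt_or_gt_of_ne hne with h | h
  · exact ha.2.1 (hb.2.2 a ha.1 h)
  · exact hb.2.1 (ha.2.2 b hb.1 h)

lemma top_unique {a b : ℕ} (ha : IsTop G a) (hb : IsTop G b) : a = b :=
  le_antisymm (hb.2 a ha.1) (ha.2 b hb.1)

lemma exists_mult (G : Finset ℕ) : ∃ m, IsMult G m := by
  classical
  have h : ∃ m, 0 < m ∧ m ∉ G := ⟨G.sup id + 1, Nat.succ_pos _, fun hm => by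
    have := le_sup (f := id) hm
    simp only [id] at this
    omega⟩
  refine ⟨Nat.find h, (Nat.find_spec h).1, (Nat.find_spec h).2, fun x hx hlt => ?_⟩
  by_contra hx'
  exact Nat.find_min h hlt ⟨hx, hx'⟩

lemma exists_top (h : G.Nonempty) : ∃ F, IsTop G F :=
  ⟨G.max' h, max'_mem G h, fun x hx => le_max' G x hx⟩

lemma add_notMem (hG : IsGapset G) {x y : ℕ} (hx : x ∉ G) (hy : y ∉ G) : x + y ∉ G := by
  intro h
  rcases Nat.eq_zero_or_pos x with rfl | hx0
  · exact hy (by simpa using h)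
  rcases Nat.eq_zero_or_pos y with rfl | hy0
  · exact hx h
  exact (hG.2 _ h x y hx0 hy0 rfl).elim hx hy

lemma add_mul_notMem (hG : IsGapset G) (hm : m ∉ G) {x : ℕ} (hx : x ∉ G) (j : ℕ) :
    x + m * j ∉ G := by
  induction j with
  | zero => simpa using hx
  | succ j ih => rw [Nat.mul_succ, ← add_assoc]; exact add_notMem hG ih hm

lemma exists_consec {a : ℕ} (ha : a ∈ G) (hF : F ∈ G) (h : a < F) : ∃ b, Consec G a b := by
  classical
  have hex : ∃ b, b ∈ G ∧ a < b := ⟨F, hF, h⟩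
  refine ⟨Nat.find hex, ha, (Nat.find_spec hex).1, (Nat.find_spec hex).2, fun c hc hh => ?_⟩
  exact Nat.find_min hex hh.2 ⟨hc, hh.1⟩

lemma consec_right {a b b' : ℕ} (h : Consec G a b) (h' : Consec G a b') : b = b' := by
  have h1 := h.2.2.2 b' h'.2.1
  have h2 := h'.2.2.2 b h.2.1
  have h3 := h.2.2.1
  have h4 := h'.2.2.1
  omega

lemma consec_left {a a' b : ℕ} (h : Consec G a b) (h' : Consec G a' b) : a = a' := by
  have h1 := h.2.2.2 a' h'.1
  have h2 := h'.2.2.2 a h.1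
  have h3 := h.2.2.1
  have h4 := h'.2.2.1
  omega

lemma one_mem (hG : IsGapset G) (hF : F ∈ G) : 1 ∈ G := by
  by_contra h1
  have := add_mul_notMem hG h1 hG.1 F
  exact this (by simpa using hF)

/-- Every window of `κ` consecutive positive integers below `F` meets `G`. -/
lemma window (hG : IsGapset G) (hs : ∀ a b, Consec G a b → b - a ≤ κ) (hF : F ∈ G) {y : ℕ}
    (hκ : 1 ≤ κ) (hy : 0 < y) (hyF : y ≤ F) : ∃ z ∈ G, y ≤ z ∧ z < y + κ := by
  classical
  by_cases hyG : y ∈ G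
  · exact ⟨y, hyG, le_rfl, by omega⟩
  have h1 := one_mem hG hF
  have hne : (G.filter (· < y)).Nonempty := ⟨1, mem_filter.2 ⟨h1, by
    by_contra hlt
    exact hyG (by rwa [show y = 1 by omega])⟩⟩
  obtain ⟨a, ha, hmax⟩ := exists_top hne
  obtain ⟨ha1, ha2⟩ := mem_filter.1 ha
  obtain ⟨b, hb⟩ := exists_consec ha1 hF (by omega)
  have h2 := hs a b hb
  have h3 := hb.2.2.1
  refine ⟨b, hb.2.1, ?_, by omega⟩
  by_contra hlt
  have := hmax b (mem_filter.2 ⟨hb.2.1, by omega⟩)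
  omega

lemma lt_of_mem (hG : IsGapset G) {z : ℕ} (hz : z ∈ G) : z < 2 * G.card + 2 := by
  classical
  have h := card_le_card_of_injOn (s := Icc 1 (z / 2)) (t := G)
    (fun x => if x ∈ G then x else z - x) (fun x hx => by
      have hx' := mem_Icc.1 (mem_coe.1 hx)
      simp only [mem_coe]
      split_ifs with h
      · exact h
      · exact (hG.2 z hz x (z - x) (by omega) (by omega) (by omega)).resolve_left h)
    (fun a ha b hb e => by
      have ha' := mem_Icc.1 (mem_coe.1 ha)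
      have hb' := mem_Icc.1 (mem_coe.1 hb)
      simp only at e
      split_ifs at e <;> omega)
  rw [Nat.card_Icc] at h
  omega

lemma finite_mem (κ g : ℕ) : {G | Mem κ g G}.Finite := by
  refine ((range (2 * g + 2)).powerset.finite_toSet).subset fun G hG => ?_
  simp only [coe_powerset, Set.mem_preimage, Set.mem_powerset_iff, coe_subset]
  intro z hz
  rw [mem_range, ← hG.2.1]
  exact lt_of_mem hG.1 hz

lemma gapset_of_lt (h0 : 0 ∉ G) (hm : ∀ x, 0 < x → x < m → x ∈ G) (hlt : ∀ x ∈ G, x < 2 * m) :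
    IsGapset G := by
  refine ⟨h0, fun z hz x y hx hy e => ?_⟩
  have := hlt z hz
  by_cases h : x < m
  · exact Or.inl (hm x hx h)
  · exact Or.inr (hm y hy (by omega))

/-- Shift by one below `p` and by two from `p` on. -/
def sh (p x : ℕ) : ℕ := if x < p then x + 1 else x + 2

lemma sh_lt {p a b : ℕ} : sh p a < sh p b ↔ a < b := by
  unfold sh; split_ifs <;> omega

lemma sh_inj (p : ℕ) : Function.Injective (sh p) := by
  intro a b e
  unfold sh at e; split_ifs at e <;> omega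

/-- Insert a new residue class that contains only one gap. -/
def ins (p : ℕ) (G : Finset ℕ) : Finset ℕ := insert 1 (G.image (sh p))

lemma mem_ins {p z : ℕ} : z ∈ ins p G ↔ z = 1 ∨ ∃ x ∈ G, sh p x = z := by
  simp only [ins, mem_insert, mem_image]

lemma sh_mem_ins {p x : ℕ} (hx : 0 < x) : sh p x ∈ ins p G ↔ x ∈ G := by
  rw [mem_ins]
  constructor
  · rintro (h | ⟨x', hx', e⟩)
    · unfold sh at h; split_ifs at h <;> omega
    · rwa [← sh_inj p e]
  · exact fun h => Or.inr ⟨x, h, rfl⟩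

lemma ins_inj {p : ℕ} (h0 : 0 ∉ G) (h0' : 0 ∉ H) (e : ins p G = ins p H) : G = H := by
  ext x
  rcases Nat.eq_zero_or_pos x with rfl | hx
  · exact ⟨fun h => absurd h h0, fun h => absurd h h0'⟩
  · rw [← sh_mem_ins hx (p := p) (G := G), ← sh_mem_ins hx (p := p) (G := H), e]

lemma succ_notMem_ins {p : ℕ} (hp : 0 < p) : p + 1 ∉ ins p G := by
  rw [mem_ins]
  rintro (h | ⟨x, -, e⟩)
  · omega
  · unfold sh at e; split_ifs at e <;> omega

lemma card_ins (h0 : 0 ∉ G) (p : ℕ) : (ins p G).card = G.card + 1 := by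
  rw [ins, card_insert_of_notMem, card_image_of_injective _ (sh_inj p)]
  intro h
  obtain ⟨x, hx, e⟩ := mem_image.1 h
  have : x ≠ 0 := fun h => h0 (h ▸ hx)
  unfold sh at e; split_ifs at e <;> omega

lemma mult_ins (hm : IsMult G m) {p : ℕ} (hp : m ≤ p) :
    IsMult (ins p G) (m + 1) := by
  have h1 := hm.1
  refine ⟨by omega, ?_, fun x hx hlt => ?_⟩
  · rw [mem_ins]
    rintro (h | ⟨x, hx, e⟩)
    · omega
    · have : x ≠ m := fun h => hm.2.1 (h ▸ hx)
      unfold sh at e; split_ifs at e <;> omega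
  · by_cases h : x = 1
    · exact mem_ins.2 (Or.inl h)
    · refine mem_ins.2 (Or.inr ⟨x - 1, hm.2.2 _ (by omega) (by omega), ?_⟩)
      unfold sh; split_ifs <;> omega

lemma top_ins (hF : IsTop G F) (p : ℕ) : IsTop (ins p G) (sh p F) := by
  refine ⟨mem_ins.2 (Or.inr ⟨F, hF.1, rfl⟩), fun z hz => ?_⟩
  rcases mem_ins.1 hz with h | ⟨x, hx, rfl⟩
  · unfold sh; split_ifs <;> omega
  · exact not_lt.1 fun h => absurd (sh_lt.1 h) (not_lt.2 (hF.2 x hx))

lemma gapset_ins (hG : IsGapset G) (hm : IsMult G m) (hF : IsTop G F) {p : ℕ} (h1 : m ≤ p)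
    (h2 : F < p + m) (h3 : p ≤ 2 * m + 1) : IsGapset (ins p G) := by
  have hm' := mult_ins hm h1
  have hm0 := hm.1
  refine ⟨fun h => ?_, fun z hz x y hx hy e => ?_⟩
  · rcases mem_ins.1 h with h | ⟨x, -, e⟩
    · omega
    · unfold sh at e; split_ifs at e
  by_contra hcon
  rw [not_or] at hcon
  have kx : m + 1 ≤ x := not_lt.1 fun h => hcon.1 (hm'.2.2 x hx h)
  have ky : m + 1 ≤ y := not_lt.1 fun h => hcon.2 (hm'.2.2 y hy h)
  rcases mem_ins.1 hz with h | ⟨w, hw, e'⟩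
  · omega
  have hwF := hF.2 w hw
  have hw2 : w + 2 = x + y := by unfold sh at e'; split_ifs at e' <;> omega
  have ex : sh p (x - 1) = x := by unfold sh; split_ifs <;> omega
  have ey : sh p (y - 1) = y := by unfold sh; split_ifs <;> omega
  rcases hG.2 w hw (x - 1) (y - 1) (by omega) (by omega) (by omega) with h | h
  · exact hcon.1 (mem_ins.2 (Or.inr ⟨_, h, ex⟩))
  · exact hcon.2 (mem_ins.2 (Or.inr ⟨_, h, ey⟩))

lemma consec_ins {p a b : ℕ} (h : Consec G a b) :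
    Consec (ins p G) (sh p a) (sh p b) := by
  refine ⟨mem_ins.2 (Or.inr ⟨a, h.1, rfl⟩), mem_ins.2 (Or.inr ⟨b, h.2.1, rfl⟩),
    sh_lt.2 h.2.2.1, fun c hc hh => ?_⟩
  rcases mem_ins.1 hc with e | ⟨x, hx, rfl⟩
  · have := hh.1
    unfold sh at this; split_ifs at this <;> omega
  · exact h.2.2.2 x hx ⟨sh_lt.1 hh.1, sh_lt.1 hh.2⟩

lemma of_consec_ins (h1 : 1 ∈ G) {p a' b' : ℕ} (hp : 2 ≤ p) (h : Consec (ins p G) a' b') :
    b' - a' ≤ 1 ∨ ∃ a b, Consec G a b ∧ a' = sh p a ∧ b' = sh p b := by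
  have hlt := h.2.2.1
  rcases mem_ins.1 h.1 with e | ⟨a, ha, rfl⟩
  · left
    have := h.2.2.2 2 (mem_ins.2 (Or.inr ⟨1, h1, by unfold sh; split_ifs <;> omega⟩))
    omega
  rcases mem_ins.1 h.2.1 with e | ⟨b, hb, rfl⟩
  · left; omega
  refine Or.inr ⟨a, b, ⟨ha, hb, sh_lt.1 hlt, fun c hc hh => ?_⟩, rfl, rfl⟩
  exact h.2.2.2 (sh p c) (mem_ins.2 (Or.inr ⟨c, hc, rfl⟩)) ⟨sh_lt.2 hh.1, sh_lt.2 hh.2⟩

lemma gapset_insert (hG : IsGapset G) (hm : IsMult G m) {p : ℕ} (h0 : 0 < p) (hp : p < 2 * m) :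
    IsGapset (insert p G) := by
  refine ⟨fun h => ?_, fun z hz x y hx hy e => ?_⟩
  · rcases mem_insert.1 h with h | h
    · omega
    · exact hG.1 h
  rcases mem_insert.1 hz with h | h
  · by_cases hxm : x < m
    · exact Or.inl (mem_insert_of_mem (hm.2.2 x hx hxm))
    · exact Or.inr (mem_insert_of_mem (hm.2.2 y hy (by omega)))
  · exact (hG.2 z h x y hx hy e).imp mem_insert_of_mem mem_insert_of_mem

/-- The shift of a gapset of depth at most two. -/
lemma shift_mem (hκ : 1 ≤ κ) (hG : Mem κ g G) (hm : IsMult G m) (hF : IsTop G F)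
    (h2 : F < 2 * m) :
    Mem κ (g + 1) (ins (F + 1) G) ∧ IsMult (ins (F + 1) G) (m + 1) ∧
      IsTop (ins (F + 1) G) (F + 1) := by
  have hmF : m ≤ F + 1 := by
    by_contra hlt
    have := hF.2 _ (hm.2.2 (F + 1) (by omega) (by omega))
    omega
  have hsh : ∀ x ∈ G, sh (F + 1) x = x + 1 := fun x hx => by
    have := hF.2 x hx
    unfold sh; split_ifs <;> omega
  have hF0 : F ≠ 0 := fun h => hG.1.1 (h ▸ hF.1)
  refine ⟨⟨gapset_ins hG.1 hm hF hmF (by have := hm.1; omega) (by omega),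
    by rw [card_ins hG.1.1, hG.2.1], fun a' b' h => ?_, ?_⟩, mult_ins hm hmF, ?_⟩
  · rcases of_consec_ins (one_mem hG.1 hF.1) (by omega) h with h | ⟨a, b, hab, rfl, rfl⟩
    · omega
    · have := hG.2.2.1 a b hab
      rw [hsh a hab.1, hsh b hab.2.1]; omega
  · obtain ⟨a, b, hab, e⟩ := hG.2.2.2
    refine ⟨_, _, consec_ins hab, ?_⟩
    rw [hsh a hab.1, hsh b hab.2.1]; omega
  · have := top_ins hF (F + 1)
    rwa [hsh F hF.1] at this

/-- The local move at a consecutive pair `a < b` with `F - m ≤ a` and `b < 2m`. -/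
lemma move (hG : IsGapset G) (hm : IsMult G m) (hF : IsTop G F) {a b K : ℕ} (hab : Consec G a b)
    (hK : 2 ≤ K) (hbK : b - a ≤ K) (h1 : F ≤ a + m) (h2 : b < 2 * m) (h3 : 2 * m < F) :
    ∃ H s, IsGapset H ∧ H.card = G.card + 1 ∧ IsMult H (m + s) ∧ IsTop H (F + 2 * s) ∧
      ((s = 1 ∧ H = ins (a + 1) G) ∨ (s = 0 ∧ H = insert (a + 1) G ∧ a + 1 ∉ G)) ∧
      (∀ a' b', Consec H a' b' → b' - a' ≤ K ∨ ∃ a1 b1, Consec G a1 b1 ∧
        b' - a' = b1 - a1 ∧ (a1 ≤ a → a' = a1 + s)) ∧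
      (∀ a1 b1, Consec G a1 b1 → a1 ≠ a → ∃ a' b', Consec H a' b' ∧ b' - a' = b1 - a1 ∧
        (a1 < a → a' = a1 + s) ∧ (a < a1 → a + s < a')) ∧ (s = 0 → b - a = K) := by
  have hlt := hab.2.2.1
  have hm0 := hm.1
  have key : ∀ a1 b1, Consec G a1 b1 → a1 ≠ a → (a1 < a ∧ b1 ≤ a) ∨ (b ≤ a1) := by
    intro a1 b1 h hne
    have k1 := h.2.2.2 a hab.1
    have k2 := hab.2.2.2 a1 h.1
    omega
  by_cases hc : b - a < K
  · refine ⟨ins (a + 1) G, 1, gapset_ins hG hm hF (by omega) (by omega) (by omega),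
      card_ins hG.1 _, mult_ins hm (by omega), ?_, Or.inl ⟨rfl, rfl⟩, fun a' b' h => ?_,
      fun a1 b1 h hne => ?_, fun h => absurd h one_ne_zero⟩
    · have := top_ins hF (a + 1)
      rwa [show sh (a + 1) F = F + 2 * 1 by unfold sh; split_ifs <;> omega] at this
    · rcases of_consec_ins (one_mem hG hF.1) (by omega) h with h | ⟨a1, b1, h', rfl, rfl⟩
      · left; omega
      have k0 := h'.2.2.1
      by_cases e : a1 = a
      · left
        subst e
        have := consec_right hab h'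
        unfold sh; split_ifs <;> omega
      · have := key a1 b1 h' e
        refine Or.inr ⟨a1, b1, h', ?_, ?_⟩ <;> unfold sh <;> split_ifs <;> omega
    · have := key a1 b1 h hne
      have k0 := h.2.2.1
      refine ⟨_, _, consec_ins (p := a + 1) h, ?_, ?_, ?_⟩ <;> unfold sh <;> split_ifs <;> omega
  · have hn : a + 1 ∉ G := fun h => hab.2.2.2 _ h ⟨by omega, by omega⟩
    refine ⟨insert (a + 1) G, 0, gapset_insert hG hm (by omega) (by omega),
      card_insert_of_notMem hn, ⟨hm0, fun h => ?_, fun x hx hx' => ?_⟩,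
      ⟨mem_insert_of_mem hF.1, fun x hx => ?_⟩, Or.inr ⟨rfl, rfl, hn⟩, fun a' b' h => ?_,
      fun a1 b1 h hne => ?_, fun _ => by omega⟩
    · rcases mem_insert.1 h with h | h
      · omega
      · exact hm.2.1 h
    · exact mem_insert_of_mem (hm.2.2 x hx hx')
    · rcases mem_insert.1 hx with h | h
      · omega
      · exact hF.2 x h
    · have k0 := h.2.2.1
      have k1 := h.2.2.2 a (mem_insert_of_mem hab.1)
      have k2 := h.2.2.2 b (mem_insert_of_mem hab.2.1)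
      rcases mem_insert.1 h.1 with e | ha'
      · left; omega
      rcases mem_insert.1 h.2.1 with e | hb'
      · have := hab.2.2.2 a' ha'
        left; omega
      exact Or.inr ⟨a', b', ⟨ha', hb', k0, fun c hc => h.2.2.2 c (mem_insert_of_mem hc)⟩, rfl,
        fun _ => rfl⟩
    · have := key a1 b1 h hne
      have k0 := h.2.2.1
      refine ⟨a1, b1, ⟨mem_insert_of_mem h.1, mem_insert_of_mem h.2.1, k0, fun c hc hh => ?_⟩,
        rfl, fun _ => rfl, fun hh => by omega⟩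
      rcases mem_insert.1 hc with e | hc
      · omega
      · exact h.2.2.2 c hc hh

/-- Some pair at distance `κ` does not start at `F - m`. -/
def Other (κ : ℕ) (H : Finset ℕ) : Prop :=
  ∃ m F a b, IsMult H m ∧ IsTop H F ∧ Consec H a b ∧ b - a = κ ∧ a + m ≠ F

/-- The graph of the injection. -/
def Rel (κ : ℕ) (G H : Finset ℕ) : Prop :=
  ∃ m F p s, IsMult G m ∧ IsTop G F ∧ IsMult H (m + s) ∧
    ((s = 1 ∧ H = ins p G) ∨ (s = 0 ∧ H = insert p G ∧ p ∉ G)) ∧
    ((F < 2 * m ∧ s = 1 ∧ p = F + 1 ∧ IsTop H (F + 1)) ∨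
      (2 * m < F ∧ IsTop H (F + 2 * s) ∧
        ((p + m = F + 1 ∧ Other κ H) ∨ (p + m = F + κ + 1 ∧ ¬ Other κ H))))

lemma rel_inj {G' : Finset ℕ} (h0 : 0 ∉ G) (h0' : 0 ∉ G') (h : Rel κ G H) (h' : Rel κ G' H) :
    G = G' := by
  obtain ⟨m, F, p, s, -, -, a3, a4, a5⟩ := h
  obtain ⟨m', F', p', s', -, -, b3, b4, b5⟩ := h'
  have e1 := mult_unique a3 b3
  have e2 : p + s = p' + s' ∧ 0 < p ∧ 0 < p' := by
    rcases a5 with ⟨a5, a6, a7, a8⟩ | ⟨a5, a6, a7⟩ <;>
      rcases b5 with ⟨b5, b6, b7, b8⟩ | ⟨b5, b6, b7⟩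
    · have := top_unique a8 b8; omega
    · have := top_unique a8 b6; omega
    · have := top_unique a6 b8; omega
    · have := top_unique a6 b6
      rcases a7 with ⟨a7, a8⟩ | ⟨a7, a8⟩ <;> rcases b7 with ⟨b7, b8⟩ | ⟨b7, b8⟩
      · omega
      · exact absurd a8 b8
      · exact absurd b8 a8
      · omega
  rcases a4 with ⟨rfl, a4⟩ | ⟨rfl, a4, a6⟩ <;> rcases b4 with ⟨rfl, b4⟩ | ⟨rfl, b4, b6⟩
  · obtain rfl : p = p' := by omega
    exact ins_inj h0 h0' (a4.symm.trans b4)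
  · obtain rfl : p' = p + 1 := by omega
    exact absurd (a4 ▸ b4 ▸ mem_insert_self _ _) (succ_notMem_ins (G := G) e2.2.1)
  · obtain rfl : p = p' + 1 := by omega
    exact absurd (b4 ▸ a4 ▸ mem_insert_self _ _) (succ_notMem_ins (G := G') e2.2.2)
  · obtain rfl : p = p' := by omega
    rw [← erase_insert a6, ← erase_insert b6, ← a4, ← b4]

/-- Gapsets on which the injection is not defined. -/
def Bad (κ : ℕ) (G : Finset ℕ) : Prop :=
  ∃ m F, IsMult G m ∧ IsTop G F ∧ 2 * m < F ∧ 3 * m < F + 2 * κ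

/-- Gapsets that the injection misses. -/
def Slack (G : Finset ℕ) : Prop := ∃ m F, IsMult G m ∧ IsTop G F ∧ F + 1 = 2 * m

lemma two_le (hκ : 1 ≤ κ) (hG : Mem κ g G) (hm : IsMult G m) (hF : IsTop G F) (h : m < F) :
    2 ≤ κ ∧ (κ = 2 → 2 * m < F → Other κ G) := by
  have h1 := one_mem hG.1 hF.1
  have hm2 : 2 ≤ m := by
    have k1 := hm.1
    have k2 : m ≠ 1 := fun e => hm.2.1 (e ▸ h1)
    omega
  obtain ⟨b, hb⟩ := exists_consec (hm.2.2 (m - 1) (by omega) (by omega)) hF.1 (by omega)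
  have k1 := hG.2.2.1 _ _ hb
  have k2 := hb.2.2.1
  have k3 : b ≠ m := fun e => hm.2.1 (e ▸ hb.2.1)
  exact ⟨by omega, fun e h2 => ⟨m, F, m - 1, b, hm, hF, hb, by omega, by omega⟩⟩

lemma exists_rel (hκ : 1 ≤ κ) (hG : Mem κ g G) (hB : ¬ Bad κ G) :
    ∃ H, (Mem κ (g + 1) H ∧ ¬ Slack H) ∧ Rel κ G H := by
  obtain ⟨m, hm⟩ := exists_mult G
  obtain ⟨a0, b0, hp, hpe⟩ := hG.2.2.2
  obtain ⟨F, hF⟩ := exists_top ⟨a0, hp.1⟩
  have hne : F ≠ 2 * m := fun e => add_notMem hG.1 hm.2.1 hm.2.1 (by rw [← two_mul, ← e]; exact hF.1)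
  by_cases h2 : F < 2 * m
  · obtain ⟨k1, k2, k3⟩ := shift_mem hκ hG hm hF h2
    refine ⟨_, ⟨k1, ?_⟩, m, F, F + 1, 1, hm, hF, k2, Or.inl ⟨rfl, rfl⟩,
      Or.inl ⟨h2, rfl, rfl, k3⟩⟩
    rintro ⟨m', F', l1, l2, l3⟩
    have := mult_unique k2 l1
    have := top_unique k3 l2
    omega
  have h3 : 2 * m < F := by omega
  have h4 : F + 2 * κ ≤ 3 * m := not_lt.1 fun h => hB ⟨m, F, hm, hF, h3, h⟩
  have hm0 := hm.1
  obtain ⟨hκ2, hκ3⟩ := two_le hκ hG hm hF (by omega)
  have ha : F - m ∈ G := by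
    by_contra hn
    exact add_notMem hG.1 hn hm.2.1 (by rw [show F - m + m = F by omega]; exact hF.1)
  have noslack : ∀ H s, IsMult H (m + s) → IsTop H (F + 2 * s) → ¬ Slack H := by
    rintro H s k2 k3 ⟨m', F', l1, l2, l3⟩
    have := mult_unique k2 l1
    have := top_unique k3 l2
    omega
  by_cases ho : Other κ G
  · obtain ⟨b, hb⟩ := exists_consec ha hF.1 (by omega)
    have hbk := hG.2.2.1 _ _ hb
    obtain ⟨H, s, k1, k2, k3, k4, k5, k6, k7, -⟩ := move hG.1 hm hF hb hκ2 hbk (by omega)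
      (by omega) h3
    obtain ⟨m', F', a1, b1, l1, l2, l3, l4, l5⟩ := ho
    obtain rfl := mult_unique hm l1
    obtain rfl := top_unique hF l2
    obtain ⟨a', b', q1, q2, q3, q4⟩ := k7 a1 b1 l3 (by omega)
    refine ⟨H, ⟨⟨k1, by rw [k2, hG.2.1], fun x y hxy => ?_, a', b', q1, by omega⟩,
      noslack H s k3 k4⟩, m, F, F - m + 1, s, hm, hF, k3, k5,
      Or.inr ⟨h3, k4, Or.inl ⟨by omega, m + s, F + 2 * s, a', b', k3, k4, q1, by omega, ?_⟩⟩⟩
    · rcases k6 x y hxy with h | ⟨x1, y1, h, e, -⟩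
      · exact h
      · rw [e]; exact hG.2.2.1 _ _ h
    · rcases Nat.lt_or_gt_of_ne (show a1 ≠ F - m by omega) with h | h
      · have := q3 h; omega
      · have := q4 h; omega
  · have only : ∀ x y, Consec G x y → y - x = κ → x + m = F := fun x y hxy e => by
      by_contra hn
      exact ho ⟨m, F, x, y, hm, hF, hxy, e, hn⟩
    have e0 := only a0 b0 hp hpe
    have hκ' : κ ≠ 2 := fun e => ho (hκ3 e h3)
    have l0 := hp.2.2.1
    obtain ⟨b, hb⟩ := exists_consec hp.2.1 hF.1 (by omega)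
    have hbk := hG.2.2.1 _ _ hb
    have hbk' : b - b0 ≠ κ := fun e => by have := only _ _ hb e; omega
    have hb2 : b ≠ 2 * m := fun e =>
      add_notMem hG.1 hm.2.1 hm.2.1 (by rw [← two_mul, ← e]; exact hb.2.1)
    obtain ⟨H, s, k1, k2, k3, k4, k5, k6, k7, -⟩ := move hG.1 hm hF hb (K := κ - 1) (by omega)
      (by omega) (by omega) (by omega) h3
    obtain ⟨a', b', q1, q2, -, -⟩ := k7 a0 b0 hp (by omega)
    refine ⟨H, ⟨⟨k1, by rw [k2, hG.2.1], fun x y hxy => ?_, a', b', q1, by omega⟩,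
      noslack H s k3 k4⟩, m, F, b0 + 1, s, hm, hF, k3, k5,
      Or.inr ⟨h3, k4, Or.inr ⟨by omega, ?_⟩⟩⟩
    · rcases k6 x y hxy with h | ⟨x1, y1, h, e, -⟩
      · omega
      · rw [e]; exact hG.2.2.1 _ _ h
    · rintro ⟨m', F', x, y, l1, l2, l3, l4, l5⟩
      obtain rfl := mult_unique k3 l1
      obtain rfl := top_unique k4 l2
      rcases k6 x y l3 with h | ⟨x1, y1, h, e, e'⟩
      · omega
      · have := only x1 y1 h (by omega)
        have := e' (by omega)
        omega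

/-- The finite set of gapsets of genus `g` with largest difference `κ`. -/
noncomputable def fam (κ g : ℕ) : Finset (Finset ℕ) := (finite_mem κ g).toFinset

lemma mem_fam : G ∈ fam κ g ↔ Mem κ g G := by
  simp only [fam, Set.Finite.mem_toFinset, Set.mem_ofPred_eq]

open Classical in
lemma card_le_of_bad_le (hκ : 1 ≤ κ)
    (h : ((fam κ g).filter (Bad κ)).card ≤ ((fam κ (g + 1)).filter Slack).card) :
    (fam κ g).card ≤ (fam κ (g + 1)).card := by
  have h1 := card_le_card_of_forall_subsingleton (Rel κ)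
    (s := (fam κ g).filter fun G => ¬ Bad κ G) (t := (fam κ (g + 1)).filter fun H => ¬ Slack H)
    (fun G hG => by
      obtain ⟨hG, hB⟩ := mem_filter.1 hG
      obtain ⟨H, hH, hR⟩ := exists_rel hκ (mem_fam.1 hG) hB
      exact ⟨H, mem_filter.2 ⟨mem_fam.2 hH.1, hH.2⟩, hR⟩)
    (fun H _ G hG G' hG' => rel_inj (mem_fam.1 (mem_filter.1 hG.1).1).1.1
      (mem_fam.1 (mem_filter.1 hG'.1).1).1.1 hG.2 hG'.2)
  have h2 := card_filter_add_card_filter_not (s := fam κ g) (Bad κ)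
  have h3 := card_filter_add_card_filter_not (s := fam κ (g + 1)) Slack
  omega

end Gap

end Pool.Agent.MP_0bb195_co
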