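import Mathlib.Tactic.LinearCombination
import Mathlib.Topology.Sheaves.Presheaf
import Mathlib.Algebra.Order.Ring.Star
import Mathlib.Analysis.SpecificLimits.Normed
import Mathlib.RingTheory.PiTensorProduct
import Pool.Agent.MP_0bb195_co.Gap

-- ======== part 0: formerly Pool.Agent.MP_0bb195_co.Count
section MrgPart0

/-!
Counting: a lower bound for the gapsets with `F = 2m - 1` and an upper bound for the gapsets with
`F + 2κ > 3m`, by Kunz coordinates and the segment bound.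
-/

namespace Pool.Agent.MP_0bb195_co.Gap

open Finset

variable {G H : Finset ℕ} {m F κ g : ℕ}

lemma shift_iter (hκ : 1 ≤ κ) (hG : Mem κ g G) (hm : IsMult G m) (hF : IsTop G F)
    (h2 : F < 2 * m) (d : ℕ) :
    ∃ H, Mem κ (g + d) H ∧ IsMult H (m + d) ∧ IsTop H (F + d) ∧
      ∀ x, 0 < x → x ≤ F → (x + d ∈ H ↔ x ∈ G) := by
  induction d with
  | zero => exact ⟨G, hG, hm, hF, fun _ _ _ => Iff.rfl⟩
  | succ d ih =>
    obtain ⟨H, k1, k2, k3, k4⟩ := ih
    obtain ⟨l1, l2, l3⟩ := shift_mem hκ k1 k2 k3 (by omega)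
    refine ⟨_, l1, l2, l3, fun x hx hxF => ?_⟩
    rw [← k4 x hx hxF, ← sh_mem_ins (p := F + d + 1) (G := H) (show 0 < x + d by omega),
      show sh (F + d + 1) (x + d) = x + (d + 1) by unfold sh; split_ifs <;> omega]

lemma extend (hκ : 1 ≤ κ) (hG : Mem κ g G) (hm : IsMult G m) (hF : IsTop G F)
    (h2 : F + 1 = 2 * m) {d : ℕ} (hd : 1 ≤ d) (hdκ : d ≤ κ) :
    ∃ H, Mem κ (g + d + 1) H ∧ Slack H ∧ IsTop H (F + 2 * d) ∧ Consec H (F + d) (F + 2 * d) ∧
      ∀ x, 0 < x → x ≤ F → (x + d ∈ H ↔ x ∈ G) := by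
  obtain ⟨H, k1, k2, k3, k4⟩ := shift_iter hκ hG hm hF (by omega) d
  have hn : F + 2 * d ∉ H := fun h => by have := k3.2 _ h; omega
  have ht : IsTop (insert (F + 2 * d) H) (F + 2 * d) := ⟨mem_insert_self _ _, fun x hx => by
    rcases mem_insert.1 hx with h | h
    · omega
    · have := k3.2 _ h; omega⟩
  refine ⟨insert (F + 2 * d) H, ⟨gapset_insert k1.1 k2 (by omega) (by omega),
    by rw [card_insert_of_notMem hn, k1.2.1], fun a b hab => ?_, ?_⟩,
    ⟨m + d, F + 2 * d, ⟨k2.1, fun h => ?_, fun x hx hx' => mem_insert_of_mem (k2.2.2 x hx hx')⟩,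
      ht, by omega⟩, ht,
    ⟨mem_insert_of_mem k3.1, mem_insert_self _ _, by omega, fun c hc hh => ?_⟩,
    fun x hx hxF => ?_⟩
  · have l0 := hab.2.2.1
    have l1 := ht.2 b hab.2.1
    rcases mem_insert.1 hab.1 with e | ha
    · omega
    rcases mem_insert.1 hab.2.1 with e | hb
    · have := hab.2.2.2 (F + d) (mem_insert_of_mem k3.1)
      omega
    exact k1.2.2.1 a b ⟨ha, hb, l0, fun c hc => hab.2.2.2 c (mem_insert_of_mem hc)⟩
  · obtain ⟨a, b, hab, e⟩ := k1.2.2.2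
    refine ⟨a, b, ⟨mem_insert_of_mem hab.1, mem_insert_of_mem hab.2.1, hab.2.2.1,
      fun c hc hh => ?_⟩, e⟩
    rcases mem_insert.1 hc with h | h
    · have := k3.2 b hab.2.1; omega
    · exact hab.2.2.2 c h hh
  · rcases mem_insert.1 h with h | h
    · have := hm.1; omega
    · exact k2.2.1 h
  · rcases mem_insert.1 hc with h | h
    · omega
    · have := k3.2 c h; omega
  · rw [mem_insert, k4 x hx hxF]
    exact ⟨fun h => h.resolve_left (by omega), Or.inr⟩

open Classical in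
/-- The number of missed gapsets. -/
noncomputable def sl (κ g : ℕ) : ℕ := ((fam κ g).filter Slack).card

lemma sl_rec (hκ : 1 ≤ κ) {k N : ℕ} (hk : k ≤ κ) (hN : k + 1 ≤ N) :
    ∑ d ∈ Icc 1 k, sl κ (N - d - 1) ≤ sl κ N := by
  classical
  unfold sl
  rw [← card_sigma]
  refine card_le_card_of_forall_subsingleton (fun (p : Σ _ : ℕ, Finset ℕ) H => ∃ F, IsTop p.2 F ∧
    IsTop H (F + 2 * p.1) ∧ Consec H (F + p.1) (F + 2 * p.1) ∧
      ∀ x, 0 < x → x ≤ F → (x + p.1 ∈ H ↔ x ∈ p.2)) ?_ ?_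
  · rintro ⟨d, G⟩ hp
    obtain ⟨hd, hG⟩ := mem_sigma.1 hp
    obtain ⟨hG, m, F, hm, hF, e⟩ := mem_filter.1 hG
    have hd' := mem_Icc.1 hd
    simp only at hd' hG hm hF
    obtain ⟨H, k1, k2, k3, k4, k5⟩ := extend hκ (mem_fam.1 hG) hm hF e hd'.1 (by omega)
    rw [show N - d - 1 + d + 1 = N by omega] at k1
    exact ⟨H, mem_filter.2 ⟨mem_fam.2 k1, k2⟩, F, hF, k3, k4, k5⟩
  · rintro H - ⟨d, G⟩ ⟨hp, F, a1, a2, a3, a4⟩ ⟨d', G'⟩ ⟨hp', F', b1, b2, b3, b4⟩
    simp only at a1 a2 a3 a4 b1 b2 b3 b4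
    have e1 := top_unique a2 b2
    rw [← e1] at b3
    have e2 := consec_left a3 b3
    obtain rfl : d = d' := by omega
    obtain rfl : F = F' := by omega
    have h0 := (mem_fam.1 (mem_filter.1 (mem_sigma.1 hp).2).1).1.1
    have h0' := (mem_fam.1 (mem_filter.1 (mem_sigma.1 hp').2).1).1.1
    have : G = G' := by
      ext x
      constructor
      · intro hx
        have hx0 : 0 < x := Nat.pos_of_ne_zero fun e => h0 (e ▸ hx)
        exact (b4 x hx0 (a1.2 x hx)).1 ((a4 x hx0 (a1.2 x hx)).2 hx)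
      · intro hx
        have hx0 : 0 < x := Nat.pos_of_ne_zero fun e => h0' (e ▸ hx)
        exact (a4 x hx0 (b1.2 x hx)).1 ((b4 x hx0 (b1.2 x hx)).2 hx)
    rw [this]

lemma sl_base (hκ : 2 ≤ κ) : 1 ≤ sl κ κ := by
  classical
  unfold sl
  have hmem : ∀ x, x ∈ insert (2 * κ - 1) (Ico 1 κ) ↔ x = 2 * κ - 1 ∨ (1 ≤ x ∧ x < κ) :=
    fun x => by rw [mem_insert, mem_Ico]
  refine card_pos.2 ⟨insert (2 * κ - 1) (Ico 1 κ), mem_filter.2 ⟨mem_fam.2 ⟨?_, ?_, ?_, ?_⟩,
    κ, 2 * κ - 1, ⟨by omega, ?_, ?_⟩, ⟨mem_insert_self _ _, ?_⟩, by omega⟩⟩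
  · refine gapset_of_lt (m := κ) ?_ (fun x _ _ => ?_) fun x hx => ?_
    · rw [hmem]; omega
    · rw [hmem]; omega
    · rw [hmem] at hx; omega
  · rw [card_insert_of_notMem (by rw [mem_Ico]; omega), Nat.card_Ico]; omega
  · intro a b hab
    have l0 := hab.2.2.1
    have l1 := (hmem a).1 hab.1
    have l2 := (hmem b).1 hab.2.1
    have l3 := hab.2.2.2 (κ - 1) ((hmem _).2 (by omega))
    omega
  · refine ⟨κ - 1, 2 * κ - 1, ⟨(hmem _).2 (by omega), (hmem _).2 (by omega), by omega,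
      fun c hc => ?_⟩, by omega⟩
    rw [hmem] at hc; omega
  · rw [hmem]; omega
  · intro x _ _; rw [hmem]; omega
  · intro x hx; rw [hmem] at hx; omega

lemma sl_step (hκ : 2 ≤ κ) {d j : ℕ} (hd : 1 ≤ d) (hd2 : d ≤ 2) :
    sl κ (κ + j) ≤ sl κ (κ + (j + d + 1)) := by
  refine le_trans ?_ (sl_rec (by omega) (k := d) (by omega) (by omega))
  have := single_le_sum (s := Icc 1 d) (f := fun e => sl κ (κ + (j + d + 1) - e - 1))
    (fun _ _ => Nat.zero_le _) (mem_Icc.2 ⟨hd, le_rfl⟩)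
  rwa [show κ + (j + d + 1) - d - 1 = κ + j by omega] at this

lemma sl_pos (hκ : 2 ≤ κ) : ∀ j, 1 ≤ sl κ (κ + (j + 2))
  | 0 => (sl_base hκ).trans (sl_step hκ (d := 1) (j := 0) le_rfl (by omega))
  | 1 => (sl_base hκ).trans (sl_step hκ (d := 2) (j := 0) (by omega) le_rfl)
  | j + 2 => (sl_pos hκ j).trans (sl_step hκ (d := 1) (j := j + 2) le_rfl (by omega))

lemma sl_growth (hκ : 2 ≤ κ) {k : ℕ} (hk : k ≤ κ) (hk4 : k ≤ 4) {X : ℝ} (hX : 0 < X)
    (hX1 : X ≤ 1) (hs : 1 ≤ ∑ d ∈ Icc 1 k, X ^ (d + 1)) :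
    ∀ j, 2 ≤ j → X ^ 6 ≤ sl κ (κ + j) * X ^ j := by
  intro j
  induction j using Nat.strong_induction_on with
  | _ j ih =>
    intro hj
    by_cases h6 : j ≤ 6
    · have h1 : (1 : ℝ) ≤ sl κ (κ + j) := by
        have := sl_pos hκ (j - 2)
        rw [show j - 2 + 2 = j by omega] at this
        exact_mod_cast this
      have h2 : X ^ 6 ≤ X ^ j := pow_le_pow_of_le_one hX.le hX1 h6
      nlinarith [pow_pos hX j]
    · have h1 : ((∑ d ∈ Icc 1 k, sl κ (κ + j - d - 1) : ℕ) : ℝ) ≤ sl κ (κ + j) := by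
        exact_mod_cast sl_rec (by omega) hk (by omega)
      have h2 : ∑ d ∈ Icc 1 k, X ^ 6 * X ^ (d + 1) ≤
          ∑ d ∈ Icc 1 k, (sl κ (κ + j - d - 1) : ℝ) * X ^ j := by
        refine sum_le_sum fun d hd => ?_
        have hd' := mem_Icc.1 hd
        have := mul_le_mul_of_nonneg_right (ih (j - d - 1) (by omega) (by omega))
          (pow_pos hX (d + 1)).le
        rwa [mul_assoc, ← pow_add X (j - d - 1), show j - d - 1 + (d + 1) = j by omega,
          show κ + (j - d - 1) = κ + j - d - 1 by omega] at this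
      rw [← mul_sum, ← sum_mul] at h2
      push_cast at h1
      nlinarith [mul_le_mul_of_nonneg_right h1 (pow_pos hX j).le,
        mul_le_mul_of_nonneg_left hs (pow_pos hX 6).le]

/-- Kunz coordinate of the residue `i`. -/
noncomputable def kz (G : Finset ℕ) (m i : ℕ) : ℕ := sInf {j | i + m * j ∉ G}

lemma kz_le {i j : ℕ} (h : i + m * j ∉ G) : kz G m i ≤ j := Nat.sInf_le h

lemma mem_iff_lt_kz (hG : IsGapset G) (hm : IsMult G m) (i j : ℕ) :
    i + m * j ∈ G ↔ j < kz G m i := by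
  constructor
  · intro h
    by_contra hlt
    have hne : {j | i + m * j ∉ G}.Nonempty := ⟨2 * G.card + 2, fun h' => by
      have h1 := lt_of_mem hG h'
      have h2 := Nat.le_mul_of_pos_left (2 * G.card + 2) hm.1
      omega⟩
    have h1 : i + m * kz G m i ∉ G := Nat.sInf_mem hne
    have h2 := add_mul_notMem hG hm.2.1 h1 (j - kz G m i)
    rw [add_assoc, ← mul_add, show kz G m i + (j - kz G m i) = j by omega] at h2
    exact h2 h
  · intro h
    by_contra hn
    exact absurd (kz_le hn) (not_le.2 h)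

lemma kz_pair (hG : IsGapset G) (hm : IsMult G m) {i j t : ℕ} (h : i + j + m * t ∈ G) :
    t + 1 ≤ kz G m i + kz G m j := by
  by_contra hlt
  have h1 : i + m * kz G m i ∉ G := fun h => lt_irrefl _ ((mem_iff_lt_kz hG hm _ _).1 h)
  have h2 : j + m * kz G m j ∉ G := fun h => lt_irrefl _ ((mem_iff_lt_kz hG hm _ _).1 h)
  have h3 := add_mul_notMem hG hm.2.1 (add_notMem hG h1 h2) (t - (kz G m i + kz G m j))
  obtain ⟨u, hu⟩ : ∃ u, t = kz G m i + kz G m j + u := ⟨t - (kz G m i + kz G m j), by omega⟩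
  rw [show t - (kz G m i + kz G m j) = u by omega] at h3
  rw [hu] at h
  exact h3 (by rw [show i + m * kz G m i + (j + m * kz G m j) + m * u =
    i + j + m * (kz G m i + kz G m j + u) by ring]; exact h)

lemma sum_kz_le (hG : IsGapset G) (hm : IsMult G m) : ∑ i ∈ range m, kz G m i ≤ G.card := by
  have h := card_le_card_of_injOn (s := (range m).sigma fun i => range (kz G m i)) (t := G)
    (fun p => p.1 + m * p.2) (fun p hp => by
      have := mem_range.1 (mem_sigma.1 (mem_coe.1 hp)).2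
      exact mem_coe.2 ((mem_iff_lt_kz hG hm _ _).2 this))
    (by
      rintro ⟨i, j⟩ hp ⟨i', j'⟩ hp' e
      have h1 := mem_range.1 (mem_sigma.1 (mem_coe.1 hp)).1
      have h2 := mem_range.1 (mem_sigma.1 (mem_coe.1 hp')).1
      simp only at e h1 h2
      have e1 := congrArg (· % m) e
      simp only [Nat.add_mul_mod_self_left, Nat.mod_eq_of_lt h1, Nat.mod_eq_of_lt h2] at e1
      subst e1
      have e2 : j = j' := Nat.eq_of_mul_eq_mul_left hm.1 (by omega)
      rw [e2])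
  rwa [card_sigma, sum_congr rfl fun i _ => card_range _] at h

lemma eq_of_kz {G' : Finset ℕ} (hG : IsGapset G) (hm : IsMult G m) (hG' : IsGapset G')
    (hm' : IsMult G' m) (h : ∀ i, 0 < i → i < m → kz G m i = kz G' m i) : G = G' := by
  ext x
  rw [← Nat.mod_add_div x m]
  rcases Nat.eq_zero_or_pos (x % m) with e | e
  · rw [e]
    exact ⟨fun h => absurd h (add_mul_notMem hG hm.2.1 hG.1 _),
      fun h => absurd h (add_mul_notMem hG' hm'.2.1 hG'.1 _)⟩
  · rw [mem_iff_lt_kz hG hm, mem_iff_lt_kz hG' hm', h _ e (Nat.mod_lt _ hm.1)]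

/-- The word of Kunz coordinates of the residues `o, …, o + n - 1`. -/
noncomputable def word (G : Finset ℕ) (m o n : ℕ) : ℕ → ℕ :=
  fun i => if i < n then kz G m (o + i) else 0

lemma word_ok (hκ : 1 ≤ κ) (hG : Mem κ g G) (hm : IsMult G m) (hF : IsTop G F) {o n t : ℕ}
    {E : Finset ℕ} (ho : 0 < o) (hon : o + n ≤ m) (h1 : F < o + m * (t + 1))
    (h2 : m * t + o + n ≤ F + 1) (hE : ∀ e ∈ E, 1 ≤ e ∧ 2 * o + n + m * t - e ∈ G) :
    Seg.Ok κ (t + 1) n E (word G m o n) := by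
  have hup : ∀ i, kz G m (o + i) ≤ t + 1 := fun i => kz_le fun h => by
    have := hF.2 _ h; omega
  refine ⟨fun i hi => if_neg (by omega), fun i hi => ?_, fun i hi => ?_, fun e he i j hij => ?_⟩
  · simp only [word, if_pos hi]
    exact ⟨(mem_iff_lt_kz hG.1 hm (o + i) 0).1 (hm.2.2 _ (by omega) (by omega)), hup i⟩
  · by_contra hlt
    obtain ⟨s1, s2⟩ := Seg.st_spec (t + 1) (word G m o n) i
    obtain ⟨z, hz, z1, z2⟩ := window hG.1 hG.2.2.1 hF.1 (y := m * t + o + (i - κ)) hκ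
      (by omega) (by omega)
    have k1 := s2 (z - (m * t + o)) (by omega) (by omega)
    have k2 := (mem_iff_lt_kz hG.1 hm (o + (z - (m * t + o))) t).1
      (by rwa [show o + (z - (m * t + o)) + m * t = z by omega])
    have k3 := hup (z - (m * t + o))
    simp only [word, if_pos (show z - (m * t + o) < n by omega)] at k1
    omega
  · obtain ⟨e1, e2⟩ := hE e he
    simp only [word, if_pos (show i < n by omega), if_pos (show j < n by omega)]
    exact kz_pair hG.1 hm (by rwa [show o + i + (o + j) + m * t = 2 * o + n + m * t - e by omega])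

lemma card_window (hκ : 1 ≤ κ) (hG : Mem κ g G) (hF : IsTop G F) :
    ∀ d, d * κ ≤ F → d ≤ ((range (d * κ)).filter fun e => F - e ∈ G).card := by
  intro d
  induction d with
  | zero => exact fun _ => Nat.zero_le _
  | succ d ih =>
    intro hd
    rw [Nat.succ_mul] at hd ⊢
    obtain ⟨z, hz, z1, z2⟩ := window hG.1 hG.2.2.1 hF.1 (y := F + 1 - (d * κ + κ)) hκ
      (by omega) (by omega)
    refine lt_of_le_of_lt (ih (by omega)) (card_lt_card ⟨fun e he => ?_, fun hsub => ?_⟩)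
    · simp only [mem_filter, mem_range] at he ⊢
      exact ⟨by omega, he.2⟩
    · have := @hsub (F - z) (by
        simp only [mem_filter, mem_range]
        exact ⟨by omega, by rwa [show F - (F - z) = z by omega]⟩)
      simp only [mem_filter, mem_range] at this
      omega

lemma card_le_top (hG : IsGapset G) (hF : IsTop G F) : G.card ≤ F := by
  have h := card_le_card (show G ⊆ Icc 1 F from fun x hx =>
    mem_Icc.2 ⟨Nat.pos_of_ne_zero fun e => hG.1 (e ▸ hx), hF.2 x hx⟩)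
  simpa using h

variable {y μ x : ℝ} {h : ℕ → ℝ} {D r : ℕ}

lemma class_bound (P : Seg.Pot κ y μ h) (hx : 0 < x) (hxy : x * (501 / 500) = y)
    (hD : (501 : ℝ) ≤ (501 / 500) ^ D) (hD1 : 1 ≤ D) (hr : (99 / 100 : ℝ) ^ r * 3 ≤ 1)
    (hκ : 1 ≤ κ) {d : ℕ} (hd : (r + 1) * D ≤ d) (hd2 : 2 ≤ d) (hg : d * κ ≤ g)
    (E : Finset ℕ) (C : Finset (Finset ℕ))
    (hC : ∀ G ∈ C, Mem κ g G ∧ IsMult G m ∧ IsTop G F ∧ 2 * m < F ∧ 3 * m < F + 2 * κ ∧
      ((range (d * κ)).filter fun e => F - e ∈ G) = E) :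
    C.card * x ^ g ≤ (3 * 4 ^ (d * κ + 2)) ^ 2 := by
  classical
  rcases C.eq_empty_or_nonempty with rfl | ⟨G0, hG0⟩
  · simp only [card_empty, Nat.cast_zero, zero_mul]; positivity
  obtain ⟨g1, g2, g3, g4, g5, g6⟩ := hC G0 hG0
  have hm0 := g2.1
  obtain ⟨t, ht⟩ : ∃ t, F / m = t + 2 := ⟨F / m - 2, by
    have := (Nat.le_div_iff_mul_le hm0).2 (show 2 * m ≤ F by omega); omega⟩
  set k := F % m with hk
  have hF : F = k + m * t + 2 * m := by
    have := Nat.mod_add_div F m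
    rw [ht, mul_add] at this; omega
  have hkm : k < m := Nat.mod_lt _ hm0
  have hk0 : 0 < k := Nat.pos_of_ne_zero fun e => add_mul_notMem g1.1 g2.2.1 g1.1.1 (t + 2)
    (by rw [show 0 + m * (t + 2) = F by rw [mul_add]; omega]; exact g3.1)
  have hFg : d * κ ≤ F := hg.trans (g1.2.1 ▸ card_le_top g1.1 g3)
  have hEc : d ≤ E.card := g6 ▸ card_window hκ g1 g3 d hFg
  have hE : ∀ G ∈ C, ∀ e ∈ E, e < d * κ ∧ F - e ∈ G := fun G hG e he => by
    rw [← (hC G hG).2.2.2.2.2, mem_filter, mem_range] at he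
    exact he
  have hx1 : x ≤ 1 := by nlinarith [P.y1]
  have hdκ : 2 * κ ≤ d * κ := Nat.mul_le_mul_right _ hd2
  have b1 := Seg.seg P hx hxy (Q := t + 2 + 1) (n := k) (M := d * κ + 2) (E.image (· + 2))
    (by omega) (Or.inl (by omega)) hD hD1 hr (fun e he => by
      obtain ⟨e, he', rfl⟩ := mem_image.1 he
      have := (hE G0 hG0 e he').1
      omega)
    (by rw [card_image_of_injective _ (add_left_injective 2)]; omega)
    (C.image fun G => word G m 1 k) (fun w hw => by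
      obtain ⟨G, hG, rfl⟩ := mem_image.1 hw
      obtain ⟨l1, l2, l3, -⟩ := hC G hG
      refine word_ok hκ l1 l2 l3 one_pos (by omega) (by rw [mul_add, mul_add]; omega)
        (by rw [mul_add]; omega) fun e he => ?_
      obtain ⟨e, he', rfl⟩ := mem_image.1 he
      refine ⟨by omega, ?_⟩
      rw [show 2 * 1 + k + m * (t + 2) - (e + 2) = F - e by rw [mul_add]; omega]
      exact (hE G hG e he').2)
  have b2 := Seg.seg P hx hxy (Q := t + 1 + 1) (n := m - 1 - k) (M := d * κ + 2)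
    (E.image (· + 1)) (by omega) (by
      rcases Nat.eq_zero_or_pos t with e | e
      · right; rw [e] at hF; omega
      · left; omega) hD hD1 hr (fun e he => by
      obtain ⟨e, he', rfl⟩ := mem_image.1 he
      have := (hE G0 hG0 e he').1
      omega)
    (by rw [card_image_of_injective _ (add_left_injective 1)]; omega)
    (C.image fun G => word G m (k + 1) (m - 1 - k)) (fun w hw => by
      obtain ⟨G, hG, rfl⟩ := mem_image.1 hw
      obtain ⟨l1, l2, l3, -⟩ := hC G hG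
      refine word_ok hκ l1 l2 l3 (by omega) (by omega) (by rw [mul_add, mul_add]; omega)
        (by rw [mul_add]; omega) fun e he => ?_
      obtain ⟨e, he', rfl⟩ := mem_image.1 he
      refine ⟨by omega, ?_⟩
      rw [show 2 * (k + 1) + (m - 1 - k) + m * (t + 1) - (e + 1) = F - e by
        rw [mul_add m]; omega]
      exact (hE G hG e he').2)
  let φ : Finset ℕ → (ℕ → ℕ) × (ℕ → ℕ) := fun G => (word G m 1 k, word G m (k + 1) (m - 1 - k))
  let Fn : (ℕ → ℕ) × (ℕ → ℕ) → ℝ := fun p =>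
    x ^ (∑ i ∈ range k, p.1 i) * x ^ (∑ i ∈ range (m - 1 - k), p.2 i)
  have hφ : Set.InjOn φ C := by
    intro G hG G' hG' e
    refine eq_of_kz (hC G hG).1.1 (hC G hG).2.1 (hC G' hG').1.1 (hC G' hG').2.1
      fun i hi him => ?_
    by_cases hik : i ≤ k
    · have := congrFun (congrArg Prod.fst e) (i - 1)
      simp only [φ, word, if_pos (show i - 1 < k by omega)] at this
      rwa [show 1 + (i - 1) = i by omega] at this
    · have := congrFun (congrArg Prod.snd e) (i - (k + 1))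
      simp only [φ, word, if_pos (show i - (k + 1) < m - 1 - k by omega)] at this
      rwa [show k + 1 + (i - (k + 1)) = i by omega] at this
  have e1 : ∀ G ∈ C, x ^ g ≤ Fn (φ G) := by
    intro G hG
    obtain ⟨l1, l2, -⟩ := hC G hG
    simp only [Fn, φ]
    rw [← pow_add]
    refine pow_le_pow_of_le_one hx.le hx1 ?_
    have := sum_kz_le l1.1 l2
    rw [l1.2.1] at this
    refine le_trans ?_ this
    conv_rhs => rw [show m = 1 + k + (m - 1 - k) by omega, sum_range_add, sum_range_add,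
      ← show m = 1 + k + (m - 1 - k) by omega]
    have a1 : ∑ i ∈ range k, word G m 1 k i = ∑ i ∈ range k, kz G m (1 + i) :=
      sum_congr rfl fun i hi => if_pos (mem_range.1 hi)
    have a2 : ∑ i ∈ range (m - 1 - k), word G m (k + 1) (m - 1 - k) i =
        ∑ i ∈ range (m - 1 - k), kz G m (1 + k + i) :=
      sum_congr rfl fun i hi => by rw [add_comm 1 k]; exact if_pos (mem_range.1 hi)
    omega
  have e2 := sum_le_sum e1
  rw [sum_const, nsmul_eq_mul, ← sum_image hφ (f := Fn)] at e2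
  have e3 := sum_le_sum_of_subset_of_nonneg (f := Fn)
    (show C.image φ ⊆ (C.image fun G => word G m 1 k) ×ˢ
        (C.image fun G => word G m (k + 1) (m - 1 - k)) from fun p hp => by
      obtain ⟨G, hG, rfl⟩ := mem_image.1 hp
      exact mem_product.2 ⟨mem_image_of_mem _ hG, mem_image_of_mem _ hG⟩)
    fun p _ _ => mul_nonneg (pow_pos hx _).le (pow_pos hx _).le
  refine (e2.trans e3).trans ?_
  rw [sum_product]
  simp only [Fn]
  rw [← sum_mul_sum, sq]
  exact mul_le_mul b1 b2 (sum_nonneg fun w _ => (pow_pos hx _).le) (by positivity)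

open Classical in
lemma bad_bound (P : Seg.Pot κ y μ h) (hx : 0 < x) (hxy : x * (501 / 500) = y)
    (hD : (501 : ℝ) ≤ (501 / 500) ^ D) (hD1 : 1 ≤ D) (hr : (99 / 100 : ℝ) ^ r * 3 ≤ 1)
    (hκ : 1 ≤ κ) {d : ℕ} (hd : (r + 1) * D ≤ d) (hd2 : 2 ≤ d) (hg : d * κ ≤ g) :
    ((fam κ g).filter (Bad κ)).card * x ^ g ≤
      (2 * g + 2) ^ 2 * 2 ^ (d * κ) * (3 * 4 ^ (d * κ + 2)) ^ 2 := by
  let I := (range (2 * g + 2) ×ˢ range (2 * g + 2)) ×ˢ (range (d * κ)).powerset
  let cl : (ℕ × ℕ) × Finset ℕ → Finset (Finset ℕ) := fun i => (fam κ g).filter fun G =>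
    IsMult G i.1.1 ∧ IsTop G i.1.2 ∧ 2 * i.1.1 < i.1.2 ∧ 3 * i.1.1 < i.1.2 + 2 * κ ∧
      ((range (d * κ)).filter fun e => i.1.2 - e ∈ G) = i.2
  have h1 : (fam κ g).filter (Bad κ) ⊆ I.biUnion cl := by
    intro G hG
    obtain ⟨hG, m, F, l1, l2, l3, l4⟩ := mem_filter.1 hG
    have := lt_of_mem (mem_fam.1 hG).1 l2.1
    rw [(mem_fam.1 hG).2.1] at this
    exact mem_biUnion.2 ⟨((m, F), (range (d * κ)).filter fun e => F - e ∈ G),
      mem_product.2 ⟨mem_product.2 ⟨mem_range.2 (by simp only; omega), mem_range.2 this⟩,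
        mem_powerset.2 (filter_subset _ _)⟩, mem_filter.2 ⟨hG, l1, l2, l3, l4, rfl⟩⟩
  have h2 : (((fam κ g).filter (Bad κ)).card : ℝ) ≤ ∑ i ∈ I, ((cl i).card : ℝ) := by
    exact_mod_cast (card_le_card h1).trans card_biUnion_le
  refine (mul_le_mul_of_nonneg_right h2 (pow_pos hx g).le).trans ?_
  rw [sum_mul]
  refine (sum_le_sum (g := fun _ => ((3 : ℝ) * 4 ^ (d * κ + 2)) ^ 2) fun i _ =>
    class_bound P hx hxy hD hD1 hr hκ hd hd2 hg i.2 (cl i) fun G hG =>
      ⟨mem_fam.1 (mem_filter.1 hG).1, (mem_filter.1 hG).2⟩).trans (le_of_eq ?_)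
  rw [sum_const, nsmul_eq_mul]
  simp only [I, card_product, card_range, card_powerset]
  push_cast
  ring

open Classical in
lemma bad_le_slack (P : Seg.Pot κ y μ h) {X : ℝ} (hX : 1 / 2 ≤ X) (hX1 : X ≤ 1)
    (hXy : X * (501 / 500) ^ 3 ≤ y) {k : ℕ} (hk : k ≤ κ) (hk4 : k ≤ 4)
    (hs : 1 ≤ ∑ d ∈ Icc 1 k, X ^ (d + 1))
    (hD : (501 : ℝ) ≤ (501 / 500) ^ D) (hD1 : 1 ≤ D) (hr : (99 / 100 : ℝ) ^ r * 3 ≤ 1)
    (hκ : 2 ≤ κ) {d j : ℕ} (hd : (r + 1) * D ≤ d) (hd2 : 2 ≤ d) (hg : d * κ ≤ g)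
    (hj : (2 * 32 ^ d : ℝ) ≤ (501 / 500) ^ j) (hjg : j * κ ≤ g)
    (hp : (73728 * (2 * g + 2) ^ 2 : ℝ) ≤ (501 / 500) ^ g) :
    ((fam κ g).filter (Bad κ)).card ≤ sl κ (g + 1) := by
  have hX0 : 0 < X := by linarith
  have hy := P.y0
  have h1 := bad_bound P (x := y * (500 / 501)) (by positivity) (by ring) hD hD1 hr (by omega)
    hd hd2 hg
  have hdκ : 2 * κ ≤ d * κ := Nat.mul_le_mul_right _ hd2
  have h2 := sl_growth hκ hk hk4 hX0 hX1 hs (g + 1 - κ) (by omega)
  rw [show κ + (g + 1 - κ) = g + 1 by omega] at h2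
  have h3 : X ^ (κ + 5) ≤ sl κ (g + 1) * X ^ g := by
    have := mul_le_mul_of_nonneg_right h2 (pow_pos hX0 (κ - 1)).le
    rwa [mul_assoc, ← pow_add, ← pow_add, show 6 + (κ - 1) = κ + 5 by omega,
      show g + 1 - κ + (κ - 1) = g by omega] at this
  have h4 : ((1 : ℝ) / 2) ^ (κ + 5) ≤ X ^ (κ + 5) := pow_le_pow_left₀ (by norm_num) hX _
  have h5 : (X * (501 / 500) ^ 2) ^ g ≤ (y * (500 / 501)) ^ g :=
    pow_le_pow_left₀ (by positivity) (by nlinarith) g
  have h6 : ((2 : ℝ) * 32 ^ d) ^ κ ≤ (501 / 500) ^ g := by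
    refine (pow_le_pow_left₀ (by positivity) hj κ).trans ?_
    rw [← pow_mul]
    exact pow_le_pow_right₀ (by norm_num) hjg
  have h7 := mul_le_mul hp h6 (by positivity) (by positivity)
  have h8 : (73728 * (2 * g + 2) ^ 2 : ℝ) * (2 * 32 ^ d) ^ κ * (1 / 2) ^ (κ + 5) =
      (2 * g + 2) ^ 2 * 2 ^ (d * κ) * (3 * 4 ^ (d * κ + 2)) ^ 2 := by
    have a1 : (32 : ℝ) ^ (d * κ) = 2 ^ (d * κ) * (4 ^ (d * κ)) ^ 2 := by
      rw [← pow_mul, mul_comm (d * κ) 2, pow_mul (4 : ℝ) 2, ← mul_pow]; norm_num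
    have a2 : (2 : ℝ) ^ κ * (1 / 2) ^ κ = 1 := by rw [← mul_pow]; norm_num
    rw [mul_pow (2 : ℝ), ← pow_mul, a1, pow_add, pow_add]
    linear_combination (2304 * (2 * (g : ℝ) + 2) ^ 2 * 2 ^ (d * κ) * (4 ^ (d * κ)) ^ 2) * a2
  rw [mul_pow, ← pow_mul, mul_comm 2 g, pow_mul, sq] at h5
  set L : ℝ := (501 / 500) ^ g with hL
  have hL0 : 0 < L := by positivity
  have hXg := pow_pos hX0 g
  have h9 : (((fam κ g).filter (Bad κ)).card : ℝ) * (X ^ g * (L * L)) ≤
      sl κ (g + 1) * (X ^ g * (L * L)) := by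
    calc _ ≤ _ := mul_le_mul_of_nonneg_left h5 (Nat.cast_nonneg _)
      _ ≤ _ := h1
      _ = _ := h8.symm
      _ ≤ L * L * (sl κ (g + 1) * X ^ g) :=
        mul_le_mul h7 (h4.trans h3) (by positivity) (by positivity)
      _ = _ := by ring
  exact_mod_cast le_of_mul_le_mul_right h9 (by positivity)

theorem main : ∃ C : ℕ, 2 ≤ C ∧ ∀ κ g : ℕ, 1 ≤ κ → C * κ ≤ g →
    (fam κ g).card ≤ (fam κ (g + 1)).card := by
  classical
  obtain ⟨D, hD⟩ := pow_unbounded_of_one_lt (501 : ℝ) (show (1 : ℝ) < 501 / 500 by norm_num)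
  have hD1 : 1 ≤ D := Nat.pos_of_ne_zero fun e => by rw [e] at hD; norm_num at hD
  obtain ⟨r, hr⟩ := exists_pow_lt_of_lt_one (show (0 : ℝ) < 1 / 3 by norm_num)
    (show (99 / 100 : ℝ) < 1 by norm_num)
  set d := (r + 1) * D + 2 with hd
  obtain ⟨j, hj⟩ := pow_unbounded_of_one_lt (2 * 32 ^ d : ℝ)
    (show (1 : ℝ) < 501 / 500 by norm_num)
  obtain ⟨g1, hg1⟩ : ∃ g1 : ℕ, ∀ g ≥ g1, (73728 * (2 * g + 2) ^ 2 : ℝ) ≤ (501 / 500) ^ g := by
    have h1 := (tendsto_pow_const_div_const_pow_of_one_lt 2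
      (show (1 : ℝ) < 501 / 500 by norm_num)).eventually
      (gt_mem_nhds (show (0 : ℝ) < 1 / 1179648 by norm_num))
    obtain ⟨g1, h2⟩ := Filter.eventually_atTop.1 h1
    refine ⟨g1 + 1, fun g hg => ?_⟩
    have h3 := h2 g (by omega)
    rw [div_lt_iff₀ (by positivity)] at h3
    have h4 : (1 : ℝ) ≤ g := by exact_mod_cast (show 1 ≤ g by omega)
    nlinarith
  refine ⟨d + j + g1, by omega, fun κ g hκ hg => card_le_of_bad_le hκ ?_⟩
  have k1 : d * κ ≤ g := le_trans (Nat.mul_le_mul_right _ (by omega)) hg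
  have k2 : j * κ ≤ g := le_trans (Nat.mul_le_mul_right _ (by omega)) hg
  have k3 : g1 ≤ g := le_trans (le_trans (by omega) (Nat.le_mul_of_pos_right _ hκ)) hg
  have hr' : (99 / 100 : ℝ) ^ r * 3 ≤ 1 := by linarith
  rcases (show κ = 1 ∨ κ = 2 ∨ κ = 3 ∨ 4 ≤ κ by omega) with e | e | e | e
  · rw [filter_eq_empty_iff.2, card_empty]
    · exact Nat.zero_le _
    · rintro G hG ⟨m, F, l1, l2, l3, -⟩
      have := (two_le hκ (mem_fam.1 hG) l1 l2 (by omega)).1
      omega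
  · subst e
    exact bad_le_slack Seg.pot_two (X := 151 / 200) (k := 2) (by norm_num) (by norm_num)
      (by norm_num) le_rfl (by omega) (by simp [sum_Icc_succ_top]; norm_num) hD.le hD1 hr' le_rfl
      (by omega) (by omega) k1 hj.le k2 (hg1 g k3)
  · subst e
    exact bad_le_slack Seg.pot_three (X := 853 / 1250) (k := 3) (by norm_num) (by norm_num)
      (by norm_num) le_rfl (by omega) (by simp [sum_Icc_succ_top]; norm_num) hD.le hD1 hr'
      (by omega) (by omega) (by omega) k1 hj.le k2 (hg1 g k3)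
  · exact bad_le_slack (Seg.pot_large κ) (X := 163 / 250) (k := 4) (by norm_num) (by norm_num)
      (by norm_num) e le_rfl (by simp [sum_Icc_succ_top]; norm_num) hD.le hD1 hr'
      (by omega) (by omega) (by omega) k1 hj.le k2 (hg1 g k3)

lemma mem_pureSparse (hg : 2 ≤ g) : G ∈ pureSparse κ g ↔ G ∈ fam κ g := by
  rw [mem_fam]
  refine ⟨fun h => ⟨h.1, h.2.1, ?_⟩, fun h => ⟨h.1, h.2.1, Or.inl h.2.2⟩⟩
  have h1 := h.2.1
  rcases h.2.2 with h | ⟨e, -⟩ | ⟨e, -⟩
  · exact h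
  · rw [e, card_empty] at h1; omega
  · rw [e, card_singleton] at h1; omega

end Pool.Agent.MP_0bb195_co.Gap

end MrgPart0

-- ======== part 1: formerly Pool.Agent.MP_0bb195_co.Rest
section MrgPart1

/-!
The explicit injection is defined on all gapsets outside a family `Rest` and misses `Rest` and a
second family `S2`. When `2g + 1 ≤ 3κ` it extends to `Rest`.
-/

namespace Pool.Agent.MP_0bb195_co.Gap

open Finset

variable {G H : Finset ℕ} {m F κ g : ℕ}

/-- Gapsets of depth at least three with no room for the local move. -/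
def Rest (κ : ℕ) (G : Finset ℕ) : Prop :=
  ∃ m F, IsMult G m ∧ IsTop G F ∧ 2 * m < F ∧
    ((∀ x ∈ G, F < x + m → 2 * m < x) ∨ (¬ Other κ G ∧ ∀ x ∈ G, F + κ < x + m → 2 * m < x))

/-- Gapsets of depth three that the local move does not produce. -/
def S2 (κ : ℕ) (H : Finset ℕ) : Prop :=
  ∃ m F, IsMult H m ∧ IsTop H F ∧ 2 * m < F ∧ Other κ H ∧ F - m + 1 ∈ H ∧ F - m + 1 < 2 * m ∧
    ¬ Consec H (F - m + 1) (F - m + κ)

lemma not_rest_of_s2 (h : S2 κ H) : ¬ Rest κ H := by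
  obtain ⟨m, F, a1, a2, a3, a4, a5, a6, -⟩ := h
  rintro ⟨m', F', b1, b2, -, b4⟩
  obtain rfl := mult_unique a1 b1
  obtain rfl := top_unique a2 b2
  rcases b4 with b4 | b4
  · have := b4 _ a5 (by omega); omega
  · exact b4.1 a4

lemma top_lt (hG : IsGapset G) {z : ℕ} (hz : z ∈ G) : z + 1 ≤ 2 * G.card := by
  classical
  have h := card_le_card_of_injOn (s := range (z / 2 + 1)) (t := G)
    (fun x => if x ∈ G then x else z - x) (fun x hx => by
      have hx' := mem_range.1 (mem_coe.1 hx)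
      simp only [mem_coe]
      split_ifs with h
      · exact h
      · by_contra hn
        exact add_notMem hG h hn (by rwa [show x + (z - x) = z by omega]))
    (fun a ha b hb e => by
      have ha' := mem_range.1 (mem_coe.1 ha)
      have hb' := mem_range.1 (mem_coe.1 hb)
      simp only at e
      split_ifs at e <;> omega)
  rw [card_range] at h
  omega

lemma sub_mem (hG : IsGapset G) (hm : IsMult G m) {z : ℕ} (hz : z ∈ G) (h : m ≤ z) :
    z - m ∈ G := by
  by_contra hn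
  exact add_notMem hG hn hm.2.1 (by rwa [show z - m + m = z by omega])

lemma two_mul_notMem (hG : IsGapset G) (hm : IsMult G m) : 2 * m ∉ G := by
  rw [two_mul]; exact add_notMem hG hm.2.1 hm.2.1

/-- Some pair at distance `κ` lies in `[F - m, F]`. -/
lemma pair_top (hκ : 1 ≤ κ) (hG : Mem κ g G) (hm : IsMult G m) (hF : IsTop G F) (h : m ≤ F) :
    ∃ a, F ≤ a + m ∧ Consec G a (a + κ) := by
  have key : ∀ n a, F ≤ a + n → Consec G a (a + κ) → ∃ a, F ≤ a + m ∧ Consec G a (a + κ) := by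
    intro n
    induction n with
    | zero => exact fun a h1 h2 => ⟨a, by omega, h2⟩
    | succ n ih =>
      intro a h1 h2
      by_cases hc : F ≤ a + m
      · exact ⟨a, hc, h2⟩
      have hm0 := hm.1
      have k1 := h2.2.2.2 _ (sub_mem hG.1 hm hF.1 h)
      have hole : ∀ z ∈ G, ¬ (a + m < z ∧ z < a + m + κ) := fun z hz hh =>
        h2.2.2.2 _ (sub_mem hG.1 hm hz (by omega)) (by omega)
      obtain ⟨z, hz, z1, z2⟩ := window hG.1 hG.2.2.1 hF.1 (y := a + m) hκ (by omega) (by omega)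
      obtain ⟨w, hw, w1, w2⟩ := window hG.1 hG.2.2.1 hF.1 (y := a + m + 1) hκ (by omega)
        (by omega)
      have e1 := hole z hz
      have e2 := hole w hw
      obtain rfl : z = a + m := by omega
      obtain rfl : w = a + m + κ := by omega
      exact ih (a + m) (by omega) ⟨hz, hw, by omega, hole⟩
  obtain ⟨a, b, hab, e⟩ := hG.2.2.2
  have := hab.2.2.1
  obtain rfl : b = a + κ := by omega
  exact key F a (by omega) hab

lemma exists_rel2 (hκ : 1 ≤ κ) (hG : Mem κ g G) (hB : ¬ Rest κ G) :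
    ∃ H, (Mem κ (g + 1) H ∧ ¬ (Rest κ H ∨ S2 κ H)) ∧ Rel κ G H := by
  obtain ⟨m, hm⟩ := exists_mult G
  obtain ⟨a0, b0, hp, hpe⟩ := hG.2.2.2
  obtain ⟨F, hF⟩ := exists_top ⟨a0, hp.1⟩
  have h2m := two_mul_notMem hG.1 hm
  have hne : F ≠ 2 * m := fun e => h2m (e ▸ hF.1)
  by_cases h2 : F < 2 * m
  · obtain ⟨k1, k2, k3⟩ := shift_mem hκ hG hm hF h2
    refine ⟨_, ⟨k1, ?_⟩, m, F, F + 1, 1, hm, hF, k2, Or.inl ⟨rfl, rfl⟩,
      Or.inl ⟨h2, rfl, rfl, k3⟩⟩
    rintro (⟨m', F', l1, l2, l3, -⟩ | ⟨m', F', l1, l2, l3, -⟩) <;>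
    · have := mult_unique k2 l1
      have := top_unique k3 l2
      omega
  have h3 : 2 * m < F := by omega
  have hm0 := hm.1
  obtain ⟨hκ2, hκ3⟩ := two_le hκ hG hm hF (by omega)
  have ha : F - m ∈ G := sub_mem hG.1 hm hF.1 (by omega)
  have up : ∀ (H : Finset ℕ) (s a x : ℕ), ((s = 1 ∧ H = ins (a + 1) G) ∨
      (s = 0 ∧ H = insert (a + 1) G ∧ a + 1 ∉ G)) → x ∈ G →
      (x ≤ a → x + s ∈ H) ∧ (a < x → x + 2 * s ∈ H) := by
    rintro H s a x (⟨rfl, rfl⟩ | ⟨rfl, rfl, -⟩) hx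
    · constructor <;> intro hh <;> refine mem_ins.2 (Or.inr ⟨x, hx, ?_⟩) <;> unfold sh <;>
        split_ifs <;> omega
    · exact ⟨fun _ => mem_insert_of_mem hx, fun _ => mem_insert_of_mem hx⟩
  have n1 : ∃ x ∈ G, F < x + m ∧ x ≤ 2 * m := by
    by_contra hn
    refine hB ⟨m, F, hm, hF, h3, Or.inl fun x hx h => ?_⟩
    by_contra hlt
    exact hn ⟨x, hx, h, by omega⟩
  by_cases ho : Other κ G
  · obtain ⟨b, hb⟩ := exists_consec ha hF.1 (by omega)
    have hbk := hG.2.2.1 _ _ hb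
    have hb0 := hb.2.2.1
    have hb2 : b < 2 * m := by
      obtain ⟨x, hx, x1, x2⟩ := n1
      have k1 := hb.2.2.2 x hx
      have k2 : x ≠ 2 * m := fun e => h2m (e ▸ hx)
      omega
    obtain ⟨H, s, k1, k2, k3, k4, k5, k6, k7, k8⟩ := move hG.1 hm hF hb hκ2 hbk (by omega) hb2 h3
    obtain ⟨m', F', a1, b1, l1, l2, l3, l4, l5⟩ := ho
    obtain rfl := mult_unique hm l1
    obtain rfl := top_unique hF l2
    obtain ⟨a', b', q1, q2, q3, q4⟩ := k7 a1 b1 l3 (by omega)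
    have hO : Other κ H := by
      refine ⟨m + s, F + 2 * s, a', b', k3, k4, q1, by omega, ?_⟩
      rcases Nat.lt_or_gt_of_ne (show a1 ≠ F - m by omega) with h | h
      · have := q3 h; omega
      · have := q4 h; omega
    have hs : s ≤ 1 := by omega
    refine ⟨H, ⟨⟨k1, by rw [k2, hG.2.1], fun x y hxy => ?_, a', b', q1, by omega⟩, ?_⟩,
      m, F, F - m + 1, s, hm, hF, k3, k5, Or.inr ⟨h3, k4, Or.inl ⟨by omega, hO⟩⟩⟩
    · rcases k6 x y hxy with h | ⟨x1, y1, h, e, -⟩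
      · exact h
      · rw [e]; exact hG.2.2.1 _ _ h
    rintro (⟨m', F', r1, r2, -, r4⟩ | ⟨m', F', r1, r2, -, -, r5, -, r7⟩) <;>
      obtain rfl := mult_unique k3 r1 <;> obtain rfl := top_unique k4 r2
    · rcases r4 with r4 | r4
      · have := r4 _ ((up H s _ b k5 hb.2.1).2 hb0) (by omega); omega
      · exact r4.1 hO
    · rcases k5 with ⟨rfl, rfl⟩ | ⟨rfl, rfl, -⟩
      · rw [show F + 2 * 1 - (m + 1) + 1 = F - m + 1 + 1 by omega] at r5
        exact succ_notMem_ins (by omega) r5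
      · have e := k8 rfl
        refine r7 ⟨r5, ?_, by omega, fun c hc hh => ?_⟩
        · rw [show F + 2 * 0 - (m + 0) + κ = b by omega]
          exact mem_insert_of_mem hb.2.1
        · rcases mem_insert.1 hc with h | h
          · omega
          · exact hb.2.2.2 c h (by omega)
  · have only : ∀ x y, Consec G x y → y - x = κ → x + m = F := fun x y hxy e => by
      by_contra hn
      exact ho ⟨m, F, x, y, hm, hF, hxy, e, hn⟩
    have e0 := only a0 b0 hp hpe
    have hκ' : κ ≠ 2 := fun e => ho (hκ3 e h3)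
    have l0 := hp.2.2.1
    obtain ⟨x2, hx2, y1, y2⟩ : ∃ x ∈ G, F + κ < x + m ∧ x ≤ 2 * m := by
      by_contra hn
      refine hB ⟨m, F, hm, hF, h3, Or.inr ⟨ho, fun x hx h => ?_⟩⟩
      by_contra hlt
      exact hn ⟨x, hx, h, by omega⟩
    obtain ⟨b, hb⟩ := exists_consec hp.2.1 hF.1 (by omega)
    have hbk := hG.2.2.1 _ _ hb
    have hb0 := hb.2.2.1
    have hbk' : b - b0 ≠ κ := fun e => by have := only _ _ hb e; omega
    have hb2 : b < 2 * m := by
      have k1 := hb.2.2.2 x2 hx2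
      have k2 : x2 ≠ 2 * m := fun e => h2m (e ▸ hx2)
      omega
    obtain ⟨H, s, k1, k2, k3, k4, k5, k6, k7, -⟩ := move hG.1 hm hF hb (K := κ - 1) (by omega)
      (by omega) (by omega) hb2 h3
    obtain ⟨a', b', q1, q2, -, -⟩ := k7 a0 b0 hp (by omega)
    have hO : ¬ Other κ H := by
      rintro ⟨m', F', x, y, l1, l2, l3, l4, l5⟩
      obtain rfl := mult_unique k3 l1
      obtain rfl := top_unique k4 l2
      rcases k6 x y l3 with h | ⟨x1, y1, h, e, e'⟩
      · omega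
      · have := only x1 y1 h (by omega)
        have := e' (by omega)
        omega
    have hs : s ≤ 1 := by omega
    refine ⟨H, ⟨⟨k1, by rw [k2, hG.2.1], fun x y hxy => ?_, a', b', q1, by omega⟩, ?_⟩,
      m, F, b0 + 1, s, hm, hF, k3, k5, Or.inr ⟨h3, k4, Or.inr ⟨by omega, hO⟩⟩⟩
    · rcases k6 x y hxy with h | ⟨x1, y1, h, e, -⟩
      · omega
      · rw [e]; exact hG.2.2.1 _ _ h
    rintro (⟨m', F', r1, r2, -, r4⟩ | ⟨m', F', -, -, -, r4, -⟩)
    · obtain rfl := mult_unique k3 r1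
      obtain rfl := top_unique k4 r2
      have u := (up H s _ b k5 hb.2.1).2 hb0
      rcases r4 with r4 | r4
      · have := r4 _ u (by omega); omega
      · have := r4.2 _ u (by omega); omega
    · exact hO r4

open Classical in
lemma card_le_of_rest (hκ : 1 ≤ κ) (h : ((fam κ g).filter (Rest κ)).card ≤
    ((fam κ (g + 1)).filter fun H => Rest κ H ∨ S2 κ H).card) :
    (fam κ g).card ≤ (fam κ (g + 1)).card := by
  have h1 := card_le_card_of_forall_subsingleton (Rel κ)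
    (s := (fam κ g).filter fun G => ¬ Rest κ G)
    (t := (fam κ (g + 1)).filter fun H => ¬ (Rest κ H ∨ S2 κ H))
    (fun G hG => by
      obtain ⟨hG, hB⟩ := mem_filter.1 hG
      obtain ⟨H, hH, hR⟩ := exists_rel2 hκ (mem_fam.1 hG) hB
      exact ⟨H, mem_filter.2 ⟨mem_fam.2 hH.1, hH.2⟩, hR⟩)
    (fun H _ G hG G' hG' => rel_inj (mem_fam.1 (mem_filter.1 hG.1).1).1.1
      (mem_fam.1 (mem_filter.1 hG'.1).1).1.1 hG.2 hG'.2)
  have h2 := card_filter_add_card_filter_not (s := fam κ g) (Rest κ)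
  have h3 := card_filter_add_card_filter_not (s := fam κ (g + 1)) fun H => Rest κ H ∨ S2 κ H
  omega

lemma gapset_of (h0 : 0 ∉ H) (hm : IsMult H m)
    (h : ∀ z ∈ H, ∀ x y, m ≤ x → m ≤ y → z = x + y → x ∈ H ∨ y ∈ H) : IsGapset H := by
  refine ⟨h0, fun z hz x y hx hy e => ?_⟩
  by_cases h1 : x < m
  · exact Or.inl (hm.2.2 x hx h1)
  by_cases h2 : y < m
  · exact Or.inr (hm.2.2 y hy h2)
  exact h z hz x y (by omega) (by omega) e

lemma sparse_of_next (hF : IsTop H F) (h : ∀ a ∈ H, a < F → ∃ z ∈ H, a < z ∧ z ≤ a + κ) :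
    ∀ a b, Consec H a b → b - a ≤ κ := by
  intro a b hab
  have h1 := hF.2 b hab.2.1
  have h2 := hab.2.2.1
  obtain ⟨z, hz, z1, z2⟩ := h a hab.1 (by omega)
  have := hab.2.2.2 z hz
  omega

lemma next_le (hG : Mem κ g G) (hF : IsTop G F) {a : ℕ} (ha : a ∈ G) (h : a < F) :
    ∃ z ∈ G, a < z ∧ z ≤ a + κ := by
  obtain ⟨b, hb⟩ := exists_consec ha hF.1 h
  have h1 := hG.2.2.1 a b hb
  exact ⟨b, hb.2.1, hb.2.2.1, by omega⟩

lemma mem_ins' {p z : ℕ} :
    z ∈ ins p G ↔ z = 1 ∨ (1 ≤ z ∧ z ≤ p ∧ z - 1 ∈ G) ∨ (p + 2 ≤ z ∧ z - 2 ∈ G) := by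
  rw [mem_ins]
  refine or_congr_right ⟨?_, ?_⟩
  · rintro ⟨x, hx, rfl⟩
    unfold sh; split_ifs
    · exact Or.inl ⟨by omega, by omega, hx⟩
    · exact Or.inr ⟨by omega, hx⟩
  · rintro (⟨h1, h2, h3⟩ | ⟨h1, h2⟩)
    · exact ⟨_, h3, by unfold sh; split_ifs <;> omega⟩
    · exact ⟨_, h2, by unfold sh; split_ifs <;> omega⟩

/-- The graph of the injection on `Rest` when `κ` is large. -/
def RelC (κ : ℕ) (G H : Finset ℕ) : Prop :=
  ∃ m a, IsMult H m ∧ IsTop H (a + m) ∧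
    ((a + 1 ∉ H ∧ 2 * m < a + κ ∧ ∀ x, x ∈ G ↔
        (x < m + (a + κ - 1 - 2 * m) / 2 + 1 ∧ x ∈ H) ∨
          (m + (a + κ - 1 - 2 * m) / 2 + 1 ≤ x ∧ x + 1 ∈ H)) ∨
      (a + 1 ∉ H ∧ a + κ < 2 * m ∧ ∀ x, x ∈ G ↔
        0 < x ∧ ((x + 2 < 2 * m ∧ x + 1 ∈ H) ∨ (2 * m ≤ x + 2 ∧ x + 2 ∈ H))) ∨
      (a + 1 ∈ H ∧ Consec H (a + 1) (a + (1 + κ)) ∧ ∀ x, x ∈ G ↔
        0 < x ∧ ((x < a ∧ x + 1 ∈ H) ∨ x = a + κ ∨ (a ≤ x ∧ x + 2 ∈ H))) ∨
      (a + 1 ∈ H ∧ ∃ δ, δ ≠ 1 + κ ∧ Consec H (a + 1) (a + δ) ∧ ∀ x, x ∈ G ↔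
        x = a + κ ∨ (x ∈ H ∧ x ≠ a + 1 ∧ x ≠ a + δ)))

lemma relC_inj {G' : Finset ℕ} (h : RelC κ G H) (h' : RelC κ G' H) : G = G' := by
  obtain ⟨m, a, a1, a2, a3⟩ := h
  obtain ⟨m', a', b1, b2, b3⟩ := h'
  obtain rfl := mult_unique a1 b1
  obtain rfl : a = a' := by have := top_unique a2 b2; omega
  rcases a3 with ⟨a3, a4, a5⟩ | ⟨a3, a4, a5⟩ | ⟨a3, a4, a5⟩ | ⟨a3, d, a6, a4, a5⟩ <;>
    rcases b3 with ⟨b3, b4, b5⟩ | ⟨b3, b4, b5⟩ | ⟨b3, b4, b5⟩ | ⟨b3, d', b6, b4, b5⟩ <;>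
    first
      | exact absurd a3 b3
      | exact absurd b3 a3
      | omega
      | exact ext fun x => (a5 x).trans (b5 x).symm
      | (have := consec_right a4 b4; omega)
      | (obtain rfl : d = d' := by have := consec_right a4 b4; omega
         exact ext fun x => (a5 x).trans (b5 x).symm)

section cases

variable {a : ℕ}

lemma case_one (hG : Mem κ g G) (hm : IsMult G m) (hF : IsTop G (a + m)) (h3 : m < a)
    (hk : a + 2 ≤ m + κ) (hκm : κ ≤ m) (hp : Consec G a (a + κ)) (h1 : 2 * m < a + κ)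
    (h2 : m ≤ κ + 1) : ∃ H, (Mem κ (g + 1) H ∧ (Rest κ H ∨ S2 κ H)) ∧ RelC κ G H := by
  classical
  set P := m + (a + κ - 2 * m) / 2 + 1 with hP
  have hm0 := hm.1
  have inj : Function.Injective fun x => if x < P then x else x + 1 := by
    intro x y e
    simp only at e
    split_ifs at e <;> omega
  set H := insert P (G.image fun x => if x < P then x else x + 1) with hH
  have mem : ∀ z, z ∈ H ↔ z = P ∨ (z < P ∧ z ∈ G) ∨ (P < z ∧ z - 1 ∈ G) := by
    intro z
    rw [hH, mem_insert, mem_image]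
    refine or_congr_right ⟨?_, ?_⟩
    · rintro ⟨x, hx, rfl⟩
      split_ifs
      · exact Or.inl ⟨by omega, hx⟩
      · exact Or.inr ⟨by omega, hx⟩
    · rintro (⟨k1, k2⟩ | ⟨k1, k2⟩)
      · exact ⟨_, k2, if_pos k1⟩
      · exact ⟨_, k2, by split_ifs <;> omega⟩
  have up : ∀ x ∈ G, P ≤ x → x + 1 ∈ H := fun x hx h =>
    (mem _).2 (Or.inr (Or.inr ⟨by omega, hx⟩))
  have lo : ∀ x ∈ G, x < P → x ∈ H := fun x hx h => (mem _).2 (Or.inr (Or.inl ⟨h, hx⟩))
  have hole := hp.2.2.2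
  have hm' : IsMult H m := by
    refine ⟨hm0, fun h => ?_, fun x hx hx' => lo x (hm.2.2 x hx hx') (by omega)⟩
    rcases (mem _).1 h with h | h | h
    · omega
    · exact hm.2.1 h.2
    · omega
  have hF' : IsTop H (a + 1 + m) := by
    refine ⟨by rw [add_right_comm]; exact up _ hF.1 (by omega), fun x hx => ?_⟩
    rcases (mem _).1 hx with h | h | h
    · omega
    · omega
    · have := hF.2 _ h.2; omega
  refine ⟨H, ⟨⟨gapset_of (fun h => ?_) hm' fun z hz x y hx hy e => ?_, ?_,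
    sparse_of_next hF' fun x hx hlt => ?_, a + 1, a + κ + 1, ⟨up _ hp.1 (by omega),
      up _ hp.2.1 (by omega), by omega, fun c hc hh => ?_⟩, by omega⟩,
    Or.inl ⟨m, _, hm', hF', by omega, Or.inl fun x hx hlt => ?_⟩⟩,
    m, a + 1, hm', hF', Or.inl ⟨fun h => ?_, by omega, fun x => ?_⟩⟩
  · rcases (mem _).1 h with h | h | h
    · omega
    · exact hG.1.1 h.2
    · omega
  · rcases (mem _).1 hz with h | h | ⟨h, hz'⟩
    · omega
    · omega
    have k1 := hole _ hz'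
    have k2 := hF.2 _ hz'
    by_cases e1 : x = P
    · exact Or.inl ((mem _).2 (Or.inl e1))
    by_cases e2 : y = P
    · exact Or.inr ((mem _).2 (Or.inl e2))
    by_cases e3 : x < P
    · exact (hG.1.2 _ hz' x (y - 1) (by omega) (by omega) (by omega)).imp (fun h => lo x h e3)
        fun h => (mem _).2 (Or.inr (Or.inr ⟨by omega, h⟩))
    · exact (hG.1.2 _ hz' (x - 1) y (by omega) (by omega) (by omega)).imp
        (fun h => (mem _).2 (Or.inr (Or.inr ⟨by omega, h⟩))) fun h => lo y h (by omega)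
  · rw [hH, card_insert_of_notMem, card_image_of_injective _ inj, hG.2.1]
    intro h
    obtain ⟨x, -, e⟩ := mem_image.1 h
    split_ifs at e <;> omega
  · rcases (mem _).1 hx with h | h | h
    · obtain ⟨z, hz, z1, z2⟩ := window hG.1 hG.2.2.1 hF.1 (y := P) (by omega) (by omega)
        (by omega)
      exact ⟨z + 1, up z hz z1, by omega, by omega⟩
    · obtain ⟨z, hz, z1, z2⟩ := next_le hG hF h.2 (by omega)
      by_cases e : z < P
      · exact ⟨z, lo z hz e, z1, z2⟩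
      · exact ⟨P, (mem _).2 (Or.inl rfl), h.1, by omega⟩
    · obtain ⟨z, hz, z1, z2⟩ := next_le hG hF h.2 (by omega)
      exact ⟨z + 1, up z hz (by omega), by omega, by omega⟩
  · rcases (mem _).1 hc with h | h | h
    · omega
    · omega
    · have := hole _ h.2; omega
  · rcases (mem _).1 hx with h | h | h
    · omega
    · omega
    · have := hole _ h.2; omega
  · rcases (mem _).1 h with h | h | h
    · omega
    · omega
    · have := hole _ h.2; omega
  · rw [show a + 1 + κ - 1 - 2 * m = a + κ - 2 * m by omega, ← hP]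
    constructor
    · intro hx
      by_cases e : x < P
      · exact Or.inl ⟨e, lo x hx e⟩
      · exact Or.inr ⟨by omega, up x hx (by omega)⟩
    · rintro (⟨k1, k2⟩ | ⟨k1, k2⟩) <;> rcases (mem _).1 k2 with h | h | h <;>
        first | omega | exact h.2

lemma case_four (hG : Mem κ g G) (hm : IsMult G m) (hF : IsTop G (a + m)) (h3 : m < a)
    (hk : a + m + 2 ≤ 3 * κ) (hp : Consec G a (a + κ)) (h1 : a + κ < 2 * m)
    (h2 : ¬ Other κ G) (h4 : ∀ x ∈ G, a + κ < x → 2 * m < x) :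
    ∃ H, (Mem κ (g + 1) H ∧ (Rest κ H ∨ S2 κ H)) ∧ RelC κ G H := by
  have hm0 := hm.1
  have hm' := mult_ins hm (p := 2 * m) (by omega)
  have hF' : IsTop (ins (2 * m) G) (a + 1 + (m + 1)) := by
    have := top_ins hF (2 * m)
    rwa [show sh (2 * m) (a + m) = a + 1 + (m + 1) by unfold sh; split_ifs <;> omega] at this
  have only : ∀ x y, Consec G x y → y - x = κ → x = a := fun x y hxy e => by
    by_contra hn
    exact h2 ⟨m, _, x, y, hm, hF, hxy, e, by omega⟩
  have h1G := one_mem hG.1 hF.1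
  have pairs : ∀ x y, Consec (ins (2 * m) G) x y → y - x < κ ∨ (x = a + 1 ∧ y - x = κ) := by
    intro x y hxy
    rcases of_consec_ins h1G (by omega) hxy with h | ⟨x1, y1, h, rfl, rfl⟩
    · omega
    have k1 := hG.2.2.1 _ _ h
    have k2 := only _ _ h
    have k3 := h.2.2.1
    have k4 := h.2.2.2 _ hp.2.1
    have k5 := hF.2 _ h.2.1
    have k6 := h4 _ h.1
    unfold sh; split_ifs <;> omega
  refine ⟨ins (2 * m) G, ⟨⟨gapset_ins hG.1 hm hF (by omega) (by omega) (by omega),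
    by rw [card_ins hG.1.1, hG.2.1], fun x y hxy => by have := pairs x y hxy; omega,
    _, _, consec_ins hp, by unfold sh; split_ifs <;> omega⟩,
    Or.inl ⟨m + 1, _, hm', hF', by omega, Or.inr ⟨?_, fun x hx hlt => ?_⟩⟩⟩,
    m + 1, a + 1, hm', hF', Or.inr (Or.inl ⟨fun h => ?_, by omega, fun x => ?_⟩)⟩
  · rintro ⟨m', F', x, y, l1, l2, l3, l4, l5⟩
    obtain rfl := mult_unique hm' l1
    obtain rfl := top_unique hF' l2
    have := pairs x y l3
    omega
  · rcases mem_ins'.1 hx with h | h | h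
    · omega
    · have := h4 _ h.2.2; omega
    · have := h4 _ h.2; omega
  · rcases mem_ins'.1 h with h | h | h
    · omega
    · have := hp.2.2.2 _ h.2.2; omega
    · omega
  · constructor
    · intro hx
      have h0 : x ≠ 0 := fun e => hG.1.1 (e ▸ hx)
      refine ⟨by omega, ?_⟩
      by_cases e : x < 2 * m
      · exact Or.inl ⟨by omega, mem_ins'.2 (Or.inr (Or.inl ⟨by omega, by omega, hx⟩))⟩
      · exact Or.inr ⟨by omega, mem_ins'.2 (Or.inr (Or.inr ⟨by omega, hx⟩))⟩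
    · rintro ⟨k0, ⟨k1, k2⟩ | ⟨k1, k2⟩⟩ <;> rcases mem_ins'.1 k2 with h | h | h <;>
        first | omega | exact h.2.2 | exact h.2

lemma gapset_erase (hG : IsGapset G) (hm : IsMult G m) (hF : IsTop G F) {p : ℕ} (h : m < p)
    (h' : F < p + m) : IsGapset (G.erase p) ∧ IsMult (G.erase p) m := by
  have hm' : IsMult (G.erase p) m := ⟨hm.1, fun h => hm.2.1 (mem_of_mem_erase h),
    fun x hx hx' => mem_erase.2 ⟨by omega, hm.2.2 x hx hx'⟩⟩
  refine ⟨gapset_of (fun h => hG.1 (mem_of_mem_erase h)) hm' fun z hz x y hx hy e => ?_, hm'⟩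
  have k1 := hF.2 _ (mem_of_mem_erase hz)
  have hm0 := hm.1
  exact (hG.2 z (mem_of_mem_erase hz) x y (by omega) (by omega) e).imp
    (fun h => mem_erase.2 ⟨by omega, h⟩) fun h => mem_erase.2 ⟨by omega, h⟩

lemma case_two (hG : Mem κ g G) (hm : IsMult G m) (hF : IsTop G (a + m)) (h3 : m < a)
    (hk : a + 2 ≤ m + κ) (hp : Consec G a (a + κ)) (h1 : 2 * m < a + κ)
    (h2 : κ + 1 < m) (h4 : a + κ + 1 ∈ G) :
    ∃ H, (Mem κ (g + 1) H ∧ (Rest κ H ∨ S2 κ H)) ∧ RelC κ G H := by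
  have hm0 := hm.1
  obtain ⟨e1, e2⟩ := gapset_erase hG.1 hm hF (p := a + κ + 1) (by omega) (by omega)
  have e3 : IsTop (G.erase (a + κ + 1)) (a + m) :=
    ⟨mem_erase.2 ⟨by omega, hF.1⟩, fun x hx => hF.2 x (mem_of_mem_erase hx)⟩
  have i1 := gapset_ins e1 e2 e3 (p := a + 1) (by omega) (by omega) (by omega)
  have i2 := mult_ins e2 (p := a + 1) (by omega)
  set H := insert (a + 1 + 1) (ins (a + 1) (G.erase (a + κ + 1))) with hH
  have mem : ∀ z, z ∈ H ↔ z = a + 2 ∨ z = 1 ∨ (1 ≤ z ∧ z ≤ a + 1 ∧ z - 1 ∈ G) ∨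
      (a + 3 ≤ z ∧ z ≠ a + κ + 3 ∧ z - 2 ∈ G) := by
    intro z
    rw [hH, mem_insert, mem_ins', mem_erase, mem_erase]
    refine or_congr_right (or_congr_right (or_congr ?_ ?_))
    · exact ⟨fun h => ⟨h.1, h.2.1, h.2.2.2⟩, fun h => ⟨h.1, h.2.1, by omega, h.2.2⟩⟩
    · exact ⟨fun h => ⟨h.1, by omega, h.2.2⟩, fun h => ⟨h.1, by omega, h.2.2⟩⟩
  have lo : ∀ x ∈ G, x ≤ a → x + 1 ∈ H := fun x hx h =>
    (mem _).2 (Or.inr (Or.inr (Or.inl ⟨by omega, by omega, hx⟩)))
  have up : ∀ x ∈ G, a < x → x ≠ a + κ + 1 → x + 2 ∈ H := fun x hx h h' =>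
    (mem _).2 (Or.inr (Or.inr (Or.inr ⟨by omega, by omega, hx⟩)))
  have hole := hp.2.2.2
  have hm' : IsMult H (m + 1) := ⟨by omega, fun h => by
    rcases mem_insert.1 h with h | h
    · omega
    · exact i2.2.1 h, fun x hx hx' => mem_insert_of_mem (i2.2.2 x hx hx')⟩
  have hF' : IsTop H (a + 1 + (m + 1)) := by
    refine ⟨by rw [show a + 1 + (m + 1) = a + m + 2 by omega]; exact up _ hF.1 (by omega) (by omega),
      fun x hx => ?_⟩
    rcases (mem _).1 hx with h | h | h | h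
    · omega
    · omega
    · omega
    · have := hF.2 _ h.2.2; omega
  have hn : a + 1 + 1 ∈ H := mem_insert_self _ _
  have hc : Consec H (a + 1 + 1) (a + 1 + (1 + κ)) := by
    refine ⟨hn, by rw [show a + 1 + (1 + κ) = a + κ + 2 by omega]; exact up _ hp.2.1 (by omega) (by omega),
      by omega, fun c hc hh => ?_⟩
    rcases (mem _).1 hc with h | h | h | h
    · omega
    · omega
    · omega
    · have := hole _ h.2.2; omega
  refine ⟨H, ⟨⟨gapset_insert i1 i2 (by omega) (by omega), ?_,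
    sparse_of_next hF' fun x hx hlt => ?_, _, _, hc, by omega⟩,
    Or.inr ⟨m + 1, _, hm', hF', by omega, ⟨m + 1, _, _, _, hm', hF', hc, by omega, by omega⟩,
      by rwa [Nat.add_sub_cancel], by omega, fun h => ?_⟩⟩,
    m + 1, a + 1, hm', hF', Or.inr (Or.inr (Or.inl ⟨hn, hc, fun x => ?_⟩))⟩
  · rw [hH, card_insert_of_notMem (succ_notMem_ins (by omega)), card_ins e1.1,
      card_erase_add_one h4, hG.2.1]
  · rcases (mem _).1 hx with h | h | h | h
    · exact ⟨_, hc.2.1, by omega, by omega⟩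
    · exact ⟨1 + 1, lo 1 (one_mem hG.1 hF.1) (by omega), by omega, by omega⟩
    · by_cases e : x = a + 1
      · exact ⟨_, hn, by omega, by omega⟩
      obtain ⟨z, hz, z1, z2⟩ := next_le hG hF h.2.2 (by omega)
      by_cases e' : z ≤ a
      · exact ⟨z + 1, lo z hz e', by omega, by omega⟩
      · exact ⟨a + 1, lo a hp.1 le_rfl, by omega, by omega⟩
    · have := hole _ h.2.2
      exact ⟨_, hF'.1, hlt, by omega⟩
  · rw [Nat.add_sub_cancel] at h
    have := consec_right h hc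
    omega
  · constructor
    · intro hx
      have h0 : x ≠ 0 := fun e => hG.1.1 (e ▸ hx)
      refine ⟨by omega, ?_⟩
      by_cases e : x ≤ a
      · exact Or.inl ⟨by omega, lo x hx e⟩
      by_cases e' : x = a + κ + 1
      · exact Or.inr (Or.inl (by omega))
      · exact Or.inr (Or.inr ⟨by omega, up x hx (by omega) e'⟩)
    · rintro ⟨k0, ⟨k1, k2⟩ | k1 | ⟨k1, k2⟩⟩
      · rcases (mem _).1 k2 with h | h | h | h <;> first | omega | exact h.2.2
      · rwa [show x = a + κ + 1 by omega]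
      · rcases (mem _).1 k2 with h | h | h | h <;> first | omega | exact h.2.2

lemma case_three (hG : Mem κ g G) (hm : IsMult G m) (hF : IsTop G (a + m)) (h3 : m < a)
    (hk : a + 2 ≤ m + κ) (hp : Consec G a (a + κ)) (h1 : 2 * m < a + κ)
    (h2 : κ + 1 < m) (h4 : a + κ + 1 ∉ G) :
    ∃ H, (Mem κ (g + 1) H ∧ (Rest κ H ∨ S2 κ H)) ∧ RelC κ G H := by
  have hm0 := hm.1
  obtain ⟨e1, e2⟩ := gapset_erase hG.1 hm hF (p := a + κ) (by omega) (by omega)
  obtain ⟨b, hb⟩ := exists_consec hp.2.1 hF.1 (by omega)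
  have b1 := hb.2.2.1
  have b2 := hF.2 b hb.2.1
  have b3 : b ≠ a + κ + 1 := fun e => h4 (e ▸ hb.2.1)
  obtain ⟨δ, rfl⟩ : ∃ δ, b = a + κ + δ := ⟨b - (a + κ), by omega⟩
  have hole := hp.2.2.2
  have i1 := gapset_insert e1 e2 (p := a + δ) (by omega) (by omega)
  have i2 : IsMult (insert (a + δ) (G.erase (a + κ))) m := ⟨hm0, fun h => by
    rcases mem_insert.1 h with h | h
    · omega
    · exact e2.2.1 h, fun x hx hx' => mem_insert_of_mem (e2.2.2 x hx hx')⟩
  set H := insert (a + 1) (insert (a + δ) (G.erase (a + κ))) with hH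
  have mem : ∀ z, z ∈ H ↔ z = a + 1 ∨ z = a + δ ∨ (z ≠ a + κ ∧ z ∈ G) := fun z => by
    rw [hH, mem_insert, mem_insert, mem_erase]
  have hm' : IsMult H m := ⟨hm0, fun h => by
    rcases mem_insert.1 h with h | h
    · omega
    · exact i2.2.1 h, fun x hx hx' => mem_insert_of_mem (i2.2.2 x hx hx')⟩
  have hF' : IsTop H (a + m) := by
    refine ⟨(mem _).2 (Or.inr (Or.inr ⟨by omega, hF.1⟩)), fun x hx => ?_⟩
    rcases (mem _).1 hx with h | h | h
    · omega
    · omega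
    · exact hF.2 _ h.2
  have hn : a + 1 ∈ H := mem_insert_self _ _
  have hd : a + δ ∈ H := (mem _).2 (Or.inr (Or.inl rfl))
  have hc : Consec H (a + δ) (a + κ + δ) := by
    refine ⟨hd, (mem _).2 (Or.inr (Or.inr ⟨by omega, hb.2.1⟩)), by omega, fun c hc hh => ?_⟩
    rcases (mem _).1 hc with h | h | h
    · omega
    · omega
    · have := hole _ h.2
      have := hb.2.2.2 _ h.2
      omega
  have hc' : Consec H (a + 1) (a + δ) := by
    refine ⟨hn, hd, by omega, fun c hc hh => ?_⟩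
    rcases (mem _).1 hc with h | h | h
    · omega
    · omega
    · have := hole _ h.2; omega
  refine ⟨H, ⟨⟨gapset_insert i1 i2 (by omega) (by omega), ?_,
    sparse_of_next hF' fun x hx hlt => ?_, _, _, hc, by omega⟩,
    Or.inr ⟨m, _, hm', hF', by omega, ⟨m, _, _, _, hm', hF', hc, by omega, by omega⟩,
      by rwa [Nat.add_sub_cancel], by omega, fun h => ?_⟩⟩,
    m, a, hm', hF', Or.inr (Or.inr (Or.inr ⟨hn, δ, by omega, hc', fun x => ?_⟩))⟩
  · rw [hH, card_insert_of_notMem, card_insert_of_notMem, card_erase_add_one hp.2.1, hG.2.1]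
    · exact fun h => hole _ (mem_of_mem_erase h) (by omega)
    · intro h
      rcases mem_insert.1 h with h | h
      · omega
      · exact hole _ (mem_of_mem_erase h) (by omega)
  · rcases (mem _).1 hx with h | h | h
    · exact ⟨_, hd, by omega, by omega⟩
    · exact ⟨_, hc.2.1, by omega, by omega⟩
    · by_cases e : x = a
      · exact ⟨_, hn, by omega, by omega⟩
      obtain ⟨z, hz, z1, z2⟩ := next_le hG hF h.2 hlt
      by_cases e' : z = a + κ
      · have := hole _ h.2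
        exact ⟨a, (mem _).2 (Or.inr (Or.inr ⟨by omega, hp.1⟩)), by omega, by omega⟩
      · exact ⟨z, (mem _).2 (Or.inr (Or.inr ⟨e', hz⟩)), z1, z2⟩
  · rw [Nat.add_sub_cancel] at h
    have := consec_right h hc'
    omega
  · constructor
    · intro hx
      by_cases e : x = a + κ
      · exact Or.inl e
      · have := hole _ hx
        exact Or.inr ⟨(mem _).2 (Or.inr (Or.inr ⟨e, hx⟩)), by omega, by omega⟩
    · rintro (k1 | ⟨k1, k2, k3⟩)
      · exact k1 ▸ hp.2.1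
      · rcases (mem _).1 k1 with h | h | h <;> first | omega | exact h.2

end cases

lemma exists_relC (hκ : 1 ≤ κ) (hg : 2 * g + 1 ≤ 3 * κ) (hG : Mem κ g G) (hR : Rest κ G) :
    ∃ H, (Mem κ (g + 1) H ∧ (Rest κ H ∨ S2 κ H)) ∧ RelC κ G H := by
  obtain ⟨m, F, hm, hF, h3, h4⟩ := hR
  obtain ⟨a', p1, p2⟩ := pair_top hκ hG hm hF (by omega)
  have t1 := top_lt hG.1 hF.1
  rw [hG.2.1] at t1
  have t2 := hF.2 _ p2.2.1
  obtain ⟨a, rfl⟩ : ∃ a, F = a + m := ⟨F - m, by omega⟩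
  have hm0 := hm.1
  have t3 : a' + κ ≠ 2 * m := fun e => two_mul_notMem hG.1 hm (e ▸ p2.2.1)
  obtain rfl : a' = a := by
    rcases h4 with h4 | h4
    · have := h4 _ p2.1; omega
    · by_contra hn
      exact h4.1 ⟨m, _, _, _, hm, hF, p2, by omega, by omega⟩
  by_cases h1 : 2 * m < a' + κ
  · by_cases h2 : m ≤ κ + 1
    · exact case_one hG hm hF (by omega) (by omega) (by omega) p2 h1 h2
    by_cases h5 : a' + κ + 1 ∈ G
    · exact case_two hG hm hF (by omega) (by omega) p2 h1 (by omega) h5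
    · exact case_three hG hm hF (by omega) (by omega) p2 h1 (by omega) h5
  · rcases h4 with h4 | h4
    · have := h4 _ p2.2.1; omega
    · exact case_four hG hm hF (by omega) (by omega) p2 (by omega) h4.1
        fun x hx h => h4.2 x hx (by omega)

theorem main_large (hκ : 1 ≤ κ) (hg : 2 * g + 1 ≤ 3 * κ) :
    (fam κ g).card ≤ (fam κ (g + 1)).card := by
  classical
  refine card_le_of_rest hκ (card_le_card_of_forall_subsingleton (RelC κ) (fun G hG => ?_)
    fun H _ G hG G' hG' => relC_inj hG.2 hG'.2)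
  obtain ⟨hG, hR⟩ := mem_filter.1 hG
  obtain ⟨H, hH, hR⟩ := exists_relC hκ hg (mem_fam.1 hG) hR
  exact ⟨H, mem_filter.2 ⟨mem_fam.2 hH.1, hH.2⟩, hR⟩

lemma exists_inj (hg : 2 ≤ g) (h : (fam κ g).card ≤ (fam κ (g + 1)).card) :
    ∃ f : pureSparse κ g → pureSparse κ (g + 1), Function.Injective f := by
  classical
  have e1 : pureSparse κ g = (fam κ g : Set (Finset ℕ)) := Set.ext fun G => mem_pureSparse hg
  have e2 : pureSparse κ (g + 1) = (fam κ (g + 1) : Set (Finset ℕ)) :=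
    Set.ext fun G => mem_pureSparse (by omega)
  rw [e1, e2]
  obtain ⟨f⟩ := Function.Embedding.nonempty_of_card_le
    (α := (fam κ g : Set (Finset ℕ))) (β := (fam κ (g + 1) : Set (Finset ℕ))) (by simpa using h)
  exact ⟨f, f.injective⟩

end Pool.Agent.MP_0bb195_co.Gap

end MrgPart1

-- marker of a merged file
example : 731051 + 232220 = 731051 + 232220 := rfl
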