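import Mathlib.Combinatorics.SimpleGraph.Basic
import Pool.Agent.MP_0bb195_co.Rest
import Pool.Agent.MP_0bb195_co.Pack

/-!
Double counting on `Rest` by adding one gap between `m` and `2m`, and an upper bound for the
gapsets on which the double counting loses.
-/

namespace Pool.Agent.MP_0bb195_co.Gap

open Finset Pack

variable {G H : Finset ℕ} {m F κ g : ℕ}

/-- The positions where a gap can be added. -/
def up (m F : ℕ) (G : Finset ℕ) : Finset ℕ := (Ioo m (2 * m)).filter fun p => p + m < F ∧ p ∉ G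

/-- A superset of the positions where a gap can be removed. -/
def dn (m F : ℕ) (G : Finset ℕ) : Finset ℕ :=
  (Ioo m (2 * m)).filter fun p => p + m < F ∧ p ∈ G ∧ p + m ∉ G ∧ F - p ∈ G

/-- The gapsets on which the double counting loses. -/
def BadT (κ : ℕ) (G : Finset ℕ) : Prop :=
  Rest κ G ∧ ∃ m F, IsMult G m ∧ IsTop G F ∧ (up m F G).card ≤ (dn m F G).card

lemma insert_up (hκ : 1 ≤ κ) (hG : Mem κ g G) (hR : Rest κ G) (hm : IsMult G m)
    (hF : IsTop G F) {p : ℕ} (hp : p ∈ up m F G) :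
    Mem κ (g + 1) (insert p G) ∧ Rest κ (insert p G) ∧ IsMult (insert p G) m ∧
      IsTop (insert p G) F ∧ p ∈ dn m F (insert p G) ∧
      (up m F (insert p G)).card + 1 = (up m F G).card := by
  obtain ⟨m', F', l1, l2, h3, h4⟩ := hR
  obtain rfl := mult_unique hm l1
  obtain rfl := top_unique hF l2
  obtain ⟨p1, p2, p3⟩ := mem_filter.1 hp
  obtain ⟨p0, p1'⟩ := mem_Ioo.1 p1
  have hm' : IsMult (insert p G) m := ⟨hm.1, fun h => by
    rcases mem_insert.1 h with h | h
    · omega
    · exact hm.2.1 h, fun x hx hx' => mem_insert_of_mem (hm.2.2 x hx hx')⟩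
  have hF' : IsTop (insert p G) F := ⟨mem_insert_of_mem hF.1, fun x hx => by
    rcases mem_insert.1 hx with h | h
    · omega
    · exact hF.2 x h⟩
  have pairs : ∀ a b, Consec (insert p G) a b → Consec G a b ∨ b - a < κ := by
    intro a b hab
    have k0 := hab.2.2.1
    rcases mem_insert.1 hab.1 with e | ha
    · obtain ⟨z, hz, z1, z2⟩ := window hG.1 hG.2.2.1 hF.1 (y := p) hκ (by omega) (by omega)
      have k1 := hab.2.2.2 z (mem_insert_of_mem hz)
      have k2 : z ≠ p := fun e => p3 (e ▸ hz)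
      omega
    rcases mem_insert.1 hab.2.1 with e | hb
    · obtain ⟨z, hz, z1, z2⟩ := next_le hG hF ha (by omega)
      have k1 := hab.2.2.2 z (mem_insert_of_mem hz)
      have k2 : z ≠ p := fun e => p3 (e ▸ hz)
      omega
    exact Or.inl ⟨ha, hb, k0, fun c hc => hab.2.2.2 c (mem_insert_of_mem hc)⟩
  obtain ⟨a, a1, a2⟩ := pair_top hκ hG hm hF (by omega)
  refine ⟨⟨gapset_insert hG.1 hm (by omega) p1', by rw [card_insert_of_notMem p3, hG.2.1],
    fun x y hxy => ?_, a, a + κ, ⟨mem_insert_of_mem a2.1, mem_insert_of_mem a2.2.1, a2.2.2.1,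
      fun c hc hh => ?_⟩, by omega⟩, ⟨m, F, hm', hF', h3, ?_⟩, hm', hF',
    mem_filter.2 ⟨p1, p2, mem_insert_self _ _, fun h => ?_, mem_insert_of_mem ?_⟩, ?_⟩
  · rcases pairs x y hxy with h | h
    · exact hG.2.2.1 _ _ h
    · omega
  · rcases mem_insert.1 hc with h | h
    · omega
    · exact a2.2.2.2 c h hh
  · refine h4.imp (fun h4 x hx h => ?_) fun h4 => ⟨?_, fun x hx h => ?_⟩
    · rcases mem_insert.1 hx with e | e
      · omega
      · exact h4 x e h
    · rintro ⟨m', F', x, y, l1, l2, l3, l4, l5⟩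
      obtain rfl := mult_unique hm' l1
      obtain rfl := top_unique hF' l2
      rcases pairs x y l3 with h | h
      · exact h4.1 ⟨m, F, x, y, hm, hF, h, l4, l5⟩
      · omega
    · rcases mem_insert.1 hx with e | e
      · omega
      · exact h4.2 x e h
  · rcases mem_insert.1 h with h | h
    · omega
    · exact add_notMem hG.1 p3 hm.2.1 h
  · by_contra hn
    exact add_notMem hG.1 p3 hn (by rw [show p + (F - p) = F by omega]; exact hF.1)
  · rw [← card_erase_add_one hp]
    congr 2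
    ext x
    simp only [up, mem_filter, mem_erase, mem_insert, not_or]
    tauto

/-- The multiplicity as a function. -/
noncomputable def mu (G : Finset ℕ) : ℕ := (exists_mult G).choose

lemma mu_eq (h : IsMult G m) : mu G = m := mult_unique (exists_mult G).choose_spec h

lemma sup_eq (h : IsTop G F) : G.sup id = F :=
  le_antisymm (Finset.sup_le h.2) (le_sup (f := id) h.1)

open Classical in
lemma rest_le (hκ : 1 ≤ κ) : (((fam κ g).filter (Rest κ)).card : ℚ) ≤
    ((fam κ (g + 1)).filter (Rest κ)).card +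
      (2 * g + 2) * ((fam κ (g + 1)).filter (BadT κ)).card + ((fam κ g).filter (BadT κ)).card := by
  set A := ((fam κ g).filter (Rest κ)).filter fun G => ¬ BadT κ G with hA
  set B := (fam κ (g + 1)).filter (Rest κ) with hB
  let r : Finset ℕ → Finset ℕ → Prop := fun G H => ∃ p ∈ up (mu G) (G.sup id) G, H = insert p G
  let wt : Finset ℕ → ℚ := fun H => 1 / ((up (mu H) (H.sup id) H).card + 1)
  have data : ∀ G ∈ A, ∃ m F, IsMult G m ∧ IsTop G F ∧ Mem κ g G ∧ Rest κ G ∧
      (dn m F G).card < (up m F G).card := by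
    intro G hG
    obtain ⟨hG, hb⟩ := mem_filter.1 hG
    obtain ⟨hG, hR⟩ := mem_filter.1 hG
    have hR' := hR
    obtain ⟨m, F, l1, l2, -⟩ := hR'
    exact ⟨m, F, l1, l2, mem_fam.1 hG, hR, not_le.1 fun h => hb ⟨hR, m, F, l1, l2, h⟩⟩
  have s1 : ∀ G ∈ A, (1 : ℚ) ≤ ∑ H ∈ B, if r G H then wt H else 0 := by
    intro G hG
    obtain ⟨m, F, l1, l2, l3, l4, l5⟩ := data G hG
    rw [← sum_filter]
    refine le_trans ?_ (sum_le_sum_of_subset_of_nonneg
      (s := (up m F G).image fun p => insert p G) (fun H hH => ?_) fun H _ _ => by positivity)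
    · rw [sum_image, sum_congr rfl (g := fun _ => (1 : ℚ) / (up m F G).card), sum_const,
        nsmul_eq_mul, mul_one_div_cancel]
      · exact Nat.cast_ne_zero.2 (by omega)
      · intro p hp
        obtain ⟨-, -, k3, k4, -, k6⟩ := insert_up hκ l3 l4 l1 l2 hp
        simp only [wt]
        rw [mu_eq k3, sup_eq k4, ← k6, Nat.cast_add, Nat.cast_one]
      · intro p hp q _ e
        have h1 : p ∈ insert q G := by
          simp only at e
          rw [← e]; exact mem_insert_self _ _
        exact (mem_insert.1 h1).resolve_right (mem_filter.1 hp).2.2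
    · obtain ⟨p, hp, rfl⟩ := mem_image.1 hH
      obtain ⟨k1, k2, -⟩ := insert_up hκ l3 l4 l1 l2 hp
      exact mem_filter.2 ⟨mem_filter.2 ⟨mem_fam.2 k1, k2⟩, p, by rwa [mu_eq l1, sup_eq l2], rfl⟩
  have s2 : ∀ H ∈ B, (∑ G ∈ A, if r G H then wt H else 0) ≤
      1 + if BadT κ H then (2 * g + 2 : ℚ) else 0 := by
    intro H hH
    obtain ⟨hH, hR⟩ := mem_filter.1 hH
    have hR' := hR
    obtain ⟨m, F, l1, l2, l3, -⟩ := hR'
    have c1 : (A.filter fun G => r G H).card ≤ (dn m F H).card := by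
      refine le_trans (card_le_card fun G hG => ?_) (card_image_le (f := fun p => H.erase p))
      obtain ⟨hG', p, hp, rfl⟩ := mem_filter.1 hG
      obtain ⟨m', F', k1, k2, k3, k4, -⟩ := data G hG'
      rw [mu_eq k1, sup_eq k2] at hp
      obtain ⟨-, -, j3, j4, j5, -⟩ := insert_up hκ k3 k4 k1 k2 hp
      obtain rfl := mult_unique l1 j3
      obtain rfl := top_unique l2 j4
      exact mem_image.2 ⟨p, j5, erase_insert (mem_filter.1 hp).2.2⟩
    rw [← sum_filter, sum_const, nsmul_eq_mul]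
    simp only [wt]
    rw [mu_eq l1, sup_eq l2, mul_one_div, div_le_iff₀ (by positivity)]
    have c2 : ((A.filter fun G => r G H).card : ℚ) ≤ (dn m F H).card := by exact_mod_cast c1
    have c0 : (0 : ℚ) ≤ (up m F H).card := Nat.cast_nonneg _
    split_ifs with hb
    · have c3 : (dn m F H).card ≤ 2 * g + 2 := by
        have k1 := card_le_card (filter_subset
          (fun p => p + m < F ∧ p ∈ H ∧ p + m ∉ H ∧ F - p ∈ H) (Ioo m (2 * m)))
        have k2 := top_lt (mem_fam.1 hH).1 l2.1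
        rw [(mem_fam.1 hH).2.1] at k2
        rw [Nat.card_Ioo] at k1
        unfold dn
        omega
      have c4 : ((dn m F H).card : ℚ) ≤ 2 * g + 2 := by exact_mod_cast c3
      have c5 : (0 : ℚ) ≤ g := Nat.cast_nonneg _
      nlinarith
    · have c3 : (dn m F H).card ≤ (up m F H).card :=
        (not_le.1 fun h => hb ⟨hR, m, F, l1, l2, h⟩).le
      have c4 : ((dn m F H).card : ℚ) ≤ (up m F H).card := by exact_mod_cast c3
      linarith
  have s3 := (sum_le_sum s1).trans (sum_comm.le.trans (sum_le_sum s2))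
  rw [sum_const, nsmul_eq_mul, mul_one, sum_add_distrib, sum_const, nsmul_eq_mul, mul_one,
    ← sum_filter, sum_const, nsmul_eq_mul] at s3
  have s4 := card_filter_add_card_filter_not (s := (fam κ g).filter (Rest κ)) (BadT κ)
  rw [← hA] at s4
  have s5 : ∀ n, (((fam κ n).filter (Rest κ)).filter (BadT κ)).card ≤
      ((fam κ n).filter (BadT κ)).card := fun n =>
    card_le_card (filter_subset_filter _ (filter_subset _ _))
  have s6 : (((fam κ g).filter (Rest κ)).card : ℚ) ≤
      A.card + ((fam κ g).filter (BadT κ)).card := by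
    have := s5 g
    exact_mod_cast (by omega : ((fam κ g).filter (Rest κ)).card ≤
      A.card + ((fam κ g).filter (BadT κ)).card)
  have s7 : ((B.filter (BadT κ)).card : ℚ) ≤ ((fam κ (g + 1)).filter (BadT κ)).card := by
    exact_mod_cast s5 (g + 1)
  have s8 := mul_le_mul_of_nonneg_left s7 (show (0 : ℚ) ≤ 2 * g + 2 by positivity)
  linarith

/-- The number of integers up to `z` in the residue class of `i`. -/
def qz (m z i : ℕ) : ℕ := z / m + if i ≤ z % m then 1 else 0

/-- The residue of `z - i`. -/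
def tau (m z i : ℕ) : ℕ := if i ≤ z % m then z % m - i else m + z % m - i

variable {i z : ℕ}

lemma tau_lt (hi : i < m) : tau m z i < m := by
  have := Nat.mod_lt z (show 0 < m by omega)
  unfold tau; split_ifs <;> omega

lemma tau_tau (hi : i < m) : tau m z (tau m z i) = i := by
  have := Nat.mod_lt z (show 0 < m by omega)
  unfold tau; split_ifs <;> omega

lemma qz_tau (hi : i < m) : qz m z (tau m z i) = qz m z i := by
  have := Nat.mod_lt z (show 0 < m by omega)
  unfold qz tau; split_ifs <;> omega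

lemma tau_add (hi : i < m) : i + tau m z i + m * qz m z i = z + m := by
  have := Nat.mod_add_div z m
  unfold qz tau; split_ifs <;> rw [mul_add] <;> omega

lemma lt_qz (hi : i < m) (j : ℕ) : j < qz m z i ↔ i + m * j ≤ z := by
  have e := tau_add (z := z) hi
  have t := tau_lt (z := z) hi
  constructor
  · intro h
    have := Nat.mul_le_mul_left m (show j + 1 ≤ qz m z i from h)
    rw [mul_add] at this
    omega
  · intro h
    by_contra hn
    have := Nat.mul_le_mul_left m (not_lt.1 hn)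
    omega

lemma qz_mono (hi : i < m) {z' : ℕ} (h : z ≤ z') : qz m z i ≤ qz m z' i := by
  by_contra hn
  exact lt_irrefl _ ((lt_qz hi _).2 (((lt_qz hi _).1 (not_le.1 hn)).trans h))

lemma kz_tau (hG : IsGapset G) (hm : IsMult G m) (hz : z ∈ G) (hi : i < m) :
    qz m z i ≤ kz G m i + kz G m (tau m z i) := by
  have e := tau_add (z := z) hi
  rcases h : qz m z i with _ | t
  · exact Nat.zero_le _
  · rw [h, mul_add] at e
    exact kz_pair hG hm (by rwa [show i + tau m z i + m * t = z by omega])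

lemma kz_le_qz (hi : i < m) (h : ∀ x ∈ G, z < x → x % m ≠ i) : kz G m i ≤ qz m z i := by
  refine kz_le fun hx => h _ hx ?_ ?_
  · exact not_le.1 fun h => lt_irrefl _ ((lt_qz hi _).2 h)
  · rw [Nat.add_mul_mod_self_left, Nat.mod_eq_of_lt hi]

/-- A class of gapsets with fixed parameters. -/
structure Cls (κ g m F a z1 : ℕ) (Y : Finset ℕ) (u1 u2 : ℕ) (G : Finset ℕ) : Prop where
  mem : Mem κ g G
  mult : IsMult G m
  top : IsTop G F
  dep : 2 * m < F
  rest : (∀ x ∈ G, F < x + m → 2 * m < x) ∨ (¬ Other κ G ∧ ∀ x ∈ G, F + κ < x + m → 2 * m < x)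
  pair : Consec G a (a + κ)
  pa : F ≤ a + m
  eY : G.filter (z1 < ·) = Y
  e1 : kz G m (F % m / 2) = u1
  e2 : kz G m ((m + F % m) / 2) = u2
  bad : (up m F G).card ≤ (dn m F G).card

/-- Regular residues. -/
def RR (m F : ℕ) : Finset ℕ := (range m).filter fun i => i ≠ 0 ∧ i ≠ F % m ∧ tau m F i ≠ i

/-- Exceptional residues. -/
def Exc (κ m F : ℕ) (Y : Finset ℕ) : Finset ℕ := insert (F % m + κ) (Y.image (· % m))

/-- Upper bounds for the Kunz coordinates in a class. -/
def UU (κ m F a z1 : ℕ) (Y : Finset ℕ) (i : ℕ) : ℕ :=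
  min (if i ∈ Exc κ m F Y then qz m F i else qz m z1 i)
    (min (if i ∈ (Ioo a (a + κ)).image (· % m) then qz m F i - 1 else qz m F i)
      (if F < 3 * m ∧ F % m < i ∧ i ≠ F % m + κ then 1 else qz m F i))

variable {a z1 u1 u2 : ℕ} {Y : Finset ℕ}

lemma mem_RR : i ∈ RR m F ↔ i < m ∧ i ≠ 0 ∧ i ≠ F % m ∧ tau m F i ≠ i := by
  rw [RR, mem_filter, mem_range]

lemma mem_RR_of (hi : i < m) (h : i ∉ ({0, F % m, F % m / 2, (m + F % m) / 2} : Finset ℕ)) :
    i ∈ RR m F := by
  simp only [mem_insert, mem_singleton, not_or] at h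
  refine mem_RR.2 ⟨hi, h.1, h.2.1, ?_⟩
  unfold tau; split_ifs <;> omega

lemma tau_RR (h : i ∈ RR m F) : tau m F i ∈ RR m F := by
  obtain ⟨h1, h2, h3, h4⟩ := mem_RR.1 h
  refine mem_RR.2 ⟨tau_lt h1, ?_, ?_, by rw [tau_tau h1]; exact h4.symm⟩ <;>
  · unfold tau; split_ifs <;> omega

lemma two_le_div (hm : 0 < m) (h : 2 * m < F) : 2 ≤ F / m :=
  (Nat.le_div_iff_mul_le hm).2 h.le

lemma two_le_qz (hi : i < m) (h : 2 * m < F) : 2 ≤ qz m F i := by
  have := two_le_div (show 0 < m by omega) h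
  unfold qz; omega

lemma UU_le : UU κ m F a z1 Y i ≤ qz m F i := by
  unfold UU; split_ifs <;> omega

lemma kz_le_UU (h : Cls κ g m F a z1 Y u1 u2 G) (hi : i < m) :
    kz G m i ≤ UU κ m F a z1 Y i := by
  have k1 : kz G m i ≤ qz m F i := kz_le_qz hi fun x hx h' => by have := h.top.2 x hx; omega
  refine le_min ?_ (le_min ?_ ?_) <;> split_ifs with hc
  · exact k1
  · refine kz_le_qz hi fun x hx h' e => hc (mem_insert_of_mem (mem_image.2 ⟨x, ?_, e⟩))
    rw [← h.eY]
    exact mem_filter.2 ⟨hx, h'⟩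
  · obtain ⟨x, hx, rfl⟩ := mem_image.1 hc
    have hx' := mem_Ioo.1 hx
    have k2 : kz G m (x % m) ≤ x / m := kz_le fun hh => by
      rw [Nat.mod_add_div] at hh
      exact h.pair.2.2.2 x hh hx'
    have k3 := h.top.2 _ h.pair.2.1
    have k4 := (lt_qz (z := F) hi (x / m)).2 (by rw [Nat.mod_add_div]; omega)
    omega
  · exact k1
  · refine kz_le fun hh => ?_
    have e := Nat.mod_add_div F m
    have e2 : F / m = 2 := by
      have := two_le_div h.mult.1 h.dep
      have := (Nat.div_lt_iff_lt_mul h.mult.1).2 hc.1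
      omega
    rw [e2] at e
    rcases h.rest with r | r
    · have := r _ hh; omega
    · have r1 := r.2 _ hh
      have r2 := h.pair.2.2.2 _ hh
      have r3 : a + m = F := by
        by_contra hn
        exact r.1 ⟨m, F, _, _, h.mult, h.top, h.pair, by omega, hn⟩
      omega
  · exact k1

lemma one_le_tilt {t : ℚ} (ht : 1 ≤ t) (h : Cls κ g m F a z1 Y u1 u2 G) :
    1 ≤ t ^ 2 * ∏ i ∈ RR m F, tl t (qz m F i) (kz G m i) (kz G m (tau m F i)) := by
  set A := (RR m F).filter fun i => 3 ≤ qz m F i ∧ kz G m i = 1 with hA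
  set B := (RR m F).filter fun i => 3 ≤ qz m F i ∧ kz G m i = 2 ∧
    qz m F i ≤ kz G m (tau m F i) + 1 with hB
  have e1 : ∏ i ∈ RR m F, tl t (qz m F i) (kz G m i) (kz G m (tau m F i)) =
      t⁻¹ ^ A.card * t ^ B.card := by
    rw [hA, hB, ← prod_const, ← prod_const, prod_filter, prod_filter, ← prod_mul_distrib]
    refine prod_congr rfl fun i _ => ?_
    unfold tl; split_ifs <;> first | omega | simp
  have hG := h.mem.1
  have hm := h.mult
  have c1 : A.card ≤ (up m F G).card := by
    refine card_le_card_of_injOn (fun i => i + m) (fun i hi => ?_) fun i _ j _ e => by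
      simpa using e
    obtain ⟨k1, k2, k3⟩ := mem_filter.1 (mem_coe.1 hi)
    obtain ⟨l1, l2, l3, -⟩ := mem_RR.1 k1
    have k4 := (lt_qz (z := F) l1 2).1 k2
    have k5 : i + m * 2 ≠ F := fun e => l3 (by
      rw [← e, Nat.add_mul_mod_self_left, Nat.mod_eq_of_lt l1])
    refine mem_coe.2 (show i + m ∈ up m F G from
      mem_filter.2 ⟨mem_Ioo.2 (by omega), by omega, fun hh => ?_⟩)
    have := (mem_iff_lt_kz hG hm i 1).1 (by rwa [mul_one])
    omega
  have c2 : (dn m F G).card ≤ B.card + 2 := by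
    refine le_trans (card_le_card_of_injOn
      (t := B ∪ {F % m / 2, (m + F % m) / 2}) (fun p => p - m) (fun p hp => ?_)
      fun p hp q hq e => ?_) ((card_union_le _ _).trans (Nat.add_le_add_left card_le_two _))
    · obtain ⟨k1, k2, k3, k4, k5⟩ := mem_filter.1 (mem_coe.1 hp)
      have k1' := mem_Ioo.1 k1
      obtain ⟨i, rfl⟩ : ∃ i, p = i + m := ⟨p - m, by omega⟩
      have hi : i < m := by omega
      have w1 := (mem_iff_lt_kz hG hm i 1).1 (by rwa [mul_one])
      have w2 : ¬ 2 < kz G m i := fun hh => k4 (by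
        have := (mem_iff_lt_kz hG hm i 2).2 hh
        rwa [show i + m * 2 = i + m + m by omega] at this)
      have w3 := (lt_qz (z := F) hi 2).2 (by omega)
      have w4 : i ≠ F % m := fun e => by
        have j1 := (mem_iff_lt_kz hG hm (F % m) (F / m)).1 (by
          rw [Nat.mod_add_div]; exact h.top.1)
        have j2 := two_le_div hm.1 h.dep
        rw [← e] at j1
        omega
      have w5 : qz m F i - 2 < kz G m (tau m F i) := by
        refine (mem_iff_lt_kz hG hm _ _).1 ?_
        have e := tau_add (z := F) hi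
        obtain ⟨u, hu⟩ : ∃ u, qz m F i = u + 2 := ⟨qz m F i - 2, by omega⟩
        rw [hu, mul_add] at e
        rwa [hu, show tau m F i + m * (u + 2 - 2) = F - (i + m) by
          rw [Nat.add_sub_cancel]; omega]
      simp only [Nat.add_sub_cancel, coe_union, Set.mem_union, mem_coe, mem_insert, mem_singleton]
      by_cases hf : tau m F i = i
      · right
        unfold tau at hf; split_ifs at hf <;> omega
      · exact Or.inl (mem_filter.2 ⟨mem_RR.2 ⟨hi, by omega, w4, hf⟩, w3, by omega, by omega⟩)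
    · have k1 := mem_Ioo.1 (mem_filter.1 (mem_coe.1 hp)).1
      have k2 := mem_Ioo.1 (mem_filter.1 (mem_coe.1 hq)).1
      simp only at e
      omega
  have c3 : t ^ A.card ≤ t ^ (2 + B.card) :=
    pow_le_pow_right₀ ht (by have := h.bad; omega)
  rw [e1, inv_pow, mul_left_comm, ← pow_add, ← div_eq_inv_mul, one_le_div (by positivity)]
  exact c3

variable {y t ρ : ℚ} {f : ℕ → ℕ → ℕ → ℚ}

lemma leaf_box (P : Pk y t ρ f) (V : Finset (Finset ℕ))
    (hV : ∀ G ∈ V, Cls κ g m F a z1 Y u1 u2 G) (hd : 2 * m < F) (c : ℕ → ℕ)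
    (h1 : ∀ i ∈ RR m F, 1 ≤ c i) (hc : ∀ G ∈ V, ∀ i ∈ RR m F, c i ≤ kz G m i) :
    ∑ G ∈ V, y ^ (∑ i ∈ RR m F, kz G m i) *
        ∏ i ∈ RR m F, tl t (qz m F i) (kz G m i) (kz G m (tau m F i)) ≤
      ∏ i ∈ RR m F, f (qz m F i) (UU κ m F a z1 Y i) (c i) := by
  have r1 : ∀ i ∈ RR m F, tau m F i ∈ RR m F := fun i => tau_RR
  have r2 : ∀ i ∈ RR m F, tau m F (tau m F i) = i := fun i hi => tau_tau (mem_RR.1 hi).1
  have r3 : ∀ i ∈ RR m F, tau m F i ≠ i := fun i hi => (mem_RR.1 hi).2.2.2
  have b := box ((RR m F).filter fun i => i < tau m F i)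
    (fun i => Icc (c i) (UU κ m F a z1 Y i) ×ˢ
      Icc (c (tau m F i)) (UU κ m F a z1 Y (tau m F i)))
    (fun i p => pw y t (qz m F i) p.1 p.2) V (fun G i => (kz G m i, kz G m (tau m F i)))
    (fun i p => pw_nonneg P.y0 P.z1 _ _ _) (fun G hG G' hG' e => by
      have l := hV G hG
      have l' := hV G' hG'
      refine eq_of_kz l.mem.1 l.mult l'.mem.1 l'.mult fun i hi0 hi => ?_
      by_cases hR : i ∈ RR m F
      · by_cases hlt : i < tau m F i
        · exact congrArg Prod.fst (e i (mem_filter.2 ⟨hR, hlt⟩))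
        · have := r3 i hR
          have := congrArg Prod.snd (e _ (mem_filter.2 ⟨r1 i hR, by rw [r2 i hR]; omega⟩))
          simpa only [r2 i hR] using this
      have hs : i ∈ ({0, F % m, F % m / 2, (m + F % m) / 2} : Finset ℕ) := by
        by_contra hn
        exact hR (mem_RR_of hi hn)
      simp only [mem_insert, mem_singleton] at hs
      rcases hs with hs | hs | hs | hs
      · omega
      · have key : ∀ G, Cls κ g m F a z1 Y u1 u2 G → kz G m i = F / m + 1 := fun G l => by
          have j1 := (mem_iff_lt_kz l.mem.1 l.mult (F % m) (F / m)).1 (by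
            rw [Nat.mod_add_div]; exact l.top.1)
          have j2 := (kz_le_UU l hi).trans UU_le
          rw [← hs] at j1
          unfold qz at j2; split_ifs at j2 <;> omega
        rw [key G l, key G' l']
      · rw [hs, l.e1, l'.e1]
      · rw [hs, l.e2, l'.e2])
    (fun G hG i hi => by
      have hR := (mem_filter.1 hi).1
      exact mem_product.2 ⟨mem_Icc.2 ⟨hc G hG i hR, kz_le_UU (hV G hG) (mem_RR.1 hR).1⟩,
        mem_Icc.2 ⟨hc G hG _ (r1 i hR), kz_le_UU (hV G hG) (mem_RR.1 (r1 i hR)).1⟩⟩)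
  rw [prod_pair r1 r2 r3 fun i => f (qz m F i) (UU κ m F a z1 Y i) (c i)]
  refine le_trans (le_of_eq (sum_congr rfl fun G hG => ?_)) (b.trans (prod_le_prod
    (fun i _ => sum_nonneg fun p _ => pw_nonneg P.y0 P.z1 _ _ _) fun i hi => ?_))
  · rw [← prod_pow_eq_pow_sum, ← prod_mul_distrib, prod_pair r1 r2 r3]
    refine prod_congr rfl fun i hi => ?_
    have hR := (mem_filter.1 hi).1
    have hi' := (mem_RR.1 hR).1
    simp only [pw]
    rw [if_pos (kz_tau (hV G hG).mem.1 (hV G hG).mult (hV G hG).top.1 hi'), r2 i hR, qz_tau hi',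
      pow_add]
    ring
  · have hR := (mem_filter.1 hi).1
    have hi' := (mem_RR.1 hR).1
    rw [sum_product, qz_tau hi']
    exact P.F _ _ _ _ _ (two_le_qz hi' hd) (h1 i hR) (h1 _ (r1 i hR)) UU_le
      (by rw [← qz_tau (z := F) hi']; exact UU_le)

lemma prod_f (P : Pk y t ρ f) (hκm : κ ≤ m) (hd : 2 * m < F) (c : ℕ → ℕ) (B : Finset ℕ)
    (e : ℕ) (hB : ∀ i < m, i ∉ B → z1 ≤ e ∧ i ∈ RR m F ∧ tau m e i ∈ RR m F ∧
      i ∉ Exc κ m F Y ∧ tau m e i ∉ Exc κ m F Y ∧ qz m e i ≤ c i + c (tau m e i)) :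
    ∏ i ∈ RR m F, f (qz m F i) (UU κ m F a z1 Y i) (c i) ≤ 4 ^ B.card * ρ ^ (κ - 5) := by
  have hρ : 0 < ρ := by linarith [P.r0]
  let r : ℕ → ℚ := fun i => if UU κ m F a z1 Y i < qz m F i then ρ else 1
  have r0 : ∀ i, 1 / 3 ≤ r i := fun i => by
    simp only [r]; split_ifs
    · exact P.r0
    · norm_num
  have r1 : ∀ i, 0 < r i := fun i => by linarith [r0 i]
  let h : ℕ → ℚ := fun i =>
    if i ∈ RR m F then f (qz m F i) (UU κ m F a z1 Y i) (c i) / r i else 1
  have k1 : ∏ i ∈ range m, h i ≤ 4 ^ B.card := by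
    refine prod_inv_le (τ := tau m e) (fun i hi => mem_range.2 (tau_lt (mem_range.1 hi)))
      (fun i hi => tau_tau (mem_range.1 hi)) (fun i => ?_) (fun i => ?_) fun i hi hn => ?_
    · simp only [h]; split_ifs
      · exact div_nonneg (P.f0 _ _ _) (r1 i).le
      · norm_num
    · simp only [h]; split_ifs
      · rw [div_le_iff₀ (r1 i)]
        linarith [P.f1 (qz m F i) (UU κ m F a z1 Y i) (c i), r0 i]
      · norm_num
    · have hi' := mem_range.1 hi
      obtain ⟨b0, b1, b2, b3, b4, b5⟩ := hB i hi' hn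
      have key : ∀ j < m, j ∉ Exc κ m F Y → (UU κ m F a z1 Y j = qz m F j → 3 ≤ qz m F j) ∧
          UU κ m F a z1 Y j ≤ qz m e j := by
        intro j hj hx
        have j1 : j ≠ F % m + κ := fun e => hx (e ▸ mem_insert_self _ _)
        have j2 := two_le_qz hj hd
        have j3 := (lt_qz (z := F) hj 2).2
        have j4 := qz_mono hj b0
        have j5 := Nat.mod_add_div F m
        have j6 := Nat.mul_le_mul_left m (two_le_div (show 0 < m by omega) hd)
        unfold UU
        rw [if_neg hx]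
        split_ifs <;> omega
      obtain ⟨q1, q2⟩ := key i hi' b3
      obtain ⟨q3, q4⟩ := key _ (tau_lt hi') b4
      rw [qz_tau hi'] at q4
      simp only [h, if_pos b1, if_pos b2]
      rw [div_mul_div_comm, div_le_one (mul_pos (r1 _) (r1 _))]
      exact P.C _ _ _ _ _ _ UU_le UU_le q1 q3 (by omega) (by omega)
  have k2 : ∏ i ∈ RR m F, r i ≤ ρ ^ (κ - 5) := by
    simp only [r]
    rw [← prod_filter, prod_const]
    refine pow_le_pow_of_le_one hρ.le P.r1 ?_
    have c1 : ((Ioo a (a + κ)).image (· % m)).card = κ - 1 := by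
      rw [card_image_of_injOn, Nat.card_Ioo]
      · omega
      · intro x hx x' hx' e
        have j1 := mem_Ioo.1 (mem_coe.1 hx)
        have j2 := mem_Ioo.1 (mem_coe.1 hx')
        rcases le_total x x' with l | l
        · have := Nat.eq_zero_of_dvd_of_lt ((Nat.modEq_iff_dvd' l).1 e) (by omega)
          omega
        · have := Nat.eq_zero_of_dvd_of_lt ((Nat.modEq_iff_dvd' l).1 e.symm) (by omega)
          omega
    have c2 : (Ioo a (a + κ)).image (· % m) ⊆ ((RR m F).filter fun i =>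
        UU κ m F a z1 Y i < qz m F i) ∪ {0, F % m, F % m / 2, (m + F % m) / 2} := by
      intro i hi
      have hi' : i < m := by
        obtain ⟨x, hx, rfl⟩ := mem_image.1 hi
        have := mem_Ioo.1 hx
        exact Nat.mod_lt _ (by omega)
      by_cases hs : i ∈ ({0, F % m, F % m / 2, (m + F % m) / 2} : Finset ℕ)
      · exact mem_union_right _ hs
      · refine mem_union_left _ (mem_filter.2 ⟨mem_RR_of hi' hs, ?_⟩)
        have := two_le_qz hi' hd
        unfold UU
        rw [if_pos hi]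
        omega
    have c3 := (card_le_card c2).trans (card_union_le _ _)
    have c4 : ({0, F % m, F % m / 2, (m + F % m) / 2} : Finset ℕ).card ≤ 4 := card_le_four
    omega
  have k3 : ∏ i ∈ RR m F, f (qz m F i) (UU κ m F a z1 Y i) (c i) =
      (∏ i ∈ range m, h i) * ∏ i ∈ RR m F, r i := by
    simp only [h]
    rw [prod_ite_mem, inter_eq_right.2 (show RR m F ⊆ range m from filter_subset _ _),
      ← prod_mul_distrib]
    exact prod_congr rfl fun i _ => (div_mul_cancel₀ _ (r1 i).ne').symm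
  rw [k3]
  exact mul_le_mul k1 k2 (prod_nonneg fun i _ => (r1 i).le) (by positivity)

lemma cls_bound (P : Pk y t ρ f) {D M L s : ℕ} (hD : (5001 : ℚ) ≤ (5001 / 5000) ^ D)
    (hM : 1 ≤ M) (hg : g ≤ M * L) (C : Finset (Finset ℕ))
    (hC : ∀ G ∈ C, Cls κ g m F a z1 Y u1 u2 G) (hY : Y.card ≤ s + L)
    (hE : m ≤ L ∨ D * M ≤ (Y.filter (· ≤ z1 + L)).card) :
    C.card * (y * (5000 / 5001)) ^ g ≤ 4 * (4 ^ (10 + 2 * s + 3 * L) * ρ ^ (κ - 5)) := by
  have hρ : 0 < ρ := by linarith [P.r0]
  have hy := P.y0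
  rcases C.eq_empty_or_nonempty with rfl | ⟨G0, hG0⟩
  · simp only [card_empty, Nat.cast_zero, zero_mul]; positivity
  have l0 := hC G0 hG0
  have hd := l0.dep
  have hκm : κ ≤ m := by have := l0.top.2 _ l0.pair.2.1; have := l0.pa; omega
  have hmg : m ≤ g := by have := top_lt l0.mem.1 l0.top.1; rw [l0.mem.2.1] at this; omega
  have hD1 : 1 ≤ D := Nat.pos_of_ne_zero fun e => by rw [e] at hD; norm_num at hD
  set E := if m ≤ L then ∅ else Y.filter (· ≤ z1 + L) with hEd
  have hEm : ∀ e ∈ E, L < m ∧ e ∈ Y ∧ e ≤ z1 + L := by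
    intro e he
    rw [hEd] at he
    split_ifs at he with h
    · exact absurd he (notMem_empty _)
    · exact ⟨by omega, mem_filter.1 he⟩
  have hYm : ∀ G ∈ C, ∀ e ∈ Y, e ∈ G ∧ z1 < e := fun G hG e he => by
    rw [← (hC G hG).eY] at he
    exact mem_filter.1 he
  have tp : ∀ G : Finset ℕ,
      0 < ∏ i ∈ RR m F, tl t (qz m F i) (kz G m i) (kz G m (tau m F i)) :=
    fun G => prod_pos fun i _ => tl_pos P.z1 _ _ _
  have main := cont (RR m F) E C (fun G i => kz G m i) (fun G =>
      (y * (5000 / 5001)) ^ (∑ i ∈ RR m F, kz G m i) *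
        ∏ i ∈ RR m F, tl t (qz m F i) (kz G m i) (kz G m (tau m F i))) (tau m) (qz m)
    (N := F / m + 1) (B := 4 ^ (10 + 2 * s + 3 * L) * ρ ^ (κ - 5)) (by positivity) hD
    (fun G => by have := tp G; positivity)
    (fun G hG i hi => by
      have := (kz_le_UU (hC G hG) (mem_RR.1 hi).1).trans UU_le
      unfold qz at this; split_ifs at this <;> omega)
    (fun G hG e he i hi => kz_tau (hC G hG).mem.1 (hC G hG).mult
      (hYm G hG e (hEm e he).2.1).1 (mem_RR.1 hi).1)
    (fun v hv e he e' he' ee => by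
      have j1 := tau_add (z := e) (mem_RR.1 hv).1
      have j2 := tau_add (z := e') (mem_RR.1 hv).1
      have j3 := hEm e he
      have j4 := hEm e' he'
      have j5 := (hYm G0 hG0 e j3.2.1).2
      have j6 := (hYm G0 hG0 e' j4.2.1).2
      simp only at ee
      rcases lt_trichotomy (qz m e v) (qz m e' v) with h | h | h
      · have := Nat.mul_le_mul_left m (show qz m e v + 1 ≤ _ from h)
        rw [mul_add] at this; omega
      · rw [h] at j1; omega
      · have := Nat.mul_le_mul_left m (show qz m e' v + 1 ≤ _ from h)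
        rw [mul_add] at this; omega)
    (fun c V' hV h1 hc hlow => by
      have b1 := leaf_box P V' (fun G hG => hC G (hV hG)) hd c h1 hc
      refine le_trans (le_of_eq (sum_congr rfl fun G _ => ?_)) (b1.trans ?_)
      · rw [mul_right_comm, ← mul_pow]
        congr 2
        ring
      obtain ⟨B, e, hB1, hB2⟩ : ∃ (B : Finset ℕ) (e : ℕ), B.card ≤ 10 + 2 * s + 3 * L ∧
          ∀ i < m, i ∉ B → z1 ≤ e ∧ i ∈ RR m F ∧ tau m e i ∈ RR m F ∧
            i ∉ Exc κ m F Y ∧ tau m e i ∉ Exc κ m F Y ∧ qz m e i ≤ c i + c (tau m e i) := by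
        by_cases hmL : m ≤ L
        · exact ⟨range m, 0, by rw [card_range]; omega,
            fun i hi hn => absurd (mem_range.2 hi) hn⟩
        have hEc : D * M ≤ E.card := by
          rw [hEd, if_neg hmL]; exact hE.resolve_left hmL
        have hne : E.Nonempty := card_pos.1 (lt_of_lt_of_le (Nat.mul_pos hD1 hM) hEc)
        obtain ⟨e, he, hle⟩ := exists_le_of_sum_le hne (f := fun e => ((RR m F).filter fun v =>
            tau m e v ∈ RR m F ∧ c v + c (tau m e v) < qz m e v).card) (g := fun _ => L) (by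
          have j1 : ∑ e ∈ E, ((RR m F).filter fun v =>
              tau m e v ∈ RR m F ∧ c v + c (tau m e v) < qz m e v).card =
              ∑ v ∈ RR m F, (E.filter fun e =>
                tau m e v ∈ RR m F ∧ c v + c (tau m e v) < qz m e v).card := by
            simp only [card_filter]
            exact sum_comm
          have j2 := sum_le_sum (g := fun _ => D) fun v hv => (hlow v hv).le
          have j3 : (RR m F).card ≤ m := by
            simpa using card_le_card (show RR m F ⊆ range m from filter_subset _ _)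
          rw [sum_const, smul_eq_mul] at j2
          rw [j1, sum_const, smul_eq_mul]
          calc _ ≤ _ := j2
            _ ≤ M * L * D := Nat.mul_le_mul_right _ (by omega)
            _ = D * M * L := by ring
            _ ≤ _ := Nat.mul_le_mul_right _ hEc)
        set T := ({0, F % m, F % m / 2, (m + F % m) / 2} : Finset ℕ) ∪ Exc κ m F Y with hT
        have hTc : T.card ≤ 5 + (s + L) := by
          have j1 := card_union_le ({0, F % m, F % m / 2, (m + F % m) / 2} : Finset ℕ)
            (Exc κ m F Y)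
          have j2 : ({0, F % m, F % m / 2, (m + F % m) / 2} : Finset ℕ).card ≤ 4 := card_le_four
          have j3 := card_insert_le (F % m + κ) (Y.image (· % m))
          have j4 := card_image_le (s := Y) (f := (· % m))
          unfold Exc at j1 hT
          rw [hT]
          omega
        refine ⟨T ∪ T.image (tau m e) ∪ (RR m F).filter fun v =>
          tau m e v ∈ RR m F ∧ c v + c (tau m e v) < qz m e v, e, ?_, fun i hi hn => ?_⟩
        · refine (card_union_le _ _).trans (le_trans (Nat.add_le_add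
            ((card_union_le _ _).trans (Nat.add_le_add hTc (card_image_le.trans hTc))) hle) ?_)
          omega
        · rw [mem_union, mem_union, not_or, not_or] at hn
          have j1 : tau m e i ∉ T := fun h => hn.1.2 (mem_image.2 ⟨_, h, tau_tau hi⟩)
          have j2 := hn.1.1
          rw [hT, mem_union, not_or] at j1 j2
          have j3 := mem_RR_of hi j2.1
          have j4 := mem_RR_of (tau_lt hi) j1.1
          exact ⟨(hYm G0 hG0 e (hEm e he).2.1).2.le, j3, j4, j2.2, j1.2,
            not_lt.1 fun h => hn.2 (mem_filter.2 ⟨j3, j4, h⟩)⟩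
      exact (prod_f P hκm hd c B e hB2).trans (mul_le_mul_of_nonneg_right
        (pow_le_pow_right₀ (by norm_num) hB1) (by positivity)))
    _ (fun _ => 1) C Subset.rfl (Nat.le_add_left _ _) (fun _ _ => le_rfl) fun G hG i hi => by
      have j := mem_RR.1 hi
      exact (mem_iff_lt_kz (hC G hG).mem.1 (hC G hG).mult i 0).1
        ((hC G hG).mult.2.2 _ (by omega) (by omega))
  refine le_trans ?_ (mul_le_mul_of_nonneg_left (le_trans (le_mul_of_one_le_right
    (sum_nonneg fun G _ => by have := tp G; positivity) (one_le_pow₀ (by norm_num))) main)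
    (by norm_num))
  rw [mul_sum, ← nsmul_eq_mul, ← sum_const]
  refine sum_le_sum fun G hG => ?_
  have j1 := one_le_tilt P.z1 (hC G hG)
  have j2 : (y * (5000 / 5001)) ^ g ≤ (y * (5000 / 5001)) ^ (∑ i ∈ RR m F, kz G m i) := by
    refine pow_le_pow_of_le_one (by positivity) (by nlinarith [P.y1]) ?_
    rw [← (hC G hG).mem.2.1]
    exact (sum_le_sum_of_subset (filter_subset _ _)).trans
      (sum_kz_le (hC G hG).mem.1 (hC G hG).mult)
  have j3 : t ^ 2 ≤ 4 := by nlinarith [P.z1, P.z2]
  have j4 := mul_le_mul_of_nonneg_right j3 (tp G).le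
  rw [mul_left_comm]
  exact j2.trans (le_mul_of_one_le_right (by positivity) (j1.trans j4))

lemma exists_window (hm : IsMult G m) (hF : IsTop G F) {L n d : ℕ} (hd : 1 ≤ d) (hL : d ≤ L)
    (hn : F ≤ n * L) : ∃ z1 ≤ F, (G.filter (z1 < ·)).card ≤ n * d + L ∧
      (m ≤ L ∨ d ≤ ((G.filter (z1 < ·)).filter (· ≤ z1 + L)).card) := by
  by_cases hmL : m ≤ L
  · refine ⟨F, le_rfl, ?_, Or.inl hmL⟩
    rw [filter_eq_empty_iff.2 fun x hx => not_lt.2 (hF.2 x hx), card_empty]
    exact Nat.zero_le _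
  let p : ℕ → Prop := fun z => d ≤ ((G.filter (z < ·)).filter (· ≤ z + L)).card
  have p0 : p 0 := by
    refine hL.trans (le_trans (by simp) (card_le_card (s := Icc 1 L) fun x hx => ?_))
    have := mem_Icc.1 hx
    exact mem_filter.2 ⟨mem_filter.2 ⟨hm.2.2 x (by omega) (by omega), by omega⟩, by omega⟩
  have p1 : ∀ z, Nat.findGreatest p F < z → ((G.filter (z < ·)).filter (· ≤ z + L)).card ≤ d := by
    intro z hz
    by_cases h : z ≤ F
    · exact (not_le.1 (Nat.findGreatest_is_greatest (P := p) hz h)).le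
    · rw [filter_eq_empty_iff.2, card_empty]
      · exact Nat.zero_le _
      · intro x hx
        have k1 := mem_filter.1 hx
        have k2 := hF.2 x k1.1
        omega
  have p2 : ∀ j z, Nat.findGreatest p F < z →
      (G.filter fun x => z < x ∧ x ≤ z + j * L).card ≤ j * d := by
    intro j
    induction j with
    | zero =>
      intro z _
      rw [filter_eq_empty_iff.2 fun x _ => by omega, card_empty]
      exact Nat.zero_le _
    | succ j ih =>
      intro z hz
      rw [Nat.succ_mul, Nat.succ_mul]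
      refine le_trans (card_le_card fun x hx => ?_) ((card_union_le _ _).trans
        (Nat.add_le_add (ih (z + L) (by omega)) (p1 z hz)))
      simp only [mem_union, mem_filter] at hx ⊢
      by_cases h : x ≤ z + L
      · exact Or.inr ⟨⟨hx.1, hx.2.1⟩, h⟩
      · exact Or.inl ⟨hx.1, by omega⟩
  refine ⟨Nat.findGreatest p F, Nat.findGreatest_le _, ?_,
    Or.inr (Nat.findGreatest_spec (Nat.zero_le F) p0)⟩
  have c1 : (Ioc (Nat.findGreatest p F) (Nat.findGreatest p F + L)).card ≤ L := by simp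
  refine le_trans (card_le_card fun x hx => ?_) ((card_union_le _ _).trans
    (Nat.add_le_add (p2 n (Nat.findGreatest p F + L) (by omega)) c1))
  simp only [mem_union, mem_filter, mem_Ioc] at hx ⊢
  have := hF.2 x hx.1
  by_cases h : x ≤ Nat.findGreatest p F + L
  · exact Or.inr ⟨hx.2, h⟩
  · exact Or.inl ⟨hx.1, by omega⟩

lemma ev_poly (K : ℚ) (k : ℕ) :
    ∃ g0 : ℕ, ∀ g ≥ g0, K * (2 * (g : ℚ) + 6) ^ k ≤ (5001 / 5000) ^ g := by
  have h1 := (tendsto_pow_const_div_const_pow_of_one_lt k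
    (show (1 : ℝ) < 5001 / 5000 by norm_num)).eventually
    (gt_mem_nhds (show (0 : ℝ) < 1 / ((|(K : ℝ)| + 1) * 8 ^ k) by positivity))
  obtain ⟨g1, h2⟩ := Filter.eventually_atTop.1 h1
  refine ⟨g1 + 1, fun g hg => ?_⟩
  have h3 := h2 g (by omega)
  rw [div_lt_div_iff₀ (by positivity) (by positivity), one_mul] at h3
  have h4 : (1 : ℝ) ≤ g := by exact_mod_cast (show 1 ≤ g by omega)
  have h5 : (2 * (g : ℝ) + 6) ^ k ≤ (8 * g) ^ k := pow_le_pow_left₀ (by positivity) (by linarith) k
  have h6 : (K : ℝ) * (2 * (g : ℝ) + 6) ^ k ≤ (|(K : ℝ)| + 1) * (8 * g) ^ k :=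
    mul_le_mul (by linarith [le_abs_self (K : ℝ)]) h5 (by positivity) (by positivity)
  have h7 : (K : ℝ) * (2 * (g : ℝ) + 6) ^ k ≤ (5001 / 5000) ^ g := by
    rw [mul_pow] at h6
    linarith
  rw [← Rat.cast_le (K := ℝ)]
  push_cast
  exact h7

open Classical in
lemma badT_bound (P : Pk y t ρ f) : ∃ g0 : ℕ, ∀ g ≥ g0, ∀ κ : ℕ, 1 ≤ κ →
    ((fam κ g).filter (BadT κ)).card * y ^ g ≤ (5001 / 5000) ^ (5 * g) * ρ ^ κ := by
  have hρ : 0 < ρ := by linarith [P.r0]
  have hy := P.y0
  obtain ⟨D, hD⟩ := pow_unbounded_of_one_lt (5001 : ℚ) (show (1 : ℚ) < 5001 / 5000 by norm_num)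
  have hD1 : 1 ≤ D := Nat.pos_of_ne_zero fun e => by rw [e] at hD; norm_num at hD
  obtain ⟨M, hM⟩ := pow_unbounded_of_one_lt (320000 : ℚ) (show (1 : ℚ) < 5001 / 5000 by norm_num)
  have hM1 : 1 ≤ M := Nat.pos_of_ne_zero fun e => by rw [e] at hM; norm_num at hM
  set s := 2 * M * (D * M) with hs
  obtain ⟨g1, hg1⟩ := ev_poly (5000 ^ s * 4 ^ (11 + 2 * s) * 320000 * 243 * (5001 / 5000) ^ 2) 6
  refine ⟨g1 + M * (D * M), fun g hg κ hκ => ?_⟩
  set L := g / M + 1 with hL
  have hgL : g ≤ M * L := (Nat.lt_mul_div_succ g hM1).le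
  have hdL : D * M ≤ L := by
    have := (Nat.le_div_iff_mul_le hM1).2 (show D * M * M ≤ g by rw [mul_comm]; omega)
    omega
  let I := ((Fintype.piFinset fun _ : Fin 6 => range (2 * g + 2)) ×ˢ
    ((range (2 * g + 2)).powerset.filter fun Y => Y.card ≤ s + L))
  let cl : (Fin 6 → ℕ) × Finset ℕ → Finset (Finset ℕ) := fun i => (fam κ g).filter fun G =>
    Cls κ g (i.1 0) (i.1 1) (i.1 2) (i.1 3) i.2 (i.1 4) (i.1 5) G ∧
      (i.1 0 ≤ L ∨ D * M ≤ (i.2.filter (· ≤ i.1 3 + L)).card)
  have h1 : (fam κ g).filter (BadT κ) ⊆ I.biUnion cl := by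
    intro G hG
    obtain ⟨hG, ⟨m, F, l1, l2, l3, l4⟩, m', F', k1, k2, k3⟩ := mem_filter.1 hG
    obtain rfl := mult_unique l1 k1
    obtain rfl := top_unique l2 k2
    have hG' := mem_fam.1 hG
    have t1 := top_lt hG'.1 l2.1
    rw [hG'.2.1] at t1
    obtain ⟨a, a1, a2⟩ := pair_top hκ hG' l1 l2 (by omega)
    have a3 := l2.2 _ a2.1
    obtain ⟨z1, z2, z3, z4⟩ := exists_window l1 l2 (Nat.mul_pos hD1 hM1) hdL (n := 2 * M)
      (by rw [mul_assoc]; omega)
    have kb : ∀ i, kz G m i < 2 * g + 2 := fun i => by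
      have := Nat.le_mul_of_pos_left (2 * g) l1.1
      exact Nat.lt_succ_of_le (le_trans (kz_le (j := 2 * g) fun h => by
        have := l2.2 _ h; omega) (by omega))
    refine mem_biUnion.2 ⟨(![m, F, a, z1, kz G m (F % m / 2), kz G m ((m + F % m) / 2)],
      G.filter (z1 < ·)), mem_product.2 ⟨Fintype.mem_piFinset.2 fun i => mem_range.2 ?_,
        mem_filter.2 ⟨mem_powerset.2 fun x hx => ?_, z3⟩⟩,
      mem_filter.2 ⟨hG, ⟨hG', l1, l2, l3, l4, a2, a1, rfl, rfl, rfl, k3⟩, z4⟩⟩
    · fin_cases i <;> first | exact kb _ | (simp; omega)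
    · have := l2.2 x (mem_filter.1 hx).1
      exact mem_range.2 (by omega)
  have h2 : (((fam κ g).filter (BadT κ)).card : ℚ) ≤ ∑ i ∈ I, ((cl i).card : ℚ) := by
    exact_mod_cast (card_le_card h1).trans card_biUnion_le
  have h3 : (((fam κ g).filter (BadT κ)).card : ℚ) * (y * (5000 / 5001)) ^ g ≤
      I.card * (4 * (4 ^ (10 + 2 * s + 3 * L) * ρ ^ (κ - 5))) := by
    refine (mul_le_mul_of_nonneg_right h2 (by positivity)).trans ?_
    rw [sum_mul, ← nsmul_eq_mul, ← sum_const]
    refine sum_le_sum fun i hi => ?_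
    rcases (cl i).eq_empty_or_nonempty with e | ⟨G0, hG0⟩
    · rw [e]; simp only [card_empty, Nat.cast_zero, zero_mul]; positivity
    exact cls_bound P hD.le hM1 hgL (cl i) (fun G hG => (mem_filter.1 hG).2.1)
      (mem_filter.1 (mem_product.1 hi).2).2 (mem_filter.1 hG0).2.2
  have h4 : (I.card : ℚ) ≤ (2 * g + 6) ^ 6 * ((5001 / 5000) ^ (2 * g + 2) * 5000 ^ (s + L)) := by
    simp only [I]
    rw [card_product, Nat.cast_mul, Fintype.card_piFinset, prod_const, card_range, card_univ,
      Fintype.card_fin]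
    refine mul_le_mul ?_ (card_small _ _) (Nat.cast_nonneg _) (by positivity)
    push_cast
    exact pow_le_pow_left₀ (by positivity) (by linarith) 6
  have h5 : ρ ^ (κ - 5) ≤ 243 * ρ ^ κ := by
    have k1 : ρ ^ (κ - 5 + 5) ≤ ρ ^ κ := pow_le_pow_of_le_one hρ.le P.r1 (by omega)
    have k2 : (1 / 3 : ℚ) ^ 5 ≤ ρ ^ 5 := pow_le_pow_left₀ (by norm_num) P.r0 5
    rw [pow_add] at k1
    nlinarith [pow_pos hρ (κ - 5)]
  have h6 : (320000 : ℚ) ^ (g / M) ≤ (5001 / 5000) ^ g := by
    refine (pow_le_pow_left₀ (by norm_num) hM.le _).trans ?_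
    rw [← pow_mul]
    exact pow_le_pow_right₀ (by norm_num) (Nat.mul_div_le g M)
  have h7 := hg1 g (by omega)
  have h8 : y ^ g = (y * (5000 / 5001)) ^ g * (5001 / 5000) ^ g := by
    rw [← mul_pow]; congr 1; ring
  have h9 : (5000 : ℚ) ^ (s + L) * 4 ^ (10 + 2 * s + 3 * L) * 4 =
      5000 ^ s * 4 ^ (11 + 2 * s) * 320000 * 320000 ^ (g / M) := by
    rw [hL, show (320000 : ℚ) = 5000 * 4 ^ 3 by norm_num, mul_pow, ← pow_mul]
    ring
  set lam : ℚ := (5001 / 5000) ^ g with hlam
  have hl0 : 0 < lam := by positivity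
  calc _ = (((fam κ g).filter (BadT κ)).card : ℚ) * (y * (5000 / 5001)) ^ g * lam := by
        rw [h8, mul_assoc]
    _ ≤ ((2 * g + 6) ^ 6 * ((5001 / 5000) ^ (2 * g + 2) * 5000 ^ (s + L))) *
          (4 * (4 ^ (10 + 2 * s + 3 * L) * (243 * ρ ^ κ))) * lam := by
        refine mul_le_mul_of_nonneg_right (h3.trans (mul_le_mul h4 ?_ (by positivity)
          (by positivity))) hl0.le
        gcongr
    _ = (5000 ^ (s + L) * 4 ^ (10 + 2 * s + 3 * L) * 4) *
          ((2 * g + 6) ^ 6 * 243 * (5001 / 5000) ^ 2 * lam ^ 3 * ρ ^ κ) := by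
        rw [pow_add (5001 / 5000 : ℚ), mul_comm 2 g, pow_mul]
        ring
    _ = (5000 ^ s * 4 ^ (11 + 2 * s) * 320000 * 243 * (5001 / 5000) ^ 2 * (2 * g + 6) ^ 6) *
          320000 ^ (g / M) * (lam ^ 3 * ρ ^ κ) := by
        rw [h9]; ring
    _ ≤ lam * lam * (lam ^ 3 * ρ ^ κ) :=
        mul_le_mul_of_nonneg_right (mul_le_mul h7 h6 (by positivity) hl0.le) (by positivity)
    _ = _ := by rw [mul_comm 5 g, pow_mul]; ring

end Pool.Agent.MP_0bb195_co.Gap
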