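import Pool.Agent.MP_0bb195_co.BadT

/-!
A large subfamily of `S2` and the comparison with the gapsets lost in the double counting.
-/

namespace Pool.Agent.MP_0bb195_co.Gap

open Finset Pack

variable {G H : Finset ℕ} {m F κ g : ℕ}

/-- Subsets of `[1, 2n]` of size `n + b` that meet every pair with sum `2n + 1`. -/
def hits (n b : ℕ) : Finset (Finset ℕ) := (Icc 1 (2 * n)).powerset.filter fun A =>
  A.card = n + b ∧ ∀ i ∈ Icc 1 (2 * n), i ∈ A ∨ 2 * n + 1 - i ∈ A

lemma card_hits (n b : ℕ) : n.choose b * 2 ^ (n - b) ≤ (hits n b).card := by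
  have h1 : ((powersetCard b (range n)).sigma fun B => (range n \ B).powerset).card =
      n.choose b * 2 ^ (n - b) := by
    rw [card_sigma, sum_congr rfl (g := fun _ => 2 ^ (n - b)), sum_const, card_powersetCard,
      card_range, smul_eq_mul]
    intro B hB
    obtain ⟨k1, k2⟩ := mem_powersetCard.1 hB
    rw [card_powerset, card_sdiff_of_subset k1, card_range, k2]
  rw [← h1]
  refine card_le_card_of_forall_subsingleton (fun (p : Σ _ : Finset ℕ, Finset ℕ) A =>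
    ∀ i < n, (i + 1 ∈ A ↔ i ∈ p.1 ∨ i ∈ p.2) ∧ (2 * n - i ∈ A ↔ i ∉ p.2)) ?_ ?_
  · rintro ⟨B, S⟩ hp
    obtain ⟨hB, hS⟩ := mem_sigma.1 hp
    obtain ⟨k1, k2⟩ := mem_powersetCard.1 hB
    have k3 := mem_powerset.1 hS
    simp only at k1 k2 k3
    have l1 : ∀ i ∈ B, i < n := fun i hi => mem_range.1 (k1 hi)
    have l2 : ∀ i ∈ S, i < n ∧ i ∉ B := fun i hi => by
      have := mem_sdiff.1 (k3 hi)
      exact ⟨mem_range.1 this.1, this.2⟩
    set A := (B ∪ S).image (· + 1) ∪ (range n \ S).image (2 * n - ·) with hA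
    have mem : ∀ x, x ∈ A ↔ (∃ i, (i ∈ B ∨ i ∈ S) ∧ i + 1 = x) ∨
        ∃ i, (i < n ∧ i ∉ S) ∧ 2 * n - i = x := fun x => by
      simp only [hA, mem_union, mem_image, mem_sdiff, mem_range]
    have rel : ∀ i < n, (i + 1 ∈ A ↔ i ∈ B ∨ i ∈ S) ∧ (2 * n - i ∈ A ↔ i ∉ S) := by
      intro i hi
      refine ⟨⟨fun h => ?_, fun h => (mem _).2 (Or.inl ⟨i, h, rfl⟩)⟩,
        ⟨fun h => ?_, fun h => (mem _).2 (Or.inr ⟨i, ⟨hi, h⟩, rfl⟩)⟩⟩
      · rcases (mem _).1 h with ⟨j, j1, j2⟩ | ⟨j, j1, j2⟩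
        · rwa [← show j = i by omega]
        · omega
      · rcases (mem _).1 h with ⟨j, j1 | j1, j2⟩ | ⟨j, j1, j2⟩
        · have := l1 j j1; omega
        · have := l2 j j1; omega
        · rw [← show j = i by omega]; exact j1.2
    refine ⟨A, mem_filter.2 ⟨mem_powerset.2 fun x hx => mem_Icc.2 ?_, ?_, fun i hi => ?_⟩, rel⟩
    · rcases (mem _).1 hx with ⟨j, j1 | j1, j2⟩ | ⟨j, j1, j2⟩
      · have := l1 j j1; omega
      · have := l2 j j1; omega
      · omega
    · have c1 : S ⊆ range n := k3.trans sdiff_subset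
      have c2 := card_le_card c1
      rw [hA, card_union_of_disjoint, card_image_of_injective _ (add_left_injective 1),
        card_image_of_injOn, card_union_of_disjoint, card_sdiff_of_subset c1, k2]
      · rw [card_range] at c2 ⊢; omega
      · exact disjoint_left.2 fun i hi hi' => (l2 i hi').2 hi
      · intro i hi j hj e
        have j1 := mem_range.1 (mem_sdiff.1 (mem_coe.1 hi)).1
        have j2 := mem_range.1 (mem_sdiff.1 (mem_coe.1 hj)).1
        simp only at e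
        omega
      · refine disjoint_left.2 fun x hx hx' => ?_
        obtain ⟨i, hi, rfl⟩ := mem_image.1 hx
        obtain ⟨j, hj, e⟩ := mem_image.1 hx'
        have j2 := mem_range.1 (mem_sdiff.1 hj).1
        rcases mem_union.1 hi with h | h
        · have := l1 i h; omega
        · have := l2 i h; omega
    · have hi' := mem_Icc.1 hi
      by_cases h : i ≤ n
      · obtain ⟨j, rfl⟩ : ∃ j, i = j + 1 := ⟨i - 1, by omega⟩
        by_cases hj : j ∈ S
        · exact Or.inl ((rel j (by omega)).1.2 (Or.inr hj))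
        · rw [show 2 * n + 1 - (j + 1) = 2 * n - j by omega]
          exact Or.inr ((rel j (by omega)).2.2 hj)
      · obtain ⟨j, rfl, hj'⟩ : ∃ j, i = 2 * n - j ∧ j < n := ⟨2 * n - i, by omega⟩
        by_cases hj : j ∈ S
        · rw [show 2 * n + 1 - (2 * n - j) = j + 1 by omega]
          exact Or.inr ((rel j hj').1.2 (Or.inr hj))
        · exact Or.inl ((rel j hj').2.2 hj)
  · rintro A - ⟨B, S⟩ ⟨hp, h⟩ ⟨B', S'⟩ ⟨hp', h'⟩
    have key : ∀ {B S : Finset ℕ}, (⟨B, S⟩ : Σ _ : Finset ℕ, Finset ℕ) ∈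
        ((powersetCard b (range n)).sigma fun B => (range n \ B).powerset) →
        (∀ i ∈ B, i < n) ∧ ∀ i ∈ S, i < n ∧ i ∉ B := fun hp => by
      obtain ⟨hB, hS⟩ := mem_sigma.1 hp
      refine ⟨fun i hi => mem_range.1 ((mem_powersetCard.1 hB).1 hi), fun i hi => ?_⟩
      have := mem_sdiff.1 (mem_powerset.1 hS hi)
      exact ⟨mem_range.1 this.1, this.2⟩
    obtain ⟨a1, a2⟩ := key hp
    obtain ⟨b1, b2⟩ := key hp'
    simp only at h h'
    obtain rfl : S = S' := by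
      ext i
      by_cases hi : i < n
      · have := (h i hi).2.symm.trans (h' i hi).2
        tauto
      · exact ⟨fun h => absurd (a2 i h).1 hi, fun h => absurd (b2 i h).1 hi⟩
    obtain rfl : B = B' := by
      ext i
      by_cases hi : i < n
      · have k1 := (h i hi).1.symm.trans (h' i hi).1
        have k2 := a2 i
        have k3 := b2 i
        tauto
      · exact ⟨fun h => absurd (a1 i h) hi, fun h => absurd (b1 i h) hi⟩
    rfl

lemma choose_pow_le (a b : ℕ) : ∀ j, a.choose b ^ j ≤ (a * j).choose (b * j)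
  | 0 => by simp
  | j + 1 => by
    rw [Nat.mul_succ, Nat.mul_succ, Nat.add_choose_eq, pow_succ]
    exact (Nat.mul_le_mul_right _ (choose_pow_le a b j)).trans
      (single_le_sum (f := fun p : ℕ × ℕ => (a * j).choose p.1 * a.choose p.2)
        (fun _ _ => Nat.zero_le _) (mem_antidiagonal.2 (rfl : (b * j, b).1 + (b * j, b).2 = _)))

lemma build {n b g' : ℕ} {A G' : Finset ℕ} (hκ : 12 ≤ κ) (hn : 2 * n + 2 ≤ κ) (hA : A ∈ hits n b)
    (hG : Mem 10 g' G') (hm : IsMult G' m) (hF : IsTop G' F) (e : F + 1 = 2 * m) :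
    ∃ H, (Mem κ (κ + g' + (n + b) + 3) H ∧ S2 κ H) ∧ IsMult H (m + κ) ∧
      (∀ x ∈ Icc 1 (2 * n), x ∈ A ↔ x + (m + κ) ∈ H) ∧
      ∀ x, m < x → x < 2 * m → (x ∈ G' ↔ x + (κ + 2 * n + 2) ∈ H) := by
  obtain ⟨a1, a2, a3⟩ := mem_filter.1 hA
  have a4 : ∀ x ∈ A, 1 ≤ x ∧ x ≤ 2 * n := fun x hx => mem_Icc.1 (mem_powerset.1 a1 hx)
  have hm0 := hm.1
  have hm1 : F ≠ m := fun h => hm.2.1 (h ▸ hF.1)
  have g1 : ∀ x ∈ G', 0 < x ∧ x ≠ m ∧ x ≤ F := fun x hx =>
    ⟨Nat.pos_of_ne_zero fun h => hG.1.1 (h ▸ hx), fun h => hm.2.1 (h ▸ hx), hF.2 x hx⟩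
  have inj : Function.Injective fun x => if x < m then x + κ else x + (κ + 2 * n + 2) := by
    intro x y e
    simp only at e
    split_ifs at e <;> omega
  set H0 := Icc 1 κ ∪ (G'.image fun x => if x < m then x + κ else x + (κ + 2 * n + 2)) ∪
    A.image (· + (m + κ)) with hH0
  have mem0 : ∀ z, z ∈ H0 ↔ (0 < z ∧ z < m + κ) ∨
      (∃ x ∈ G', m < x ∧ x + (κ + 2 * n + 2) = z) ∨ ∃ x ∈ A, x + (m + κ) = z := by
    intro z
    rw [hH0, mem_union, mem_union, mem_Icc, mem_image, mem_image, ← or_assoc]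
    refine or_congr_left ⟨?_, ?_⟩
    · rintro (h | ⟨x, hx, h⟩)
      · omega
      · have := g1 x hx
        split_ifs at h
        · omega
        · exact Or.inr ⟨x, hx, by omega, h⟩
    · rintro (h | ⟨x, hx, h1, h2⟩)
      · by_cases hz : z ≤ κ
        · omega
        · exact Or.inr ⟨z - κ, hm.2.2 _ (by omega) (by omega), by split_ifs <;> omega⟩
      · exact Or.inr ⟨x, hx, by split_ifs <;> omega⟩
  have card0 : H0.card = κ + g' + (n + b) := by
    rw [hH0, card_union_of_disjoint, card_union_of_disjoint, card_image_of_injective _ inj,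
      card_image_of_injective _ (add_left_injective _), Nat.card_Icc, hG.2.1, a2,
      Nat.add_sub_cancel]
    · refine disjoint_left.2 fun z hz hz' => ?_
      obtain ⟨x, hx, e⟩ := mem_image.1 hz'
      have := g1 x hx
      have := mem_Icc.1 hz
      split_ifs at e <;> omega
    · refine disjoint_left.2 fun z hz hz' => ?_
      obtain ⟨y, hy, rfl⟩ := mem_image.1 hz'
      have := a4 y hy
      rcases mem_union.1 hz with h | h
      · have := mem_Icc.1 h; omega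
      · obtain ⟨x, hx, e⟩ := mem_image.1 h
        have := g1 x hx
        split_ifs at e <;> omega
  have rng : ∀ z ∈ H0, (0 < z ∧ z ≠ m + κ ∧ z ≤ m + κ + 2 * n) ∨
      (m + κ + 2 * n + 2 < z ∧ z ≤ F + (κ + 2 * n + 2)) := by
    intro z hz
    rcases (mem0 z).1 hz with h | ⟨x, hx, h1, h2⟩ | ⟨x, hx, h⟩
    · omega
    · have := g1 x hx; omega
    · have := a4 x hx; omega
  set H := insert (2 * (m + κ) + 2 * n + 1) (insert (m + κ + 2 * n + 2)
    (insert (m + κ + 2 * n + 1) H0)) with hH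
  have mem : ∀ z, z ∈ H ↔ z = 2 * (m + κ) + 2 * n + 1 ∨ z = m + κ + 2 * n + 2 ∨
      z = m + κ + 2 * n + 1 ∨ z ∈ H0 := fun z => by rw [hH, mem_insert, mem_insert, mem_insert]
  have sub : ∀ z ∈ H0, z ∈ H := fun z hz => (mem z).2 (Or.inr (Or.inr (Or.inr hz)))
  have hi : ∀ x ∈ G', m < x → x + (κ + 2 * n + 2) ∈ H := fun x hx h =>
    sub _ ((mem0 _).2 (Or.inr (Or.inl ⟨x, hx, h, rfl⟩)))
  have hm' : IsMult H (m + κ) := by
    refine ⟨by omega, fun h => ?_, fun x hx hx' => sub x ((mem0 x).2 (Or.inl ⟨hx, hx'⟩))⟩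
    rcases (mem _).1 h with h | h | h | h
    · omega
    · omega
    · omega
    · have := rng _ h; omega
  have hF' : IsTop H (2 * (m + κ) + 2 * n + 1) := by
    refine ⟨mem_insert_self _ _, fun x hx => ?_⟩
    rcases (mem _).1 hx with h | h | h | h
    · omega
    · omega
    · omega
    · have := rng _ h; omega
  have p1 : m + κ + 2 * n + 1 ∈ H := (mem _).2 (Or.inr (Or.inr (Or.inl rfl)))
  have p2 : m + κ + 2 * n + 2 ∈ H := (mem _).2 (Or.inr (Or.inl rfl))
  have hc : Consec H (F + (κ + 2 * n + 2)) (2 * (m + κ) + 2 * n + 1) := by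
    refine ⟨hi F hF.1 (by omega), hF'.1, by omega, fun c hc hh => ?_⟩
    rcases (mem _).1 hc with h | h | h | h
    · omega
    · omega
    · omega
    · have := rng _ h; omega
  obtain ⟨w, hw, w1, w2⟩ := window hG.1 hG.2.2.1 hF.1 (y := m) (by omega) hm0 (by omega)
  have w3 := g1 w hw
  refine ⟨H, ⟨⟨gapset_of (fun h => ?_) hm' fun z hz x y hx hy e => ?_, ?_,
    sparse_of_next hF' fun x hx hlt => ?_, _, _, hc, by omega⟩,
    m + κ, _, hm', hF', by omega, ⟨m + κ, _, _, _, hm', hF', hc, by omega, by omega⟩,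
    by rwa [show 2 * (m + κ) + 2 * n + 1 - (m + κ) + 1 = m + κ + 2 * n + 2 by omega], by omega,
    fun h => h.2.2.2 _ (hi w hw (by omega)) (by omega)⟩, hm', fun x hx => ?_, fun x x1 x2 => ?_⟩
  · rcases (mem _).1 h with h | h | h | h
    · omega
    · omega
    · omega
    · have := rng _ h; omega
  · rcases (mem _).1 hz with h | h | h | h
    · by_cases e1 : x = m + κ
      · exact Or.inr (by rwa [show y = m + κ + 2 * n + 1 by omega])
      by_cases e2 : y = m + κ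
      · exact Or.inl (by rwa [show x = m + κ + 2 * n + 1 by omega])
      exact (a3 (x - (m + κ)) (mem_Icc.2 (by omega))).imp
        (fun h => sub _ ((mem0 _).2 (Or.inr (Or.inr ⟨_, h, by omega⟩))))
        fun h => sub _ ((mem0 _).2 (Or.inr (Or.inr ⟨_, h, by omega⟩)))
    · omega
    · omega
    · have := rng _ h; omega
  · rw [hH, card_insert_of_notMem, card_insert_of_notMem, card_insert_of_notMem, card0]
    · intro h; have := rng _ h; omega
    · intro h
      rcases mem_insert.1 h with h | h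
      · omega
      · have := rng _ h; omega
    · intro h
      rcases mem_insert.1 h with h | h
      · omega
      rcases mem_insert.1 h with h | h
      · omega
      · have := rng _ h; omega
  · by_cases c1 : x + 1 < m + κ
    · exact ⟨x + 1, hm'.2.2 _ (by omega) c1, by omega, by omega⟩
    by_cases c2 : x ≤ m + κ + 2 * n
    · exact ⟨_, p1, by omega, by omega⟩
    rcases (mem _).1 hx with h | h | h | h
    · omega
    · exact ⟨_, hi w hw (by omega), by omega, by omega⟩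
    · exact ⟨_, p2, by omega, by omega⟩
    rcases (mem0 _).1 h with h | ⟨y, hy, h1, rfl⟩ | ⟨y, hy, h⟩
    · omega
    · by_cases c3 : y < F
      · obtain ⟨u, hu, u1, u2⟩ := next_le hG hF hy c3
        exact ⟨_, hi u hu (by omega), by omega, by omega⟩
      · have := g1 y hy
        exact ⟨_, hF'.1, hlt, by omega⟩
    · have := a4 y hy; omega
  · have hx' := mem_Icc.1 hx
    refine ⟨fun h => sub _ ((mem0 _).2 (Or.inr (Or.inr ⟨x, h, rfl⟩))), fun h => ?_⟩
    rcases (mem _).1 h with h | h | h | h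
    · omega
    · omega
    · omega
    rcases (mem0 _).1 h with h | ⟨y, hy, h1, h2⟩ | ⟨y, hy, h⟩
    · omega
    · omega
    · rwa [← show y = x by omega]
  · refine ⟨fun h => hi x h x1, fun h => ?_⟩
    rcases (mem _).1 h with h | h | h | h
    · omega
    · omega
    · omega
    rcases (mem0 _).1 h with h | ⟨y, hy, h1, h2⟩ | ⟨y, hy, h⟩
    · omega
    · rwa [← show y = x by omega]
    · have := a4 y hy; omega

open Classical in
lemma s2_ge {n b g' : ℕ} (hκ : 12 ≤ κ) (hn : 2 * n + 2 ≤ κ) :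
    (hits n b).card * sl 10 g' ≤ ((fam κ (κ + g' + (n + b) + 3)).filter (S2 κ)).card := by
  unfold sl
  rw [← card_product]
  refine card_le_card_of_forall_subsingleton (fun (p : Finset ℕ × Finset ℕ) H => ∃ m,
    IsMult p.2 m ∧ IsTop p.2 (2 * m - 1) ∧ IsMult H (m + κ) ∧
      (∀ x ∈ Icc 1 (2 * n), x ∈ p.1 ↔ x + (m + κ) ∈ H) ∧
      ∀ x, m < x → x < 2 * m → (x ∈ p.2 ↔ x + (κ + 2 * n + 2) ∈ H)) ?_ ?_
  · rintro ⟨A, G'⟩ hp
    obtain ⟨hA, hG⟩ := mem_product.1 hp
    obtain ⟨hG, m, F, hm, hF, e⟩ := mem_filter.1 hG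
    obtain ⟨H, k1, k2⟩ := build hκ hn hA (mem_fam.1 hG) hm hF e
    exact ⟨H, mem_filter.2 ⟨mem_fam.2 k1.1, k1.2⟩, m, hm,
      by rwa [show 2 * m - 1 = F by omega], k2⟩
  · rintro H - ⟨A, G⟩ ⟨hp, m, a1, a2, a3, a4, a5⟩ ⟨A', G'⟩ ⟨hp', m', b1, b2, b3, b4, b5⟩
    obtain rfl : m = m' := by have := mult_unique a3 b3; omega
    obtain ⟨hA, hG⟩ := mem_product.1 hp
    obtain ⟨hA', hG'⟩ := mem_product.1 hp'
    simp only at a1 a2 a4 a5 b1 b2 b4 b5 hA hG hA' hG'
    have s1 := mem_powerset.1 (mem_filter.1 hA).1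
    have s2 := mem_powerset.1 (mem_filter.1 hA').1
    have key : ∀ {G G' : Finset ℕ}, 0 ∉ G → IsMult G m → IsTop G (2 * m - 1) → IsMult G' m →
        (∀ x, m < x → x < 2 * m → (x ∈ G ↔ x + (κ + 2 * n + 2) ∈ H)) →
        (∀ x, m < x → x < 2 * m → (x ∈ G' ↔ x + (κ + 2 * n + 2) ∈ H)) → G ⊆ G' := by
      intro G G' h0 c1 c2 c3 c4 c5 x hx
      have k1 : x ≠ 0 := fun e => h0 (e ▸ hx)
      have k2 : x ≠ m := fun e => c1.2.1 (e ▸ hx)
      have k3 := c2.2 x hx
      by_cases h : x < m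
      · exact c3.2.2 x (by omega) h
      · exact (c5 x (by omega) (by omega)).2 ((c4 x (by omega) (by omega)).1 hx)
    exact Prod.ext (Subset.antisymm (fun x hx => (b4 x (s1 hx)).2 ((a4 x (s1 hx)).1 hx))
      fun x hx => (a4 x (s2 hx)).2 ((b4 x (s2 hx)).1 hx))
      (Subset.antisymm (key (mem_fam.1 (mem_filter.1 hG).1).1.1 a1 a2 b1 a5 b5)
        (key (mem_fam.1 (mem_filter.1 hG').1).1.1 b1 b2 a1 b5 a5))

lemma sl_ge {X : ℚ} (hX : 0 < X) (hX1 : X ≤ 1) (hs : 1 ≤ ∑ d ∈ Icc 1 10, X ^ (d + 1)) :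
    ∀ j, 2 ≤ j → X ^ 12 ≤ sl 10 (10 + j) * X ^ j := by
  intro j
  induction j using Nat.strong_induction_on with
  | _ j ih =>
    intro hj
    by_cases h6 : j ≤ 12
    · have h1 : (1 : ℚ) ≤ sl 10 (10 + j) := by
        have := sl_pos (κ := 10) (by omega) (j - 2)
        rw [show j - 2 + 2 = j by omega] at this
        exact_mod_cast this
      exact (pow_le_pow_of_le_one hX.le hX1 h6).trans (le_mul_of_one_le_left (by positivity) h1)
    · have h1 : ((∑ d ∈ Icc 1 10, sl 10 (10 + j - d - 1) : ℕ) : ℚ) ≤ sl 10 (10 + j) := by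
        exact_mod_cast sl_rec (by omega) le_rfl (by omega)
      have h2 : ∑ d ∈ Icc 1 10, X ^ 12 * X ^ (d + 1) ≤
          ∑ d ∈ Icc 1 10, (sl 10 (10 + j - d - 1) : ℚ) * X ^ j := by
        refine sum_le_sum fun d hd => ?_
        have hd' := mem_Icc.1 hd
        have := mul_le_mul_of_nonneg_right (ih (j - d - 1) (by omega) (by omega))
          (pow_pos hX (d + 1)).le
        rwa [mul_assoc, ← pow_add X (j - d - 1), show j - d - 1 + (d + 1) = j by omega,
          show 10 + (j - d - 1) = 10 + j - d - 1 by omega] at this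
      rw [← mul_sum, ← sum_mul] at h2
      rw [Nat.cast_sum] at h1
      exact (le_mul_of_one_le_right (by positivity) hs).trans
        (h2.trans (mul_le_mul_of_nonneg_right h1 (by positivity)))

/-- The number of ways to fill one block of 500 pairs with 600 elements. -/
def K0 : ℕ := Nat.choose 500 100 * 2 ^ 400

lemma K0_a : (1 : ℚ) ≤ K0 * (209 / 500) ^ 600 := by
  rw [K0, Nat.choose_eq_descFactorial_div_factorial]
  decide +kernel

lemma K0_b : (393 / 500 : ℚ) ^ 1000 ≤ K0 * (31 / 50) ^ 1600 := by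
  rw [K0, Nat.choose_eq_descFactorial_div_factorial]
  decide +kernel

open Classical in
lemma s2_blocks (hκ : 12 ≤ κ) {j j' : ℕ} (hj : 1000 * j + 2 ≤ κ)
    (e : g + 1 = κ + 600 * j + 13 + j') :
    (K0 : ℚ) ^ j * sl 10 (10 + j') ≤ ((fam κ (g + 1)).filter (S2 κ)).card := by
  have h1 := s2_ge (n := 500 * j) (b := 100 * j) (g' := 10 + j') hκ (by omega)
  rw [show κ + (10 + j') + (500 * j + 100 * j) + 3 = g + 1 by omega] at h1
  have h2 : K0 ^ j ≤ (hits (500 * j) (100 * j)).card := by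
    refine le_trans ?_ (card_hits _ _)
    rw [K0, mul_pow, ← pow_mul, show 500 * j - 100 * j = 400 * j by omega]
    exact Nat.mul_le_mul_right _ (choose_pow_le 500 100 j)
  exact_mod_cast (Nat.mul_le_mul_right _ h2).trans h1

lemma lowA {S K X y l : ℚ} {a c j w : ℕ} (hX : 1 / 3 ≤ X) (hX1 : X ≤ 1) (hl : 1 ≤ l)
    (hK : 1 ≤ K * X ^ a) (hS : K ^ j ≤ S) (hS0 : 0 ≤ S) (hw : κ + w ≤ a * j + c + κ)
    (hy : X * l ^ 18 ≤ y) (h : 3 * κ ≤ 2 * (κ + w)) :
    (1 / 3) ^ c * l ^ (6 * (κ + w)) * y ^ κ ≤ S * y ^ (κ + w) := by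
  have hX0 : 0 < X := by linarith
  have hy0 : 0 < y := lt_of_lt_of_le (by positivity) hy
  have h3 : 1 ≤ S * X ^ (a * j) := by
    refine (one_le_pow₀ hK (n := j)).trans ?_
    rw [mul_pow, ← pow_mul]
    exact mul_le_mul_of_nonneg_right hS (by positivity)
  have h4 : X ^ (a * j + c) ≤ X ^ w := pow_le_pow_of_le_one hX0.le hX1 (by omega)
  have h5 : (1 / 3 : ℚ) ^ c ≤ X ^ c := pow_le_pow_left₀ (by norm_num) hX _
  have h6 : l ^ (6 * (κ + w)) ≤ l ^ (18 * w) := pow_le_pow_right₀ hl (by omega)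
  have h7 := pow_le_pow_left₀ (by positivity) hy w
  rw [mul_pow, ← pow_mul] at h7
  rw [pow_add y, mul_comm (y ^ κ), ← mul_assoc]
  refine mul_le_mul_of_nonneg_right (le_trans ?_ (mul_le_mul_of_nonneg_left h7 hS0))
    (by positivity)
  rw [← mul_assoc]
  refine mul_le_mul (h5.trans (le_trans ?_ (mul_le_mul_of_nonneg_left h4 hS0))) h6
    (by positivity) (by positivity)
  rw [pow_add, ← mul_assoc]
  exact le_mul_of_one_le_left (by positivity) h3

lemma lowB {S T K X y ρ l : ℚ} {a b c d N j j' : ℕ} (hX : 1 / 3 ≤ X) (hX1 : X ≤ 1) (hl : 1 ≤ l)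
    (hρ : 0 ≤ ρ) (hρ1 : ρ ≤ 1) (hK : ρ ^ b ≤ K * X ^ a) (hK0 : 0 ≤ K) (hS : K ^ j * T ≤ S)
    (hS0 : 0 ≤ S) (hT : X ^ d ≤ T * X ^ j') (hb : b * j ≤ κ) (hg : g ≤ c + (a * j + j'))
    (hy : X * l ^ 6 ≤ y) (hN : N = c + d) :
    (1 / 3) ^ N * l ^ (6 * g) * ρ ^ κ ≤ S * y ^ g := by
  have hX0 : 0 < X := by linarith
  have h3 := pow_le_pow_left₀ (by positivity) hK j
  rw [mul_pow, ← pow_mul, ← pow_mul] at h3
  have h4 : ρ ^ κ ≤ ρ ^ (b * j) := pow_le_pow_of_le_one hρ hρ1 hb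
  have h5 : X ^ (c + (a * j + j')) ≤ X ^ g := pow_le_pow_of_le_one hX0.le hX1 hg
  have h6 : (1 / 3 : ℚ) ^ N ≤ X ^ (c + d) := hN ▸ pow_le_pow_left₀ (by norm_num) hX _
  have h7 := pow_le_pow_left₀ (by positivity) hy g
  rw [mul_pow, ← pow_mul] at h7
  have h8 := mul_le_mul (h4.trans h3) hT (by positivity) (by positivity)
  refine le_trans ?_ (mul_le_mul_of_nonneg_left h7 hS0)
  rw [mul_right_comm, ← mul_assoc]
  refine mul_le_mul_of_nonneg_right (le_trans ?_ (mul_le_mul_of_nonneg_left h5 hS0))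
    (by positivity)
  calc _ ≤ X ^ (c + d) * ρ ^ κ := mul_le_mul_of_nonneg_right h6 (by positivity)
    _ = X ^ c * (ρ ^ κ * X ^ d) := by ring
    _ ≤ _ := mul_le_mul_of_nonneg_left h8 (by positivity)
    _ = (K ^ j * T) * X ^ (c + (a * j + j')) := by ring
    _ ≤ _ := mul_le_mul_of_nonneg_right hS (by positivity)

open Classical in
lemma s2_lower (hκ : 12 ≤ κ) (h : 3 * κ ≤ 2 * g) (hg : 45 ≤ g) :
    (1 / 3 : ℚ) ^ 1025 * (5001 / 5000) ^ (6 * g) * (21 / 50) ^ κ ≤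
      ((fam κ (g + 1)).filter (S2 κ)).card * (21 / 50) ^ g ∨
    (1 / 3 : ℚ) ^ 1025 * (5001 / 5000) ^ (6 * g) * (393 / 500) ^ κ ≤
      ((fam κ (g + 1)).filter (S2 κ)).card * (621 / 1000) ^ g := by
  by_cases hc : 1000 * ((g + 1 - κ - 15) / 600) + 2 ≤ κ
  · left
    obtain ⟨j, hj⟩ : ∃ j, j = (g + 1 - κ - 15) / 600 := ⟨_, rfl⟩
    obtain ⟨j', hj'⟩ : ∃ j', g + 1 = κ + 600 * j + 13 + (j' + 2) :=
      ⟨g + 1 - κ - 600 * j - 15, by omega⟩
    have h1 := s2_blocks (g := g) hκ (j := j) (by omega) hj'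
    have h2 : (1 : ℚ) ≤ sl 10 (10 + (j' + 2)) := by
      exact_mod_cast sl_pos (κ := 10) (by omega) j'
    obtain ⟨w, rfl⟩ : ∃ w, g = κ + w := ⟨g - κ, by omega⟩
    exact lowA (by norm_num) (by norm_num) (by norm_num) K0_a
      ((le_mul_of_one_le_right (pow_nonneg (Nat.cast_nonneg _) _) h2).trans h1)
      (Nat.cast_nonneg _) (by omega) (by norm_num) h
  · right
    obtain ⟨j, hj⟩ : ∃ j, j = (κ - 2) / 1000 := ⟨_, rfl⟩
    obtain ⟨j', hj'⟩ : ∃ j', g + 1 = κ + 600 * j + 13 + j' ∧ 2 ≤ j' :=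
      ⟨g + 1 - κ - 600 * j - 13, by omega⟩
    exact lowB (c := 1013) (by norm_num) (by norm_num) (by norm_num) (by norm_num) (by norm_num)
      K0_b (Nat.cast_nonneg _) (s2_blocks (g := g) hκ (j := j) (by omega) hj'.1)
      (Nat.cast_nonneg _)
      (sl_ge (X := 31 / 50) (by norm_num) (by norm_num) (by decide +kernel) j' hj'.2)
      (by omega) (by omega) (by norm_num) (by omega)

open Classical in
lemma finish {y t ρ : ℚ} {f : ℕ → ℕ → ℕ → ℚ} (P : Pk y t ρ f) (hy : 1 / 3 ≤ y) {c : ℚ}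
    (hc : 0 < c) : ∃ g0 : ℕ, ∀ g ≥ g0, ∀ κ : ℕ, 1 ≤ κ → ∀ S : ℚ, 0 ≤ S →
      c * (5001 / 5000) ^ (6 * g) * ρ ^ κ ≤ S * y ^ g →
      (2 * g + 2) * ((fam κ (g + 1)).filter (BadT κ)).card +
        ((fam κ g).filter (BadT κ)).card ≤ S := by
  have hρ : 0 < ρ := by linarith [P.r0]
  have hy0 := P.y0
  obtain ⟨g1, h1⟩ := badT_bound P
  obtain ⟨g2, h2⟩ := ev_poly (3 * (5001 / 5000) ^ 5 / c) 1
  refine ⟨g1 + g2, fun g hg κ hκ S hS h => ?_⟩
  have k1 := h1 g (by omega) κ hκ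
  have k2 := h1 (g + 1) (by omega) κ hκ
  have k3 := h2 g (by omega)
  rw [pow_one, div_mul_eq_mul_div, div_le_iff₀ hc] at k3
  rw [pow_succ y, show 5 * (g + 1) = g * 5 + 5 by ring, pow_add, pow_mul] at k2
  rw [mul_comm 5 g, pow_mul] at k1
  rw [mul_comm 6 g, pow_mul] at h
  set lam : ℚ := (5001 / 5000) ^ g with hlam
  have hl : 0 < lam := by positivity
  set E : ℚ := lam ^ 5 * ρ ^ κ with hE
  have hE0 : 0 < E := by positivity
  have hg0 : (0 : ℚ) ≤ g := Nat.cast_nonneg _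
  set B1 : ℚ := (((fam κ (g + 1)).filter (BadT κ)).card : ℚ)
  set B0 : ℚ := (((fam κ g).filter (BadT κ)).card : ℚ)
  have hB0 : 0 ≤ B0 := Nat.cast_nonneg _
  have hyg := pow_pos hy0 g
  refine le_of_mul_le_mul_right ?_ (mul_pos hyg hy0)
  have a1 : (2 * g + 2) * (B1 * (y ^ g * y)) ≤ (2 * g + 2) * ((5001 / 5000) ^ 5 * E) :=
    mul_le_mul_of_nonneg_left (k2.trans (le_of_eq (by rw [hE]; ring))) (by positivity)
  have a2 : B0 * y ^ g * y ≤ E :=
    (mul_le_of_le_one_right (by positivity) P.y1).trans k1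
  have a3 : lam * c * E * (1 / 3) ≤ S * y ^ g * y :=
    mul_le_mul (le_trans (le_of_eq (by rw [hE]; ring)) h) hy (by norm_num) (by positivity)
  have a4 := mul_le_mul_of_nonneg_right k3 hE0.le
  nlinarith

theorem main_mid : ∃ g0 : ℕ, ∀ g ≥ g0, ∀ κ : ℕ, 12 ≤ κ → 3 * κ ≤ 2 * g →
    (fam κ g).card ≤ (fam κ (g + 1)).card := by
  classical
  obtain ⟨g1, h1⟩ := finish pk_a (by norm_num) (c := (1 / 3) ^ 1025) (by positivity)
  obtain ⟨g2, h2⟩ := finish pk_b (by norm_num) (c := (1 / 3) ^ 1025) (by positivity)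
  refine ⟨g1 + g2 + 45, fun g hg κ hκ h => card_le_of_rest (by omega) ?_⟩
  rw [filter_or, card_union_of_disjoint (disjoint_filter.2 fun H _ h h' => not_rest_of_s2 h' h)]
  have k1 := rest_le (κ := κ) (g := g) (by omega)
  have k2 : (2 * (g : ℚ) + 2) * ((fam κ (g + 1)).filter (BadT κ)).card +
      ((fam κ g).filter (BadT κ)).card ≤ ((fam κ (g + 1)).filter (S2 κ)).card := by
    rcases s2_lower hκ h (by omega) with k | k
    · exact h1 g (by omega) κ (by omega) _ (Nat.cast_nonneg _) k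
    · exact h2 g (by omega) κ (by omega) _ (Nat.cast_nonneg _) k
  have k3 : (((fam κ g).filter (Rest κ)).card : ℚ) ≤ ((fam κ (g + 1)).filter (Rest κ)).card +
      ((fam κ (g + 1)).filter (S2 κ)).card := by linarith
  exact_mod_cast k3

theorem main_all : ∃ g0 : ℕ, 2 ≤ g0 ∧ ∀ κ g : ℕ, 1 ≤ κ → g0 ≤ g →
    (fam κ g).card ≤ (fam κ (g + 1)).card := by
  obtain ⟨C, hC, h1⟩ := main
  obtain ⟨g1, h2⟩ := main_mid
  refine ⟨C * 11 + g1, by omega, fun κ g hκ hg => ?_⟩
  by_cases c1 : 2 * g + 1 ≤ 3 * κ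
  · exact main_large hκ c1
  by_cases c2 : 12 ≤ κ
  · exact h2 g (by omega) κ c2 (by omega)
  · exact h1 κ g hκ ((Nat.mul_le_mul_left C (show κ ≤ 11 by omega)).trans (by omega))

end Pool.Agent.MP_0bb195_co.Gap
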